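import Pool.Agent.H938R2.TB.Defs

set_option autoImplicit false

open MvPolynomial H960VB

namespace H938TB.Stub

/- ===== TASK T1 ===== -/
/-- factors of homogeneous polynomials are homogeneous (degrees in the torsion-free group `M`). -/
theorem hom_of_mul {σ : Type*} [Finite σ] (ω : σ → M) {f g : MvPolynomial σ ℂ} {τ : M}
    (h : IsWeightedHomogeneous ω (f * g) τ) (hne : f * g ≠ 0) :
    ∃ a b, a + b = τ ∧ IsWeightedHomogeneous ω f a ∧ IsWeightedHomogeneous ω g b := by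
  sorry

section
variable {n : ℕ} {E : Bundle2 n} {w : Fin (n + 1) → ℤ × ℤ}

/- ===== TASK T2 ===== -/
/-- semi-invariant sections through any point. -/
theorem exists_sec (D : EqB E w) (x : Fin (n + 1) → ℂ) (hx : x ≠ 0) :
    ∃ (τ τ' : M) (G G' : Vec E.a n), HSec D τ G ∧ HSec D τ' G' ∧
      LinearIndependent ℂ ![evv G x, evv G' x] := by
  sorry

/- ===== TASK T3 ===== -/
theorem exists_wedge (hn : 1 ≤ n) (D : EqB E w) : Nonempty (Wedge D) := by
  sorry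

end

/- ===== TASK T4 ===== -/
/-- the structure of a nonsplit bundle on the plane with an action of the full torus. -/
theorem plane {E : Bundle2 2} {w : Fin 3 → ℤ × ℤ} (D : EqB E w)
    (hw : cr (w 1 - w 0) (w 2 - w 0) ≠ 0) (hE : ¬ E.Splits) :
    ∃ (L : Fin 3 → Vec E.a 2) (t : Fin 3 → M) (m : Fin 3 → ℕ),
      (∀ i, 1 ≤ m i) ∧ (∀ i, HSec D (t i) (L i)) ∧
      (∀ i j, t i + (m i : ℤ) • tw w i = t j + (m j : ℤ) • tw w j) ∧
      (∀ i j k, i ≠ j → j ≠ k → i ≠ k → ∀ x : Fin 3 → ℂ, x ≠ 0 →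
        (LinearIndependent ℂ ![evv (L j) x, evv (L k) x] ↔ x i ≠ 0)) ∧
      (∀ v j k, v ≠ j → j ≠ k → v ≠ k → ∀ (τ τ' : M) (G G' : Vec E.a 2),
        HSec D τ G → HSec D τ' G' →
        LinearIndependent ℂ ![evv G (Pi.single v 1), evv G' (Pi.single v 1)] →
        ∃ (r r' : ℕ) (c c' : ℂ), c ≠ 0 ∧ c' ≠ 0 ∧
          ((τ = t j + (r : ℤ) • tw w v ∧ τ' = t k + (r' : ℤ) • tw w v ∧
            (G = fun i => C c * X v ^ r * L j i) ∧ (G' = fun i => C c' * X v ^ r' * L k i)) ∨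
           (τ = t k + (r : ℤ) • tw w v ∧ τ' = t j + (r' : ℤ) • tw w v ∧
            (G = fun i => C c * X v ^ r * L k i) ∧
            (G' = fun i => C c' * X v ^ r' * L j i)))) := by
  sorry

section
variable {n : ℕ} {E : Bundle2 n} {w : Fin (n + 1) → ℤ × ℤ}

/- ===== TASK T6a ===== -/
/-- the two characters at a vertex, from the plane through three vertices. -/
theorem vertex (hn : 2 ≤ n) (D : EqB E w) (hE : ¬ E.Splits) (v j k : Fin (n + 1))
    (hjk : cr (w j - w v) (w k - w v) ≠ 0) (τ τ' : M) (G G' : Vec E.a n)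
    (hG : HSec D τ G) (hG' : HSec D τ' G')
    (hli : LinearIndependent ℂ ![evv G (Pi.single v 1), evv G' (Pi.single v 1)]) :
    ∃ mj mk : ℕ, 1 ≤ mj ∧ 1 ≤ mk ∧
      (pr (w v) (τ - τ') = (mk : ℤ) • (w k - w v) - (mj : ℤ) • (w j - w v) ∨
       pr (w v) (τ - τ') = (mj : ℤ) • (w j - w v) - (mk : ℤ) • (w k - w v)) := by
  sorry

/- ===== TASK T7 ===== -/
theorem distinct (hn : 2 ≤ n) (D : EqB E w) (hE : ¬ E.Splits)
    (hw : ∃ i j k, cr (w j - w i) (w k - w i) ≠ 0) : Function.Injective w := by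
  sorry

/- ===== TASK T6b ===== -/
theorem extremal (hn : 2 ≤ n) (D : EqB E w) (hE : ¬ E.Splits)
    (hw : ∃ i j k, cr (w j - w i) (w k - w i) ≠ 0) (v : Fin (n + 1)) :
    ∃ (τ τ' : M) (G G' : Vec E.a n), HSec D τ G ∧ HSec D τ' G' ∧
      LinearIndependent ℂ ![evv G (Pi.single v 1), evv G' (Pi.single v 1)] ∧
      ∀ j, j ≠ v → 0 < cr (pr (w v) (τ - τ')) (w j - w v) := by
  sorry

end

/- ===== TASK T9 ===== -/
/-- five points in convex position can be ordered cyclically. -/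
theorem sorting (w : Fin 5 → ℤ × ℤ) (l : Fin 5 → ℤ × ℤ)
    (h : ∀ v j, j ≠ v → 0 < cr (l v) (w j - w v)) :
    ∃ σ : Equiv.Perm (Fin 5), ∀ i j k, i < j → j < k →
      0 < cr (w (σ j) - w (σ i)) (w (σ k) - w (σ i)) := by
  sorry

/- ===== TASK T8 ===== -/
/-- the cycle of five sections. -/
theorem cycle {E : Bundle2 4} {w : Fin 5 → ℤ × ℤ} (D : EqB E w) (W : Wedge D)
    (hE : ¬ E.Splits)
    (hcc : ∀ i j k, i < j → j < k → 0 < cr (w j - w i) (w k - w i)) :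
    ∃ (s : Fin 5 → Vec E.a 4) (τ : Fin 5 → M) (α : Fin 5 → ℕ) (c : Fin 5 → ℂ),
      (∀ i, HSec D (τ i) (s i)) ∧ (∀ i, 1 ≤ α i) ∧ (∀ i, c i ≠ 0) ∧
      ∀ i, W.wd (s (i - 1)) (s i) = C (c i) * X i ^ α i := by
  sorry

/- ===== TASK T10 ===== -/
/-- the core data of a cycle of sections. -/
theorem toCore {E : Bundle2 4} {w : Fin 5 → ℤ × ℤ} (D : EqB E w) (W : Wedge D)
    (hcc : ∀ i j k, i < j → j < k → 0 < cr (w j - w i) (w k - w i))
    (s : Fin 5 → Vec E.a 4) (τ : Fin 5 → M) (α : Fin 5 → ℕ) (c : Fin 5 → ℂ)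
    (hs : ∀ i, HSec D (τ i) (s i)) (hα : ∀ i, 1 ≤ α i) (hc : ∀ i, c i ≠ 0)
    (h : ∀ i, W.wd (s (i - 1)) (s i) = C (c i) * X i ^ α i) : Nonempty CoreData := by
  sorry

end H938TB.Stub
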