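import Mathlib

/-!
# The degree group, and the core data

`M = ℤ × ℤ²` is the group of degrees.  `CoreData` is what a nonsplit rank two bundle on `P^4` with an
action of a two-dimensional torus gives: five polynomials `F i` in five variables with
`F (i-2) * F (i+2) + X_i * F i = X_{i-1} * X_{i+1}`, where `X_i = c_i x_i^{α_i}`.
-/

set_option autoImplicit false

open MvPolynomial

namespace H938TB

/-- the group of degrees (degree, weight). -/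
abbrev M := ℤ × ℤ × ℤ

/-- the degree of the coordinates. -/
def tw {σ : Type*} (w : σ → ℤ × ℤ) : σ → M := fun j => (1, w j)

/-- the cross product. -/
def cr (a b : ℤ × ℤ) : ℤ := a.1 * b.2 - a.2 * b.1

/-- the weight of the degree `τ` relative to a vertex of weight `w`. -/
def pr (w : ℤ × ℤ) (τ : M) : ℤ × ℤ := τ.2 - τ.1 • w

/-- the polynomial ring in five variables, indexed cyclically by `Fin 5`. -/
abbrev S5 := MvPolynomial (Fin 5) ℂ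

/-- `c_i x_i ^ α_i` -/
noncomputable def mX (c : Fin 5 → ℂ) (α : Fin 5 → ℕ) (i : Fin 5) : S5 := C (c i) * X i ^ α i

/-- `W_i = α_i ω_i` -/
def WW (ω : Fin 5 → M) (α : Fin 5 → ℕ) (i : Fin 5) : M := (α i : ℤ) • ω i

/-- the degree of `F i`. -/
def phi (ω : Fin 5 → M) (α : Fin 5 → ℕ) (i : Fin 5) : M :=
  WW ω α (i - 1) + WW ω α (i + 1) - WW ω α i

/-- the core data.  All indices are in `Fin 5` with its cyclic (mod 5) arithmetic. -/
structure CoreData where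
  ω : Fin 5 → M
  α : Fin 5 → ℕ
  c : Fin 5 → ℂ
  F : Fin 5 → S5
  hα : ∀ i, 1 ≤ α i
  hc : ∀ i, c i ≠ 0
  hpos : ∀ i, 0 < (ω i).1
  hind : ∀ i j k, i ≠ j → j ≠ k → i ≠ k → ∀ a b d : ℤ,
    a • ω i + b • ω j + d • ω k = 0 → a = 0 ∧ b = 0 ∧ d = 0
  hF : ∀ i, IsWeightedHomogeneous ω (F i) (phi ω α i)
  hP : ∀ i, F (i - 2) * F (i + 2) + mX c α i * F i = mX c α (i - 1) * mX c α (i + 1)

/-- put the variable `j` equal to `0`. -/
noncomputable def res (j : Fin 5) : S5 →ₐ[ℂ] S5 := aeval (fun k => if k = j then 0 else X k)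

/-- the derivation `x_a ∂/∂x_a`. -/
noncomputable def th (a : Fin 5) (p : S5) : S5 := X a * pderiv a p

/-- the exponents of the restrictions of the `F i`:
`F i = e i * x_{i+1}^{p i} * x_{i-2}^{q i}` on `x_{i+2} = 0` and
`F i = e' i * x_{i-1}^{p' i} * x_{i+2}^{q' i}` on `x_{i-2} = 0`. -/
structure Exps (K : CoreData) where
  p : Fin 5 → ℕ
  q : Fin 5 → ℕ
  p' : Fin 5 → ℕ
  q' : Fin 5 → ℕ
  e : Fin 5 → ℂ
  e' : Fin 5 → ℂ
  he : ∀ i, e i ≠ 0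
  he' : ∀ i, e' i ≠ 0
  r1 : ∀ i, res (i + 2) (K.F i) = C (e i) * X (i + 1) ^ p i * X (i - 2) ^ q i
  r2 : ∀ i, res (i - 2) (K.F i) = C (e' i) * X (i - 1) ^ p' i * X (i + 2) ^ q' i
  s1 : ∀ i, p i + q' (i - 1) = K.α (i + 1)
  s2 : ∀ i, q i + p' (i - 1) = K.α (i - 2)
  ne : ∀ i j, res j (K.F i) ≠ 0

/-- the numerical data. -/
structure Num where
  ω : Fin 5 → M
  α : Fin 5 → ℕ
  p : Fin 5 → ℕ
  q : Fin 5 → ℕ
  p' : Fin 5 → ℕ
  q' : Fin 5 → ℕ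
  hα : ∀ i, 1 ≤ α i
  hpos : ∀ i, 0 < (ω i).1
  hind : ∀ i j k, i ≠ j → j ≠ k → i ≠ k → ∀ a b d : ℤ,
    a • ω i + b • ω j + d • ω k = 0 → a = 0 ∧ b = 0 ∧ d = 0
  d1 : ∀ i, (p i : ℤ) • ω (i + 1) + (q i : ℤ) • ω (i - 2) = phi ω α i
  d2 : ∀ i, (p' i : ℤ) • ω (i - 1) + (q' i : ℤ) • ω (i + 2) = phi ω α i
  s1 : ∀ i, p i + q' (i - 1) = α (i + 1)
  s2 : ∀ i, q i + p' (i - 1) = α (i - 2)

/-- the normalised data `u` of a `Num`. -/
structure UU (N : Num) where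
  u : Fin 5 → ℚ
  u0 : ∀ i, 0 < u i
  u1 : ∀ i, u i < 1
  rel : ∀ i, u i + u (i - 1) * u (i + 1) = 1
  hq : ∀ i, (N.q i : ℚ) = N.α (i - 2) * u i
  hq' : ∀ i, (N.q' i : ℚ) = N.α (i + 2) * u i
  hp : ∀ i, (N.p i : ℚ) = N.α (i + 1) * (1 - u (i - 1))
  hp' : ∀ i, (N.p' i : ℚ) = N.α (i - 1) * (1 - u (i + 1))
  lin : ∀ x : Fin 5 → ℤ, ∑ j, x j • N.ω j = 0 → ∀ i,
    (x (i - 2) : ℚ) / N.α (i - 2) + (x (i + 2) : ℚ) / N.α (i + 2) = u i * ((x i : ℚ) / N.α i)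

/-- the monomials of degree `δ`. -/
def Mon (ω : Fin 5 → M) (δ : M) : Set (Fin 5 →₀ ℕ) := {v | Finsupp.weight ω v = δ}

/-- the number of monomials of degree `δ`, the dimension of the graded piece. -/
noncomputable def nM (ω : Fin 5 → M) (δ : M) : ℕ := (Mon ω δ).ncard

/-- the number of monomials of degree `δ` divisible neither by `x^V` nor by `x^V'`. -/
noncomputable def nS (ω : Fin 5 → M) (δ : M) (V V' : Fin 5 →₀ ℕ) : ℕ :=
  {v ∈ Mon ω δ | ¬ V ≤ v ∧ ¬ V' ≤ v}.ncard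

/-- the subspace `A S_{δ-a} + B S_{δ-b}` -/
noncomputable def Sub (ω : Fin 5 → M) (A B : S5) (a b δ : M) : Submodule ℂ S5 :=
  (weightedHomogeneousSubmodule ℂ ω (δ - a)).map (LinearMap.mulLeft ℂ A) ⊔
  (weightedHomogeneousSubmodule ℂ ω (δ - b)).map (LinearMap.mulLeft ℂ B)

/-- the degree `κ (W_0 + ... + W_4)` -/
def dl (N : Num) (κ : ℕ) : M := (κ : ℤ) • ∑ i, WW N.ω N.α i

end H938TB
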