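import Pool.Agent.H938R2.TB.Base

set_option autoImplicit false

open MvPolynomial

namespace H938TB

namespace C1aux

lemma exists_form (a b : Fin 5) (hab : a ≠ b) (v : Fin 5 →₀ ℕ) (m n : ℕ)
    (hv : v ≤ Finsupp.single a m + Finsupp.single b n) (e : ℂ) :
    (monomial v e : S5) = C e * X a ^ v a * X b ^ v b := by
  have hv' : v = Finsupp.single a (v a) + Finsupp.single b (v b) := by
    ext k
    by_cases hka : k = a
    · subst hka
      simp [Finsupp.single_apply, hab.symm]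
    · by_cases hkb : k = b
      · subst hkb
        simp [Finsupp.single_apply, hab]
      · have := hv k
        simp [Ne.symm hka, Ne.symm hkb, eq_comm] at this ⊢
        exact this
  conv_lhs => rw [hv']
  rw [X_pow_eq_monomial, X_pow_eq_monomial, C_apply, monomial_mul, monomial_mul]
  simp

lemma mono_form (a b : Fin 5) (m n : ℕ) (c : ℂ) :
    (C c * X a ^ m * X b ^ n : S5) =
      monomial (Finsupp.single a m + Finsupp.single b n) c := by
  rw [X_pow_eq_monomial, X_pow_eq_monomial, C_apply, monomial_mul, monomial_mul]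
  simp

lemma divisors (a b : Fin 5) (hab : a ≠ b) (m n : ℕ) (c : ℂ) (hc : c ≠ 0) (G H : S5)
    (h : G * H = C c * X a ^ m * X b ^ n) :
    ∃ (p q p'' q'' : ℕ) (e e'' : ℂ), e ≠ 0 ∧ e'' ≠ 0 ∧ G = C e * X a ^ p * X b ^ q ∧
      H = C e'' * X b ^ p'' * X a ^ q'' ∧ p + q'' = m ∧ q + p'' = n := by
  rw [mono_form] at h
  have h1 : G ∣ monomial (Finsupp.single a m + Finsupp.single b n) c := ⟨H, h.symm⟩
  have h2 : H ∣ monomial (Finsupp.single a m + Finsupp.single b n) c :=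
    ⟨G, by rw [← h, mul_comm]⟩
  rw [dvd_monomial_iff_exists hc] at h1 h2
  obtain ⟨v, e, hv, he, rfl⟩ := h1
  obtain ⟨v', e', hv', he', rfl⟩ := h2
  have he0 : e ≠ 0 := by rintro rfl; exact hc (zero_dvd_iff.1 he)
  have he0' : e' ≠ 0 := by rintro rfl; exact hc (zero_dvd_iff.1 he')
  rw [monomial_mul] at h
  have h3 : v + v' = Finsupp.single a m + Finsupp.single b n := by
    rw [monomial_eq_monomial_iff] at h
    rcases h with h | h
    · exact h.1
    · exact absurd h.2 hc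
  refine ⟨v a, v b, v' b, v' a, e, e', he0, he0', exists_form a b hab v m n hv e, ?_, ?_, ?_⟩
  · rw [exists_form a b hab v' m n hv' e']
    ring
  · have := DFunLike.congr_fun h3 a
    simpa [Finsupp.single_apply, hab.symm] using this
  · have := DFunLike.congr_fun h3 b
    simpa [Finsupp.single_apply, hab] using this

lemma res_mX_self (c : Fin 5 → ℂ) (α : Fin 5 → ℕ) (i : Fin 5) (h : 1 ≤ α i) :
    res i (mX c α i) = 0 := by
  simp [res, mX, zero_pow (by omega : α i ≠ 0)]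

lemma res_mX (c : Fin 5 → ℂ) (α : Fin 5 → ℕ) (i j : Fin 5) (h : i ≠ j) :
    res j (mX c α i) = mX c α i := by
  simp [res, mX, h]

lemma mX_ne (c : Fin 5 → ℂ) (α : Fin 5 → ℕ) (i : Fin 5) (h : c i ≠ 0) :
    mX c α i ≠ 0 := by
  unfold mX
  exact mul_ne_zero (by simpa using h) (pow_ne_zero _ (X_ne_zero _))

lemma prod_eq (K : CoreData) (i : Fin 5) :
    res (i + 2) (K.F i) * res (i + 2) (K.F (i - 1)) =
      C (K.c (i + 1) * K.c (i - 2)) * X (i + 1) ^ K.α (i + 1) * X (i - 2) ^ K.α (i - 2) := by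
  have h := congrArg (res (i + 2)) (K.hP (i + 2))
  have e1 : i + 2 - 2 = i := (by decide : ∀ i : Fin 5, i + 2 - 2 = i) i
  have e2 : i + 2 + 2 = i - 1 := (by decide : ∀ i : Fin 5, i + 2 + 2 = i - 1) i
  have e3 : i + 2 - 1 = i + 1 := (by decide : ∀ i : Fin 5, i + 2 - 1 = i + 1) i
  have e4 : i + 2 + 1 = i - 2 := (by decide : ∀ i : Fin 5, i + 2 + 1 = i - 2) i
  have n1 : i + 1 ≠ i + 2 := (by decide : ∀ i : Fin 5, i + 1 ≠ i + 2) i
  have n2 : i - 2 ≠ i + 2 := (by decide : ∀ i : Fin 5, i - 2 ≠ i + 2) i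
  rw [e1, e2, e3, e4] at h
  rw [map_add, map_mul, map_mul, map_mul, res_mX_self _ _ _ (K.hα _), zero_mul, add_zero,
    res_mX _ _ _ _ n1, res_mX _ _ _ _ n2] at h
  rw [h]
  unfold mX
  rw [C_mul]
  ring

end C1aux

open C1aux in
theorem exps (K : CoreData) : Nonempty (Exps K) := by
  have key : ∀ i : Fin 5, ∃ (p q p'' q'' : ℕ) (e e'' : ℂ), e ≠ 0 ∧ e'' ≠ 0 ∧
      res (i + 2) (K.F i) = C e * X (i + 1) ^ p * X (i - 2) ^ q ∧
      res (i + 2) (K.F (i - 1)) = C e'' * X (i - 2) ^ p'' * X (i + 1) ^ q'' ∧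
      p + q'' = K.α (i + 1) ∧ q + p'' = K.α (i - 2) := fun i =>
    divisors (i + 1) (i - 2) ((by decide : ∀ i : Fin 5, i + 1 ≠ i - 2) i) _ _ _ (mul_ne_zero (K.hc _) (K.hc _)) _ _
      (prod_eq K i)
  choose p q p'' q'' e e'' he he'' h1 h2 h3 h4 using key
  have r2 : ∀ i, res (i - 2) (K.F i) =
      C (e'' (i + 1)) * X (i - 1) ^ p'' (i + 1) * X (i + 2) ^ q'' (i + 1) := by
    intro i
    have h := h2 (i + 1)
    have e1 : i + 1 + 2 = i - 2 := (by decide : ∀ i : Fin 5, i + 1 + 2 = i - 2) i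
    have e2 : i + 1 - 1 = i := (by decide : ∀ i : Fin 5, i + 1 - 1 = i) i
    have e3 : i + 1 - 2 = i - 1 := (by decide : ∀ i : Fin 5, i + 1 - 2 = i - 1) i
    have e4 : i + 1 + 1 = i + 2 := (by decide : ∀ i : Fin 5, i + 1 + 1 = i + 2) i
    rw [e1, e2, e3, e4] at h
    exact h
  have mono_ne : ∀ (a b : Fin 5) (m n : ℕ) (c : ℂ), c ≠ 0 →
      (C c * X a ^ m * X b ^ n : S5) ≠ 0 := fun a b m n c hc =>
    mul_ne_zero (mul_ne_zero (by simpa using hc) (pow_ne_zero _ (X_ne_zero _)))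
      (pow_ne_zero _ (X_ne_zero _))
  -- nonvanishing of `res j (F j)` and `res j (F (j-1))`
  have nA : ∀ j, res j (K.F j) * res j (K.F (j - 1)) ≠ 0 := by
    intro j h0
    have h := congrArg (res j) (K.hP (j + 2))
    have e1 : j + 2 - 2 = j := (by decide : ∀ j : Fin 5, j + 2 - 2 = j) j
    have e2 : j + 2 + 2 = j - 1 := (by decide : ∀ j : Fin 5, j + 2 + 2 = j - 1) j
    have e3 : j + 2 - 1 = j + 1 := (by decide : ∀ j : Fin 5, j + 2 - 1 = j + 1) j
    have e4 : j + 2 + 1 = j - 2 := (by decide : ∀ j : Fin 5, j + 2 + 1 = j - 2) j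
    have n0 : j + 2 ≠ j := (by decide : ∀ j : Fin 5, j + 2 ≠ j) j
    have n1 : j + 1 ≠ j := (by decide : ∀ j : Fin 5, j + 1 ≠ j) j
    have n2 : j - 2 ≠ j := (by decide : ∀ j : Fin 5, j - 2 ≠ j) j
    have n3 : j + 1 ≠ j + 2 := (by decide : ∀ j : Fin 5, j + 1 ≠ j + 2) j
    have n4 : j - 2 ≠ j + 2 := (by decide : ∀ j : Fin 5, j - 2 ≠ j + 2) j
    rw [e1, e2, e3, e4] at h
    rw [map_add, map_mul, map_mul, map_mul, h0, zero_add, res_mX _ _ _ _ n0,
      res_mX _ _ _ _ n1, res_mX _ _ _ _ n2] at h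
    have h' := congrArg (res (j + 2)) h
    rw [map_mul, map_mul, res_mX_self _ _ _ (K.hα _), zero_mul, res_mX _ _ _ _ n3,
      res_mX _ _ _ _ n4] at h'
    exact mul_ne_zero (mX_ne _ _ _ (K.hc _)) (mX_ne _ _ _ (K.hc _)) h'.symm
  have ne1 : ∀ j, res j (K.F j) ≠ 0 := fun j => left_ne_zero_of_mul (nA j)
  have ne2 : ∀ j, res j (K.F (j - 1)) ≠ 0 := fun j => right_ne_zero_of_mul (nA j)
  have ne3 : ∀ j, res j (K.F (j - 2)) ≠ 0 := by
    intro j
    have h := h1 (j - 2)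
    have e1 : j - 2 + 2 = j := (by decide : ∀ j : Fin 5, j - 2 + 2 = j) j
    rw [e1] at h
    rw [h]
    exact mono_ne _ _ _ _ _ (he _)
  have ne4 : ∀ j, res j (K.F (j + 2)) ≠ 0 := by
    intro j
    have h := r2 (j + 2)
    have e1 : j + 2 - 2 = j := (by decide : ∀ j : Fin 5, j + 2 - 2 = j) j
    rw [e1] at h
    rw [h]
    exact mono_ne _ _ _ _ _ (he'' _)
  have ne5 : ∀ j, res j (K.F (j + 1)) ≠ 0 := by
    intro j h0
    have h := congrArg (res j) (K.hP (j + 1))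
    have e1 : j + 1 - 2 = j - 1 := (by decide : ∀ j : Fin 5, j + 1 - 2 = j - 1) j
    have e2 : j + 1 + 2 = j - 2 := (by decide : ∀ j : Fin 5, j + 1 + 2 = j - 2) j
    have e3 : j + 1 - 1 = j := (by decide : ∀ j : Fin 5, j + 1 - 1 = j) j
    rw [e1, e2, e3] at h
    rw [map_add, map_mul, map_mul, map_mul, h0, mul_zero, add_zero,
      res_mX_self _ _ _ (K.hα _), zero_mul] at h
    exact mul_ne_zero (ne2 j) (ne3 j) h
  have hne : ∀ i j, res j (K.F i) ≠ 0 := by
    intro i j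
    have hc : i = j ∨ i = j - 1 ∨ i = j - 2 ∨ i = j + 2 ∨ i = j + 1 := by
      revert i j; decide
    rcases hc with rfl | rfl | rfl | rfl | rfl
    · exact ne1 _
    · exact ne2 _
    · exact ne3 _
    · exact ne4 _
    · exact ne5 _
  exact ⟨{
    p := p
    q := q
    p' := fun i => p'' (i + 1)
    q' := fun i => q'' (i + 1)
    e := e
    e' := fun i => e'' (i + 1)
    he := he
    he' := fun i => he'' (i + 1)
    r1 := h1
    r2 := r2
    s1 := fun i => by
      have e1 : i - 1 + 1 = i := (by decide : ∀ i : Fin 5, i - 1 + 1 = i) i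
      show p i + q'' (i - 1 + 1) = _
      rw [e1]
      exact h3 i
    s2 := fun i => by
      have e1 : i - 1 + 1 = i := (by decide : ∀ i : Fin 5, i - 1 + 1 = i) i
      show q i + p'' (i - 1 + 1) = _
      rw [e1]
      exact h4 i
    ne := hne }⟩

end H938TB
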