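import Pool.Agent.H938R2.TB.Base

/-!
# C1b: the degrees of the restrictions of the `F i`
-/

set_option autoImplicit false

open MvPolynomial

namespace H938TB

namespace C1baux

theorem res_monomial (j : Fin 5) (m : Fin 5 →₀ ℕ) (a : ℂ) :
    res j (monomial m a) = if m j = 0 then monomial m a else 0 := by
  unfold res
  rw [aeval_monomial]
  by_cases h : m j = 0
  · rw [if_pos h, monomial_eq, algebraMap_eq]
    congr 1
    apply Finsupp.prod_congr
    intro k hk
    have hkj : k ≠ j := by
      rintro rfl
      exact (Finsupp.mem_support_iff.mp hk) h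
    rw [if_neg hkj]
  · rw [if_neg h]
    have hz : (m.prod fun i k => (if i = j then (0 : S5) else X i) ^ k) = 0 := by
      unfold Finsupp.prod
      refine Finset.prod_eq_zero (Finsupp.mem_support_iff.mpr h) ?_
      change (if j = j then (0 : S5) else X j) ^ (m j) = 0
      rw [if_pos rfl, zero_pow h]
    rw [hz, mul_zero]

theorem coeff_res (j : Fin 5) (F : S5) (u : Fin 5 →₀ ℕ) :
    coeff u (res j F) = if u j = 0 then coeff u F else 0 := by
  induction F using MvPolynomial.induction_on' with
  | monomial m a =>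
    rw [res_monomial]
    by_cases hmu : m = u
    · subst hmu
      by_cases h : m j = 0
      · rw [if_pos h, if_pos h]
      · rw [if_neg h, if_neg h, coeff_zero]
    · by_cases h : m j = 0
      · rw [if_pos h, coeff_monomial, if_neg hmu]
        simp
      · rw [if_neg h, coeff_monomial, if_neg hmu]
        simp
  | add p q hp hq =>
    rw [map_add, coeff_add, hp, hq, coeff_add]
    split_ifs <;> simp

theorem res_hom (ω : Fin 5 → M) (j : Fin 5) (F : S5) (d : M)
    (hF : IsWeightedHomogeneous ω F d) : IsWeightedHomogeneous ω (res j F) d := by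
  intro u hu
  rw [coeff_res] at hu
  split_ifs at hu with h
  · exact hF hu
  · exact absurd rfl hu

theorem deg_mono (ω : Fin 5 → M) (a b : Fin 5) (p q : ℕ) (e : ℂ) (he : e ≠ 0) (d : M)
    (h : IsWeightedHomogeneous ω (C e * X a ^ p * X b ^ q) d) :
    (p : ℤ) • ω a + (q : ℤ) • ω b = d := by
  have hm : (C e * X a ^ p * X b ^ q : S5)
      = monomial (Finsupp.single a p + Finsupp.single b q) e := by
    rw [X_pow_eq_monomial, X_pow_eq_monomial, C_mul_monomial, monomial_mul, mul_one, mul_one]
  rw [hm] at h
  have h2 := h (d := Finsupp.single a p + Finsupp.single b q) (by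
    rw [coeff_monomial, if_pos rfl]; exact he)
  rw [map_add, Finsupp.weight_single, Finsupp.weight_single] at h2
  rw [natCast_zsmul, natCast_zsmul]
  exact h2

end C1baux

open C1baux in
theorem degs (K : CoreData) (E : Exps K) :
    (∀ i, (E.p i : ℤ) • K.ω (i + 1) + (E.q i : ℤ) • K.ω (i - 2) = phi K.ω K.α i) ∧
    (∀ i, (E.p' i : ℤ) • K.ω (i - 1) + (E.q' i : ℤ) • K.ω (i + 2) = phi K.ω K.α i) := by
  constructor
  · intro i
    have h := res_hom K.ω (i + 2) (K.F i) _ (K.hF i)
    rw [E.r1 i] at h
    exact deg_mono K.ω _ _ _ _ _ (E.he i) _ h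
  · intro i
    have h := res_hom K.ω (i - 2) (K.F i) _ (K.hF i)
    rw [E.r2 i] at h
    exact deg_mono K.ω _ _ _ _ _ (E.he' i) _ h

end H938TB
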