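import Pool.Agent.H938R2.TB.Base

/-!
# Task C2: the numbers `u i` (helper8)
-/

set_option autoImplicit false

open MvPolynomial

namespace H938TB

namespace C2aux

/-- the rational coordinates -/
def co : Fin 3 → (M →+ ℚ)
  | 0 => (Int.castAddHom ℚ).comp (AddMonoidHom.fst ℤ (ℤ × ℤ))
  | 1 => (Int.castAddHom ℚ).comp ((AddMonoidHom.fst ℤ ℤ).comp (AddMonoidHom.snd ℤ (ℤ × ℤ)))
  | 2 => (Int.castAddHom ℚ).comp ((AddMonoidHom.snd ℤ ℤ).comp (AddMonoidHom.snd ℤ (ℤ × ℤ)))

lemma co_inj {m : M} (h : ∀ t, co t m = 0) : m = 0 := by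
  have h0 := h 0
  have h1 := h 1
  have h2 := h 2
  simp only [co, AddMonoidHom.coe_comp, Function.comp_apply, AddMonoidHom.coe_fst,
    AddMonoidHom.coe_snd, Int.coe_castAddHom, Int.cast_eq_zero] at h0 h1 h2
  exact Prod.ext h0 (Prod.ext h1 h2)

lemma indQ (N : Num) {i j k : Fin 5} (hij : i ≠ j) (hjk : j ≠ k) (hik : i ≠ k) (a b d : ℚ)
    (h : ∀ t, a * co t (N.ω i) + b * co t (N.ω j) + d * co t (N.ω k) = 0) :
    a = 0 ∧ b = 0 ∧ d = 0 := by
  have ha : (a.den : ℚ) ≠ 0 := Nat.cast_ne_zero.2 a.den_nz
  have hb : (b.den : ℚ) ≠ 0 := Nat.cast_ne_zero.2 b.den_nz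
  have hd : (d.den : ℚ) ≠ 0 := Nat.cast_ne_zero.2 d.den_nz
  have ea : (a.num : ℚ) = a * a.den := by
    rw [Rat.mul_den_eq_num]
  have eb : (b.num : ℚ) = b * b.den := by
    rw [Rat.mul_den_eq_num]
  have ed : (d.num : ℚ) = d * d.den := by
    rw [Rat.mul_den_eq_num]
  have key : (a.num * (b.den * d.den) : ℤ) • N.ω i + (b.num * (a.den * d.den) : ℤ) • N.ω j +
      (d.num * (a.den * b.den) : ℤ) • N.ω k = 0 := by
    apply co_inj
    intro t
    rw [map_add, map_add, map_zsmul, map_zsmul, map_zsmul, zsmul_eq_mul, zsmul_eq_mul,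
      zsmul_eq_mul]
    push_cast
    rw [ea, eb, ed]
    linear_combination ((a.den : ℚ) * b.den * d.den) * h t
  obtain ⟨k1, k2, k3⟩ := N.hind i j k hij hjk hik _ _ _ key
  have z1 : (b.den : ℤ) ≠ 0 := Int.natCast_ne_zero.2 b.den_nz
  have z2 : (a.den : ℤ) ≠ 0 := Int.natCast_ne_zero.2 a.den_nz
  have z3 : (d.den : ℤ) ≠ 0 := Int.natCast_ne_zero.2 d.den_nz
  refine ⟨?_, ?_, ?_⟩
  · rcases mul_eq_zero.1 k1 with h | h
    · exact Rat.num_eq_zero.1 h
    · exact absurd h (mul_ne_zero z1 z3)
  · rcases mul_eq_zero.1 k2 with h | h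
    · exact Rat.num_eq_zero.1 h
    · exact absurd h (mul_ne_zero z2 z3)
  · rcases mul_eq_zero.1 k3 with h | h
    · exact Rat.num_eq_zero.1 h
    · exact absurd h (mul_ne_zero z2 z1)

/-- the coordinates of `W i` -/
def w (N : Num) (t : Fin 3) (i : Fin 5) : ℚ := N.α i * co t (N.ω i)

lemma al (N : Num) (i : Fin 5) : (N.α i : ℚ) ≠ 0 :=
  Nat.cast_ne_zero.2 (by have := N.hα i; omega)

lemma indW (N : Num) {i j k : Fin 5} (hij : i ≠ j) (hjk : j ≠ k) (hik : i ≠ k) (a b d : ℚ)
    (h : ∀ t, a * w N t i + b * w N t j + d * w N t k = 0) :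
    a = 0 ∧ b = 0 ∧ d = 0 := by
  obtain ⟨h1, h2, h3⟩ := indQ N hij hjk hik (a * N.α i) (b * N.α j) (d * N.α k) (fun t => by
    have := h t
    simp only [w] at this
    linear_combination this)
  exact ⟨(mul_eq_zero.1 h1).resolve_right (al N i), (mul_eq_zero.1 h2).resolve_right (al N j),
    (mul_eq_zero.1 h3).resolve_right (al N k)⟩

/-- `u i` -/
def u (N : Num) (i : Fin 5) : ℚ := N.q i / N.α (i - 2)

/-- `u' i` -/
def u' (N : Num) (i : Fin 5) : ℚ := N.q' i / N.α (i + 2)

lemma rel (N : Num) (t : Fin 3) (i : Fin 5) :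
    w N t i + u N i * w N t (i - 2) = w N t (i - 1) + u' N (i - 1) * w N t (i + 1) := by
  have h := congrArg (co t) (N.d1 i)
  simp only [phi, WW, map_add, map_sub, map_zsmul] at h
  simp only [zsmul_eq_mul] at h
  push_cast at h
  have hs : (N.p i : ℚ) = N.α (i + 1) - N.q' (i - 1) := by
    have := congrArg (fun n : ℕ => (n : ℚ)) (N.s1 i)
    push_cast at this
    linear_combination this
  have e : i - 1 + 2 = i + 1 := by clear * -; revert i; decide
  have h1 : u N i * w N t (i - 2) = N.q i * co t (N.ω (i - 2)) := by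
    have := al N (i - 2)
    simp only [u, w]
    field_simp
  have h2 : u' N (i - 1) * w N t (i + 1) = N.q' (i - 1) * co t (N.ω (i + 1)) := by
    have := al N (i + 1)
    simp only [u', w, e]
    field_simp
  rw [h1, h2]
  rw [hs] at h
  simp only [w]
  linear_combination h

lemma rel2 (N : Num) (t : Fin 3) (i : Fin 5) :
    w N t (i - 2) + u N (i - 2) * w N t (i + 1) =
      w N t (i + 2) + u' N (i + 2) * w N t (i - 1) := by
  have h := rel N t (i - 2)
  have e1 : i - 2 - 2 = i + 1 := by clear * -; revert i; decide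
  have e2 : i - 2 - 1 = i + 2 := by clear * -; revert i; decide
  have e3 : i - 2 + 1 = i - 1 := by clear * -; revert i; decide
  rw [e1, e2, e3] at h
  exact h

lemma three (N : Num) (i : Fin 5) :
    -(1 - u N (i + 1)) + u N i * u' N (i + 2) = 0 ∧
    (1 - u' N (i - 1)) - u N i * u N (i - 2) = 0 ∧ u N i - u' N i = 0 := by
  have hne1 : i - 1 ≠ i + 1 := by clear * -; revert i; decide
  have hne2 : i + 1 ≠ i + 2 := by clear * -; revert i; decide
  have hne3 : i - 1 ≠ i + 2 := by clear * -; revert i; decide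
  refine indW N hne1 hne2 hne3 _ _ _ (fun t => ?_)
  have h1 := rel N t i
  have h2 := rel N t (i + 1)
  have h3 := rel2 N t i
  have e1 : i + 1 - 2 = i - 1 := by clear * -; revert i; decide
  have e2 : i + 1 - 1 = i := by clear * -; revert i; decide
  have e3 : i + 1 + 1 = i + 2 := by clear * -; revert i; decide
  rw [e1, e2, e3] at h2
  linear_combination h1 + h2 - u N i * h3

lemma uu' (N : Num) (i : Fin 5) : u' N i = u N i := by
  linear_combination -(three N i).2.2

lemma urel (N : Num) (i : Fin 5) : u N i + u N (i - 1) * u N (i + 1) = 1 := by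
  have h := (three N (i - 1)).1
  have e1 : i - 1 + 1 = i := by clear * -; revert i; decide
  have e2 : i - 1 + 2 = i + 1 := by clear * -; revert i; decide
  rw [e1, e2, uu'] at h
  linear_combination h

lemma upos (N : Num) (i : Fin 5) : 0 < u N i := by
  have h0 : 0 ≤ u N i := by
    unfold u
    positivity
  refine lt_of_le_of_ne h0 (fun h => ?_)
  have hne1 : i ≠ i - 1 := by clear * -; revert i; decide
  have hne2 : i - 1 ≠ i + 1 := by clear * -; revert i; decide
  have hne3 : i ≠ i + 1 := by clear * -; revert i; decide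
  have := (indW N hne1 hne2 hne3 1 (-1) (-(u' N (i - 1))) (fun t => by
    have h1 := rel N t i
    rw [← h] at h1
    linear_combination h1)).1
  exact one_ne_zero this

end C2aux

open C2aux in
/-- C2 -/
theorem uu (N : Num) : Nonempty (UU N) := by
  refine ⟨⟨u N, upos N, fun i => ?_, urel N, fun i => ?_, fun i => ?_, fun i => ?_, fun i => ?_,
    fun x hx i => ?_⟩⟩
  · have h := urel N i
    have := mul_pos (upos N (i - 1)) (upos N (i + 1))
    linarith
  · have := al N (i - 2)
    simp only [u]
    field_simp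
  · have := al N (i + 2)
    rw [← uu']
    simp only [u']
    field_simp
  · have hs : (N.p i : ℚ) = N.α (i + 1) - N.q' (i - 1) := by
      have := congrArg (fun n : ℕ => (n : ℚ)) (N.s1 i)
      push_cast at this
      linear_combination this
    have e : i - 1 + 2 = i + 1 := by clear * -; revert i; decide
    have := al N (i + 1)
    rw [hs, ← uu']
    simp only [u', e]
    field_simp
  · have e1 : i + 1 - 1 = i := by clear * -; revert i; decide
    have e2 : i + 1 - 2 = i - 1 := by clear * -; revert i; decide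
    have hs : (N.p' i : ℚ) = N.α (i - 1) - N.q (i + 1) := by
      have := congrArg (fun n : ℕ => (n : ℚ)) (N.s2 (i + 1))
      push_cast at this
      rw [e1, e2] at this
      linear_combination this
    have := al N (i - 1)
    rw [hs]
    simp only [u, e2]
    field_simp
  · set y : Fin 5 → ℚ := fun j => (x j : ℚ) / N.α j with hy
    have hyw : ∀ t j, (x j : ℚ) * co t (N.ω j) = y j * w N t j := by
      intro t j
      have := al N j
      simp only [hy, w]
      field_simp
    have hsum : ∀ t, y i * w N t i + y (i + 1) * w N t (i + 1) + y (i + 2) * w N t (i + 2) +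
        y (i - 2) * w N t (i - 2) + y (i - 1) * w N t (i - 1) = 0 := by
      intro t
      have h := congrArg (co t) hx
      rw [map_sum, map_zero] at h
      simp only [map_zsmul] at h
      simp only [zsmul_eq_mul, hyw] at h
      rw [Fin.sum_univ_five] at h
      rw [← h]
      revert h
      generalize w N t = w'
      intro _
      have : ∀ (f : Fin 5 → ℚ) (i : Fin 5), f i + f (i + 1) + f (i + 2) + f (i - 2) + f (i - 1) =
          f 0 + f 1 + f 2 + f 3 + f 4 := by
        intro f i
        fin_cases i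
        · change f 0 + f 1 + f 2 + f 3 + f 4 = _
          rfl
        · change f 1 + f 2 + f 3 + f 4 + f 0 = _
          ring
        · change f 2 + f 3 + f 4 + f 0 + f 1 = _
          ring
        · change f 3 + f 4 + f 0 + f 1 + f 2 = _
          ring
        · change f 4 + f 0 + f 1 + f 2 + f 3 = _
          ring
      exact this (fun j => y j * w' j) i
    have hne1 : i - 1 ≠ i + 1 := by clear * -; revert i; decide
    have hne2 : i + 1 ≠ i + 2 := by clear * -; revert i; decide
    have hne3 : i - 1 ≠ i + 2 := by clear * -; revert i; decide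
    have h3 := (indW N hne1 hne2 hne3 (y (i - 1) + y i + (y (i - 2) - u N i * y i) * u N (i + 2))
      (y (i + 1) + y i * u N (i - 1) - (y (i - 2) - u N i * y i) * u N (i - 2))
      (y (i + 2) + (y (i - 2) - u N i * y i)) (fun t => by
        have h1 := rel N t i
        have h2 := rel2 N t i
        rw [uu'] at h1 h2
        linear_combination hsum t - y i * h1 - (y (i - 2) - u N i * y i) * h2)).2.2
    change y (i - 2) + y (i + 2) = u N i * y i
    linear_combination h3

end H938TB
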