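import Pool.Agent.H938R2.TB.Defs

set_option autoImplicit false

open MvPolynomial

namespace H938TB

namespace T1aux

section

variable {G : Type*} [AddCommGroup G] [LinearOrder G] [IsOrderedAddMonoid G]

theorem top {σ : Type*} (ω : σ → G) {f g : MvPolynomial σ ℂ} {τ : G}
    (h : IsWeightedHomogeneous ω (f * g) τ) (hne : f * g ≠ 0) :
    ∃ a b, a + b = τ ∧ (∀ d, coeff d f ≠ 0 → Finsupp.weight ω d ≤ a) ∧
      (∀ d, coeff d g ≠ 0 → Finsupp.weight ω d ≤ b) := by
  classical
  have hf0 : f ≠ 0 := left_ne_zero_of_mul hne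
  have hg0 : g ≠ 0 := right_ne_zero_of_mul hne
  have key : ∀ f : MvPolynomial σ ℂ, f ≠ 0 → ∃ d, coeff d f ≠ 0 ∧
      ∀ d', coeff d' f ≠ 0 → Finsupp.weight ω d' ≤ Finsupp.weight ω d := by
    intro f hf
    obtain ⟨d, hd, hmax⟩ := f.support.exists_max_image (fun d => Finsupp.weight ω d)
      (Finset.nonempty_iff_ne_empty.2 (fun h0 => hf (support_eq_empty.1 h0)))
    exact ⟨d, mem_support_iff.1 hd, fun d' hd' => hmax d' (mem_support_iff.2 hd')⟩
  obtain ⟨df, hdf, hmf⟩ := key f hf0
  obtain ⟨dg, hdg, hmg⟩ := key g hg0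
  refine ⟨Finsupp.weight ω df, Finsupp.weight ω dg, ?_, hmf, hmg⟩
  set a := Finsupp.weight ω df with ha
  set b := Finsupp.weight ω dg with hb
  have hfa : weightedHomogeneousComponent ω a f ≠ 0 := by
    intro h0
    have := congrArg (coeff df) h0
    rw [coeff_weightedHomogeneousComponent, if_pos rfl, coeff_zero] at this
    exact hdf this
  have hgb : weightedHomogeneousComponent ω b g ≠ 0 := by
    intro h0
    have := congrArg (coeff dg) h0
    rw [coeff_weightedHomogeneousComponent, if_pos rfl, coeff_zero] at this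
    exact hdg this
  have hprod := mul_ne_zero hfa hgb
  obtain ⟨d, hd⟩ := Finset.nonempty_iff_ne_empty.2 (fun h0 => hprod (support_eq_empty.1 h0))
  rw [mem_support_iff] at hd
  have hwd : Finsupp.weight ω d = a + b :=
    ((weightedHomogeneousComponent_isWeightedHomogeneous (w := ω) a f).mul
      (weightedHomogeneousComponent_isWeightedHomogeneous (w := ω) b g)) hd
  have hco : coeff d (f * g) =
      coeff d (weightedHomogeneousComponent ω a f * weightedHomogeneousComponent ω b g) := by
    rw [coeff_mul, coeff_mul]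
    apply Finset.sum_congr rfl
    intro x hx
    rw [Finset.HasAntidiagonal.mem_antidiagonal] at hx
    rw [coeff_weightedHomogeneousComponent, coeff_weightedHomogeneousComponent]
    by_cases h1 : coeff x.1 f = 0
    · rw [h1, ite_self, zero_mul, zero_mul]
    by_cases h2 : coeff x.2 g = 0
    · rw [h2, ite_self, mul_zero, mul_zero]
    have w1 := hmf _ h1
    have w2 := hmg _ h2
    have w3 : Finsupp.weight ω x.1 + Finsupp.weight ω x.2 = a + b := by
      rw [← map_add, hx, hwd]
    have w4 : Finsupp.weight ω x.1 = a := by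
      apply le_antisymm w1
      by_contra hno
      have := add_lt_add_of_lt_of_le (not_le.1 hno) w2
      rw [w3] at this
      exact lt_irrefl _ this
    have w5 : Finsupp.weight ω x.2 = b := by
      rw [w4] at w3
      exact add_left_cancel w3
    rw [if_pos w4, if_pos w5]
  have := h (by rw [hco]; exact hd : coeff d (f * g) ≠ 0)
  rw [← this, hwd]

omit [LinearOrder G] [IsOrderedAddMonoid G] in
theorem weight_map {σ H : Type*} [AddCommGroup H] (e : G →+ H) (ω : σ → G) (d : σ →₀ ℕ) :
    Finsupp.weight (fun i => e (ω i)) d = e (Finsupp.weight ω d) := by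
  rw [Finsupp.weight_apply, Finsupp.weight_apply, map_finsuppSum]
  simp only [map_nsmul]

theorem hom {σ : Type*} (ω : σ → G) {f g : MvPolynomial σ ℂ} {τ : G}
    (h : IsWeightedHomogeneous ω (f * g) τ) (hne : f * g ≠ 0) :
    ∃ a b, a + b = τ ∧ IsWeightedHomogeneous ω f a ∧ IsWeightedHomogeneous ω g b := by
  obtain ⟨a, b, hab, hf, hg⟩ := top ω h hne
  have hneg : ∀ d, Finsupp.weight (fun i => - ω i) d = - Finsupp.weight ω d := fun d =>
    weight_map (negAddMonoidHom : G →+ G) ω d
  have h' : IsWeightedHomogeneous (fun i => - ω i) (f * g) (-τ) := by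
    intro d hd
    rw [hneg, h hd]
  obtain ⟨a', b', hab', hf', hg'⟩ := top (fun i => - ω i) h' hne
  have hf0 : f ≠ 0 := left_ne_zero_of_mul hne
  have hg0 : g ≠ 0 := right_ne_zero_of_mul hne
  obtain ⟨df, hdf⟩ := Finset.nonempty_iff_ne_empty.2 (fun h0 => hf0 (support_eq_empty.1 h0))
  obtain ⟨dg, hdg⟩ := Finset.nonempty_iff_ne_empty.2 (fun h0 => hg0 (support_eq_empty.1 h0))
  rw [mem_support_iff] at hdf hdg
  have e1 : -a' ≤ a := by
    have := hf' df hdf
    rw [hneg] at this
    exact (neg_le.1 this).trans (hf df hdf)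
  have e2 : -b' ≤ b := by
    have := hg' dg hdg
    rw [hneg] at this
    exact (neg_le.1 this).trans (hg dg hdg)
  have e3 : -a' + -b' = a + b := by
    rw [hab, ← neg_add, hab', neg_neg]
  have e4 : -a' = a := by
    apply le_antisymm e1
    by_contra hno
    have := add_lt_add_of_lt_of_le (not_le.1 hno) e2
    rw [e3] at this
    exact lt_irrefl _ this
  have e5 : -b' = b := by
    rw [e4] at e3
    exact add_left_cancel e3
  refine ⟨a, b, hab, ?_, ?_⟩
  · intro d hd
    apply le_antisymm (hf d hd)
    have := hf' d hd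
    rw [hneg] at this
    rw [← e4]
    exact neg_le.1 this
  · intro d hd
    apply le_antisymm (hg d hd)
    have := hg' d hd
    rw [hneg] at this
    rw [← e5]
    exact neg_le.1 this

end

/-- the degree group with the lexicographic order -/
def toL : M ≃+ (ℤ ×ₗ (ℤ ×ₗ ℤ)) where
  toFun x := toLex (x.1, toLex x.2)
  invFun x := ((ofLex x).1, ofLex (ofLex x).2)
  left_inv _ := rfl
  right_inv _ := rfl
  map_add' _ _ := rfl

end T1aux

open T1aux in
/-- factors of homogeneous polynomials are homogeneous (degrees in the torsion-free group `M`). -/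
theorem hom_of_mul {σ : Type*} [Finite σ] (ω : σ → M) {f g : MvPolynomial σ ℂ} {τ : M}
    (h : IsWeightedHomogeneous ω (f * g) τ) (hne : f * g ≠ 0) :
    ∃ a b, a + b = τ ∧ IsWeightedHomogeneous ω f a ∧ IsWeightedHomogeneous ω g b := by
  have hw : ∀ d : σ →₀ ℕ, Finsupp.weight (fun i => toL (ω i)) d = toL (Finsupp.weight ω d) :=
    fun d => weight_map toL.toAddMonoidHom ω d
  have h' : IsWeightedHomogeneous (fun i => toL (ω i)) (f * g) (toL τ) := by
    intro d hd
    rw [hw, h hd]
  obtain ⟨a, b, hab, hf, hg⟩ := T1aux.hom (fun i => toL (ω i)) h' hne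
  refine ⟨toL.symm a, toL.symm b, ?_, ?_, ?_⟩
  · rw [← map_add, hab, AddEquiv.symm_apply_apply]
  · intro d hd
    have := hf hd
    rw [hw] at this
    rw [← this, AddEquiv.symm_apply_apply]
  · intro d hd
    have := hg hd
    rw [hw] at this
    rw [← this, AddEquiv.symm_apply_apply]

end H938TB
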