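import Pool.Agent.H938R2.TB.Base
import Pool.Agent.H938R2.TB.T1

set_option autoImplicit false

open MvPolynomial

namespace H938TB

namespace C3aux

theorem ix1 (i : Fin 5) : i - 2 - 1 = i + 2 := by revert i; decide
theorem ix2 (i : Fin 5) : i + 2 + 1 = i - 2 := by revert i; decide
theorem ix3 (i : Fin 5) : i - 2 + 1 = i - 1 := by revert i; decide
theorem ix4 (i : Fin 5) : i + 2 - 1 = i + 1 := by revert i; decide
theorem ix5 (i : Fin 5) : i - 2 + 2 = i := by revert i; decide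
theorem ix6 (i : Fin 5) : i + 2 - 2 = i := by revert i; decide

theorem th_mul (a : Fin 5) (p q : S5) : th a (p * q) = th a p * q + p * th a q := by
  unfold th
  rw [pderiv_mul]
  ring

theorem th_add (a : Fin 5) (p q : S5) : th a (p + q) = th a p + th a q := by
  unfold th
  rw [map_add, mul_add]

theorem th_C (a : Fin 5) (t : ℂ) : th a (C t) = 0 := by
  unfold th
  rw [pderiv_C, mul_zero]

theorem th_X (a k : Fin 5) : th a (X k) = (if k = a then 1 else 0) * X k := by
  unfold th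
  by_cases h : k = a
  · subst h
    rw [pderiv_X_self, if_pos rfl, mul_one, one_mul]
  · rw [pderiv_X_of_ne h, if_neg h, mul_zero, zero_mul]

theorem th_X_pow (a k : Fin 5) (n : ℕ) :
    th a (X k ^ n) = C (if k = a then (n : ℂ) else 0) * X k ^ n := by
  induction n with
  | zero =>
    rw [pow_zero, mul_one]
    have := th_C a 1
    rw [C_1] at this
    rw [this]
    simp
  | succ n ih =>
    rw [pow_succ, th_mul, ih, th_X]
    by_cases h : k = a
    · simp only [if_pos h]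
      push_cast
      rw [C_add, C_1]
      ring
    · simp only [if_neg h, C_0]
      ring

/-- restriction and the derivation commute. -/
theorem res_th (j a : Fin 5) (p : S5) : res j (th a p) = th a (res j p) := by
  induction p using MvPolynomial.induction_on with
  | C t =>
    rw [th_C, map_zero]
    have : res j (C t) = C t := by
      unfold res
      rw [aeval_C]
      rfl
    rw [this, th_C]
  | add p q hp hq => rw [th_add, map_add, map_add, th_add, hp, hq]
  | mul_X p k hp =>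
    rw [th_mul, map_add, map_mul, map_mul, hp, map_mul, th_mul]
    have : res j (th a (X k)) = th a (res j (X k)) := by
      have e : res j (X k) = if k = j then 0 else X k := by
        unfold res
        rw [aeval_X]
      rw [th_X, map_mul, e]
      by_cases hk : k = j
      · rw [if_pos hk, mul_zero]
        have h0 := th_C a 0
        rw [C_0] at h0
        rw [h0]
      · rw [if_neg hk, th_X]
        congr 1
        split_ifs
        · exact map_one _
        · exact map_zero _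
    rw [this]

/-- the derivation in the direction of the restricted variable. -/
theorem res_th_self (j : Fin 5) (p : S5) : res j (th j p) = 0 := by
  unfold th
  rw [map_mul]
  have : res j (X j) = 0 := by
    unfold res
    rw [aeval_X, if_pos rfl]
  rw [this, zero_mul]

theorem res_C (j : Fin 5) (t : ℂ) : res j (C t) = C t := by
  unfold res
  rw [aeval_C]
  rfl

variable (K : CoreData)

/-- the exponent of `x_a` in `X_i`. -/
noncomputable def sx (i a : Fin 5) : ℂ := if i = a then (K.α i : ℂ) else 0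

theorem th_mX (i a : Fin 5) : th a (mX K.c K.α i) = C (sx K i a) * mX K.c K.α i := by
  unfold mX sx
  rw [th_mul, th_C, th_X_pow]
  ring

noncomputable def kk (i a : Fin 5) : ℂ := sx K i a - sx K (i - 1) a - sx K (i + 1) a

noncomputable def Gx (i a : Fin 5) : S5 := th a (K.F i) + C (kk K i a) * K.F i

noncomputable def Tx (i : Fin 5) : S5 :=
  Gx K (i - 2) 2 * Gx K (i + 2) 3 - Gx K (i - 2) 3 * Gx K (i + 2) 2

noncomputable def Qx (i : Fin 5) : S5 :=
  Gx K i 2 * Gx K (i + 2) 3 - Gx K i 3 * Gx K (i + 2) 2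

theorem eq1 (i a : Fin 5) :
    K.F (i + 2) * Gx K (i - 2) a + K.F (i - 2) * Gx K (i + 2) a + mX K.c K.α i * Gx K i a = 0 := by
  have h := congrArg (th a) (K.hP i)
  rw [th_add, th_mul, th_mul, th_mul, th_mX, th_mX, th_mX] at h
  have hP := K.hP i
  have i1 := ix1 i
  have i2 := ix2 i
  have i3 := ix3 i
  have i4 := ix4 i
  unfold Gx kk
  rw [i1, i2, i3, i4]
  simp only [C_sub]
  linear_combination h - (C (sx K (i - 1) a) + C (sx K (i + 1) a)) * hP

theorem eqT (i : Fin 5) : K.F (i + 2) * Tx K i + mX K.c K.α i * Qx K i = 0 := by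
  have h2 := eq1 K i 2
  have h3 := eq1 K i 3
  unfold Tx Qx
  linear_combination Gx K (i + 2) 3 * h2 - Gx K (i + 2) 2 * h3

theorem eqT' (i : Fin 5) : K.F (i - 2) * Tx K i + mX K.c K.α i * Qx K (i - 2) = 0 := by
  have h2 := eq1 K i 2
  have h3 := eq1 K i 3
  have i1 := ix5 i
  unfold Tx Qx
  rw [i1]
  linear_combination (-Gx K (i - 2) 3) * h2 + Gx K (i - 2) 2 * h3

theorem mX_ne (i : Fin 5) : mX K.c K.α i ≠ 0 := by
  unfold mX
  exact mul_ne_zero (by rw [Ne, C_eq_zero]; exact K.hc i) (pow_ne_zero _ (X_ne_zero i))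

theorem prime_X (i : Fin 5) : Prime (X i : S5) := by
  exact MvPolynomial.X_prime

theorem not_dvd_F (E : Exps K) (j i : Fin 5) : ¬ (X j : S5) ∣ K.F i := by
  rintro ⟨g, hg⟩
  apply E.ne i j
  rw [hg, map_mul]
  have : res j (X j) = 0 := by
    unfold res
    rw [aeval_X, if_pos rfl]
  rw [this, zero_mul]

theorem F_ne (E : Exps K) (i : Fin 5) : K.F i ≠ 0 := by
  intro h
  apply E.ne i 0
  rw [h, map_zero]

/-- a common prime factor of `X_a X_b` and `F_j` is impossible. -/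
theorem no_div (E : Exps K) {π : S5} (hπ : Prime π) {a b j : Fin 5}
    (h : π ∣ mX K.c K.α a * mX K.c K.α b) (hF : π ∣ K.F j) : False := by
  have key : ∀ a : Fin 5, π ∣ mX K.c K.α a → False := by
    intro a ha
    unfold mX at ha
    rcases hπ.dvd_or_dvd ha with h1 | h1
    · apply hπ.not_isUnit
      refine isUnit_of_dvd_unit h1 ?_
      exact (isUnit_iff_ne_zero.2 (K.hc a)).map C
    · have h2 := hπ.dvd_of_dvd_pow h1
      have h3 : Associated π (X a) := hπ.associated_of_dvd (prime_X a) h2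
      exact not_dvd_F K E a j (h3.symm.dvd.trans hF)
  rcases hπ.dvd_or_dvd h with h1 | h1
  · exact key a h1
  · exact key b h1

theorem exists_T' (E : Exps K) (i : Fin 5) : ∃ t : S5, Tx K i = -(mX K.c K.α i * t) ∧
    Qx K i = K.F (i + 2) * t ∧ Qx K (i - 2) = K.F (i - 2) * t := by
  have h1 : (X i : S5) ^ K.α i ∣ K.F (i + 2) * Tx K i := by
    refine ⟨-(C (K.c i) * Qx K i), ?_⟩
    have := eqT K i
    unfold mX at this
    linear_combination this
  have h2 := (prime_X i).pow_dvd_of_dvd_mul_left (K.α i) (not_dvd_F K E i (i + 2)) h1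
  obtain ⟨t, ht⟩ := h2
  have hcc : (C (K.c i) : S5) * C (K.c i)⁻¹ = 1 := by
    rw [← C_mul, mul_inv_cancel₀ (K.hc i), C_1]
  have hT : Tx K i = -(mX K.c K.α i * (-(C (K.c i)⁻¹ * t))) := by
    unfold mX
    rw [ht]
    linear_combination (-(X i ^ K.α i * t)) * hcc
  refine ⟨-(C (K.c i)⁻¹ * t), hT, ?_, ?_⟩
  · have h3 := eqT K i
    rw [hT] at h3
    have h4 : mX K.c K.α i * (Qx K i - K.F (i + 2) * (-(C (K.c i)⁻¹ * t))) = 0 := by
      linear_combination h3
    rcases mul_eq_zero.1 h4 with h | h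
    · exact absurd h (mX_ne K i)
    · exact sub_eq_zero.1 h
  · have h3 := eqT' K i
    rw [hT] at h3
    have h4 : mX K.c K.α i * (Qx K (i - 2) - K.F (i - 2) * (-(C (K.c i)⁻¹ * t))) = 0 := by
      linear_combination h3
    rcases mul_eq_zero.1 h4 with h | h
    · exact absurd h (mX_ne K i)
    · exact sub_eq_zero.1 h

theorem relprime (E : Exps K) (i : Fin 5) : IsRelPrime (K.F i) (K.F (i + 2)) := by
  intro d h1 h2
  by_contra hu
  have hd : d ≠ 0 := by
    rintro rfl
    exact F_ne K E i (zero_dvd_iff.1 h1)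
  obtain ⟨π, hπ, hπd⟩ := WfDvdMonoid.exists_irreducible_factor hu hd
  have hP : π ∣ mX K.c K.α (i - 1) * mX K.c K.α (i + 1) := by
    rw [← K.hP i]
    exact dvd_add (Dvd.dvd.mul_left (hπd.trans h2) _) (Dvd.dvd.mul_left (hπd.trans h1) _)
  exact no_div K E hπ.prime hP (hπd.trans h1)

/-- the common factor `h`. -/
theorem exists_H (E : Exps K) : ∃ H : S5, (∀ i, Tx K i = -(mX K.c K.α i * (K.F i * H))) ∧
    ∀ i, Qx K i = K.F (i + 2) * (K.F i * H) := by
  choose T' hT hQ hQ' using exists_T' K E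
  have h1 : ∀ i, K.F (i + 2) * T' i = K.F i * T' (i + 2) := by
    intro i
    have h := hQ' (i + 2)
    have e := ix6 i
    rw [e] at h
    rw [← hQ i, h]
  have h2 : ∀ i, ∃ t, T' i = K.F i * t := by
    intro i
    have h3 : K.F i ∣ K.F (i + 2) * T' i := ⟨T' (i + 2), h1 i⟩
    exact (relprime K E i).dvd_of_dvd_mul_left h3
  choose h hh using h2
  have h3 : ∀ i, h i = h (i + 2) := by
    intro i
    have h4 := h1 i
    rw [hh i, hh (i + 2)] at h4
    have h5 : (K.F (i + 2) * K.F i) * (h i - h (i + 2)) = 0 := by linear_combination h4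
    rcases mul_eq_zero.1 h5 with h6 | h6
    · exact absurd h6 (mul_ne_zero (F_ne K E _) (F_ne K E _))
    · exact sub_eq_zero.1 h6
  have h4 : ∀ i, h i = h 0 := by
    have e0 : h 0 = h 2 := h3 0
    have e2 : h 2 = h 4 := h3 2
    have e4 : h 4 = h 1 := h3 4
    have e1 : h 1 = h 3 := h3 1
    intro i
    fin_cases i
    · rfl
    · exact (e0.trans (e2.trans e4)).symm
    · exact e0.symm
    · exact (e0.trans (e2.trans (e4.trans e1))).symm
    · exact (e0.trans e2).symm
  refine ⟨h 0, fun i => ?_, fun i => ?_⟩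
  · rw [hT i, hh i, h4 i]
  · rw [hQ i, hh i, h4 i]

theorem hom_th {ω : Fin 5 → M} {p : S5} {τ : M} (h : IsWeightedHomogeneous ω p τ) (a : Fin 5) :
    IsWeightedHomogeneous ω (th a p) τ := by
  unfold th
  have h1 : IsWeightedHomogeneous ω (pderiv a p) (τ - ω a) :=
    IsWeightedHomogeneous.pderiv h (by abel)
  have h2 := (isWeightedHomogeneous_X ℂ ω a).mul h1
  have e : ω a + (τ - ω a) = τ := by abel
  rw [e] at h2
  exact h2

theorem hom_G (i a : Fin 5) : IsWeightedHomogeneous K.ω (Gx K i a) (phi K.ω K.α i) := by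
  unfold Gx
  refine (hom_th (K.hF i) a).add ?_
  have := (isWeightedHomogeneous_C K.ω (kk K i a)).mul (K.hF i)
  rw [zero_add] at this
  exact this

theorem hom_T (i : Fin 5) :
    IsWeightedHomogeneous K.ω (Tx K i) (phi K.ω K.α (i - 2) + phi K.ω K.α (i + 2)) := by
  unfold Tx
  rw [sub_eq_add_neg]
  refine ((hom_G K _ _).mul (hom_G K _ _)).add ?_
  have h := (hom_G K (i - 2) 3).mul (hom_G K (i + 2) 2)
  rw [← neg_one_mul]
  have h1 := (isWeightedHomogeneous_C K.ω (-1 : ℂ)).mul h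
  rw [zero_add, C_neg, C_1] at h1
  exact h1

theorem hom_mXF (i : Fin 5) : IsWeightedHomogeneous K.ω (mX K.c K.α i * K.F i)
    (phi K.ω K.α (i - 2) + phi K.ω K.α (i + 2)) := by
  have h1 : IsWeightedHomogeneous K.ω (mX K.c K.α i) (WW K.ω K.α i) := by
    unfold mX WW
    have h2 := (isWeightedHomogeneous_C K.ω (K.c i)).mul
      ((isWeightedHomogeneous_X ℂ K.ω i).pow (K.α i))
    rw [zero_add, ← natCast_zsmul] at h2
    exact h2
  have h2 := h1.mul (K.hF i)
  have e : WW K.ω K.α i + phi K.ω K.α i = phi K.ω K.α (i - 2) + phi K.ω K.α (i + 2) := by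
    have i1 := ix1 i
    have i2 := ix2 i
    have i3 := ix3 i
    have i4 := ix4 i
    unfold phi
    rw [i1, i2, i3, i4]
    abel
  rw [e] at h2
  exact h2

/-- a homogeneous polynomial of degree `0` is a constant. -/
theorem const_of_hom {ω : Fin 5 → M} (hpos : ∀ i, 0 < (ω i).1) {H : S5}
    (h : IsWeightedHomogeneous ω H 0) : ∃ t : ℂ, H = C t := by
  refine ⟨coeff 0 H, ?_⟩
  ext v
  rw [coeff_C]
  by_cases hv : (0 : Fin 5 →₀ ℕ) = v
  · rw [if_pos hv, hv]
  · rw [if_neg hv]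
    by_contra hne
    have hw := h hne
    apply hv
    have h1 : (∑ i, (v i : ℤ) * (ω i).1) = 0 := by
      have h2 := congrArg Prod.fst hw
      rw [Finsupp.weight_apply, Finsupp.sum_fintype _ _ (fun i => zero_smul ℕ (ω i))] at h2
      rw [Prod.fst_sum] at h2
      simpa using h2
    have h3 : ∀ i ∈ (Finset.univ : Finset (Fin 5)), (v i : ℤ) * (ω i).1 = 0 :=
      (Finset.sum_eq_zero_iff_of_nonneg fun i _ =>
        mul_nonneg (by positivity) (hpos i).le).1 h1
    ext i
    have h4 := h3 i (Finset.mem_univ i)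
    rcases mul_eq_zero.1 h4 with h5 | h5
    · have h6 : v i = 0 := by exact_mod_cast h5
      rw [h6]; rfl
    · exact absurd h5 (hpos i).ne'

theorem F2_res (E : Exps K) : res 2 (th 3 (K.F 0)) = C (E.q 0 : ℂ) * res 2 (K.F 0) := by
  have hr : res 2 (K.F 0) = C (E.e 0) * X 1 ^ E.p 0 * X 3 ^ E.q 0 := E.r1 0
  rw [res_th 2 3, hr, th_mul, th_mul, th_C, th_X_pow, th_X_pow,
    if_neg (by decide), if_pos rfl, C_0]
  ring

theorem F3_res (E : Exps K) : res 3 (th 2 (K.F 0)) = C (E.q' 0 : ℂ) * res 3 (K.F 0) := by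
  have hr : res 3 (K.F 0) = C (E.e' 0) * X 4 ^ E.p' 0 * X 2 ^ E.q' 0 := E.r2 0
  rw [res_th 3 2, hr, th_mul, th_mul, th_C, th_X_pow, th_X_pow,
    if_neg (by decide), if_pos rfl, C_0]
  ring

theorem G02 : Gx K 0 2 = th 2 (K.F 0) := by
  have h : kk K 0 2 = 0 := by
    unfold kk sx
    rw [if_neg (by decide), if_neg (by decide), if_neg (by decide)]
    ring
  unfold Gx
  rw [h, C_0, zero_mul, add_zero]

theorem G03 : Gx K 0 3 = th 3 (K.F 0) := by
  have h : kk K 0 3 = 0 := by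
    unfold kk sx
    rw [if_neg (by decide), if_neg (by decide), if_neg (by decide)]
    ring
  unfold Gx
  rw [h, C_0, zero_mul, add_zero]

theorem G22 : res 2 (Gx K 2 2) = C (K.α 2 : ℂ) * res 2 (K.F 2) := by
  have h : kk K 2 2 = K.α 2 := by
    unfold kk sx
    rw [if_pos rfl, if_neg (by decide), if_neg (by decide)]
    ring
  unfold Gx
  rw [h, map_add, map_mul, res_C, res_th_self, zero_add]

theorem isUnit_H (E : Exps K) (hq : 0 < E.q 0) {H : S5}
    (hT : ∀ i, Tx K i = -(mX K.c K.α i * (K.F i * H)))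
    (hQ : ∀ i, Qx K i = K.F (i + 2) * (K.F i * H)) : IsUnit H := by
  have hH0 : H ≠ 0 := by
    rintro rfl
    have h := congrArg (res 2) (hQ 0)
    have e : Qx K 0 = Gx K 0 2 * Gx K 2 3 - Gx K 0 3 * Gx K 2 2 := rfl
    rw [e, map_sub, map_mul, map_mul, G02, G03, res_th_self, F2_res K E, G22, mul_zero, mul_zero,
      map_zero, zero_mul, zero_sub, neg_eq_zero] at h
    have hq' : (C (E.q 0 : ℂ) : S5) ≠ 0 := by
      rw [Ne, C_eq_zero]
      exact_mod_cast hq.ne'
    have ha' : (C (K.α 2 : ℂ) : S5) ≠ 0 := by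
      rw [Ne, C_eq_zero]
      have := K.hα 2
      exact_mod_cast (by omega : K.α 2 ≠ 0)
    exact mul_ne_zero (mul_ne_zero hq' (E.ne 0 2)) (mul_ne_zero ha' (E.ne 2 2)) h
  have h1 : IsWeightedHomogeneous K.ω (H * (mX K.c K.α 0 * K.F 0))
      (phi K.ω K.α (0 - 2) + phi K.ω K.α (0 + 2)) := by
    have h2 : H * (mX K.c K.α 0 * K.F 0) = C (-1) * Tx K 0 := by
      rw [hT 0, C_neg, C_1]
      ring
    rw [h2]
    have h3 := (isWeightedHomogeneous_C K.ω (-1 : ℂ)).mul (hom_T K 0)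
    rw [zero_add] at h3
    exact h3
  have hne : mX K.c K.α 0 * K.F 0 ≠ 0 := mul_ne_zero (mX_ne K 0) (F_ne K E 0)
  obtain ⟨a, b, hab, ha, hb⟩ := hom_of_mul K.ω h1 (mul_ne_zero hH0 hne)
  have hb2 := hb.inj_right hne (hom_mXF K 0)
  rw [hb2] at hab
  have ha0 : a = 0 := by
    have := add_eq_right.1 hab
    exact this
  rw [ha0] at ha
  obtain ⟨t, ht⟩ := const_of_hom K.hpos ha
  rw [ht] at hH0 ⊢
  rw [Ne, C_eq_zero] at hH0
  exact (isUnit_iff_ne_zero.2 hH0).map C

end C3aux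

open C3aux in
theorem coprime (K : CoreData) (E : Exps K) (hq : 0 < E.q 0) (hq' : 0 < E.q' 0) :
    IsRelPrime (th 2 (K.F 0)) (th 3 (K.F 0)) ∧ th 2 (K.F 0) ≠ 0 ∧ th 3 (K.F 0) ≠ 0 := by
  have h2ne : th 2 (K.F 0) ≠ 0 := by
    intro h
    have h1 := F3_res K E
    rw [h, map_zero] at h1
    have hq2 : (C (E.q' 0 : ℂ) : S5) ≠ 0 := by
      rw [Ne, C_eq_zero]
      exact_mod_cast hq'.ne'
    exact mul_ne_zero hq2 (E.ne 0 3) h1.symm
  have h3ne : th 3 (K.F 0) ≠ 0 := by
    intro h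
    have h1 := F2_res K E
    rw [h, map_zero] at h1
    have hq2 : (C (E.q 0 : ℂ) : S5) ≠ 0 := by
      rw [Ne, C_eq_zero]
      exact_mod_cast hq.ne'
    exact mul_ne_zero hq2 (E.ne 0 2) h1.symm
  refine ⟨?_, h2ne, h3ne⟩
  obtain ⟨H, hT, hQ⟩ := exists_H K E
  have hH := isUnit_H K E hq hT hQ
  intro d hd2 hd3
  by_contra hu
  have hd : d ≠ 0 := by
    rintro rfl
    exact h2ne (zero_dvd_iff.1 hd2)
  obtain ⟨π, hπi, hπd⟩ := WfDvdMonoid.exists_irreducible_factor hu hd
  have hπ := hπi.prime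
  have g2 : π ∣ Gx K 0 2 := by rw [G02]; exact hπd.trans hd2
  have g3 : π ∣ Gx K 0 3 := by rw [G03]; exact hπd.trans hd3
  have hunit : ∀ x : S5, π ∣ x * H → π ∣ x := by
    intro x hx
    exact (hH.dvd_mul_right).1 hx
  have q0 : π ∣ K.F 2 * K.F 0 := by
    have e : Qx K 0 = Gx K 0 2 * Gx K 2 3 - Gx K 0 3 * Gx K 2 2 := rfl
    have h1 : π ∣ Qx K 0 := by
      rw [e]
      exact dvd_sub (Dvd.dvd.mul_right g2 _) (Dvd.dvd.mul_right g3 _)
    have h2 : Qx K 0 = K.F 2 * (K.F 0 * H) := hQ 0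
    rw [h2, ← mul_assoc] at h1
    exact hunit _ h1
  have q3 : π ∣ K.F 0 * K.F 3 := by
    have e : Qx K 3 = Gx K 3 2 * Gx K 0 3 - Gx K 3 3 * Gx K 0 2 := rfl
    have h1 : π ∣ Qx K 3 := by
      rw [e]
      exact dvd_sub (Dvd.dvd.mul_left g3 _) (Dvd.dvd.mul_left g2 _)
    have h2 : Qx K 3 = K.F 0 * (K.F 3 * H) := hQ 3
    rw [h2, ← mul_assoc] at h1
    exact hunit _ h1
  by_cases h0 : π ∣ K.F 0
  · have e : Tx K 2 = Gx K 0 2 * Gx K 4 3 - Gx K 0 3 * Gx K 4 2 := rfl
    have h1 : π ∣ Tx K 2 := by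
      rw [e]
      exact dvd_sub (Dvd.dvd.mul_right g2 _) (Dvd.dvd.mul_right g3 _)
    rw [hT 2, dvd_neg, ← mul_assoc] at h1
    have h2 := hunit _ h1
    have hP : K.F 0 * K.F 4 + mX K.c K.α 2 * K.F 2 = mX K.c K.α 1 * mX K.c K.α 3 := K.hP 2
    refine no_div K E hπ (a := 1) (b := 3) ?_ h0
    rw [← hP]
    exact dvd_add (Dvd.dvd.mul_right h0 _) h2
  · have f2 : π ∣ K.F 2 := (hπ.dvd_or_dvd q0).resolve_right h0
    have f3 : π ∣ K.F 3 := (hπ.dvd_or_dvd q3).resolve_left h0
    obtain ⟨a, ha⟩ := f2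
    obtain ⟨b, hb⟩ := f3
    have e : Tx K 0 = Gx K 3 2 * Gx K 2 3 - Gx K 3 3 * Gx K 2 2 := rfl
    have h1 : π ∣ Tx K 0 := by
      rw [e]
      unfold Gx
      rw [ha, hb, th_mul, th_mul, th_mul, th_mul]
      refine ⟨th 2 π * b * (th 3 a + C (kk K 2 3) * a) + (th 2 b + C (kk K 3 2) * b) * (th 3 π * a)
        + π * (th 2 b + C (kk K 3 2) * b) * (th 3 a + C (kk K 2 3) * a)
        - th 3 π * b * (th 2 a + C (kk K 2 2) * a) - (th 3 b + C (kk K 3 3) * b) * (th 2 π * a)
        - π * (th 3 b + C (kk K 3 3) * b) * (th 2 a + C (kk K 2 2) * a), ?_⟩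
      ring
    rw [hT 0, dvd_neg, ← mul_assoc] at h1
    have h2 := hunit _ h1
    have hP : K.F 3 * K.F 2 + mX K.c K.α 0 * K.F 0 = mX K.c K.α 4 * mX K.c K.α 1 := K.hP 0
    refine no_div K E hπ (a := 4) (b := 1) (j := 2) ?_ ⟨a, ha⟩
    rw [← hP]
    exact dvd_add (Dvd.dvd.mul_left ⟨a, ha⟩ _) h2

end H938TB
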