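import Mathlib
import Pool.Agent.H938R2.TB.Base

/-!
# C4a: the dimensions of the graded pieces
-/

set_option autoImplicit false

open MvPolynomial

namespace H938TB

namespace C4aaux

theorem weight_fst (ω : Fin 5 → M) (v : Fin 5 →₀ ℕ) :
    (Finsupp.weight ω v).1 = ∑ i, (v i : ℤ) * (ω i).1 := by
  rw [Finsupp.weight_apply, Finsupp.sum_fintype _ _ (by simp)]
  rw [Prod.fst_sum]
  simp

theorem mon_finite (ω : Fin 5 → M) (hpos : ∀ i, 0 < (ω i).1) (δ : M) : (Mon ω δ).Finite := by
  have hsub : Mon ω δ ⊆ {v : Fin 5 →₀ ℕ | ∀ i, v i ≤ δ.1.toNat} := by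
    intro v hv i
    have h1 : (Finsupp.weight ω v).1 = δ.1 := by
      have : Finsupp.weight ω v = δ := hv
      rw [this]
    rw [weight_fst] at h1
    have h2 : (v i : ℤ) * (ω i).1 ≤ ∑ j, (v j : ℤ) * (ω j).1 :=
      Finset.single_le_sum (f := fun j => (v j : ℤ) * (ω j).1)
        (fun j _ => mul_nonneg (by positivity) (hpos j).le) (Finset.mem_univ i)
    have h3 : (v i : ℤ) ≤ (v i : ℤ) * (ω i).1 :=
      le_mul_of_one_le_right (by positivity) (by have := hpos i; omega)
    omega
  refine Set.Finite.subset ?_ hsub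
  have : {v : Fin 5 →₀ ℕ | ∀ i, v i ≤ δ.1.toNat} ⊆
      (fun v : Fin 5 →₀ ℕ => (v : Fin 5 → ℕ)) ⁻¹' (Set.Iic (fun _ => δ.1.toNat)) := by
    intro v hv i
    exact hv i
  refine Set.Finite.subset (Set.Finite.preimage ?_ (Set.finite_Iic _)) this
  exact DFunLike.coe_injective.injOn

/-- the graded piece as the finitely supported functions on the monomials. -/
theorem piece_eq (ω : Fin 5 → M) (δ : M) :
    weightedHomogeneousSubmodule ℂ ω δ = restrictSupport ℂ (Mon ω δ) :=
  weightedHomogeneousSubmodule_eq_finsupp_supported ℂ ω δ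

end C4aaux

theorem finrank_piece (ω : Fin 5 → M) (hpos : ∀ i, 0 < (ω i).1) (δ : M) :
    FiniteDimensional ℂ (weightedHomogeneousSubmodule ℂ ω δ) ∧
    Module.finrank ℂ (weightedHomogeneousSubmodule ℂ ω δ) = nM ω δ ∧ (Mon ω δ).Finite := by
  have hfin := C4aaux.mon_finite ω hpos δ
  have hF : Finite (Mon ω δ) := hfin.to_subtype
  rw [C4aaux.piece_eq]
  refine ⟨Module.Finite.of_basis (basisRestrictSupport ℂ (Mon ω δ)), ?_, hfin⟩
  rw [Module.finrank_eq_nat_card_basis (basisRestrictSupport ℂ (Mon ω δ))]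
  rfl

namespace C4aaux

variable (ω : Fin 5 → M)

/-- `(f, g) ↦ A f + B g` -/
noncomputable def Psi (A B : S5) (a b δ : M) :
    (weightedHomogeneousSubmodule ℂ ω (δ - a) × weightedHomogeneousSubmodule ℂ ω (δ - b)) →ₗ[ℂ] S5 :=
  ((LinearMap.mulLeft ℂ A).comp (Submodule.subtype _)).coprod
    ((LinearMap.mulLeft ℂ B).comp (Submodule.subtype _))

theorem Psi_apply (A B : S5) (a b δ : M) (x) :
    Psi ω A B a b δ x = A * (x.1 : S5) + B * (x.2 : S5) := rfl

theorem Psi_range (A B : S5) (a b δ : M) :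
    LinearMap.range (Psi ω A B a b δ) = Sub ω A B a b δ := by
  rw [Psi, LinearMap.range_coprod, Sub, LinearMap.range_comp, LinearMap.range_comp,
    Submodule.range_subtype, Submodule.range_subtype]

theorem mul_piece {A e : S5} {a s t : M} (hA : IsWeightedHomogeneous ω A a)
    (he : e ∈ weightedHomogeneousSubmodule ℂ ω s) (h : a + s = t) :
    A * e ∈ weightedHomogeneousSubmodule ℂ ω t := by
  rw [mem_weightedHomogeneousSubmodule] at he ⊢
  rw [← h]
  exact hA.mul he

/-- `e ↦ (B e, - A e)` -/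
noncomputable def kap {A B : S5} {a b : M} (hA : IsWeightedHomogeneous ω A a)
    (hB : IsWeightedHomogeneous ω B b) (δ : M) :
    weightedHomogeneousSubmodule ℂ ω (δ - a - b) →ₗ[ℂ] LinearMap.ker (Psi ω A B a b δ) where
  toFun e := ⟨(⟨B * (e : S5), mul_piece ω hB e.2 (by abel)⟩,
      ⟨-(A * (e : S5)), neg_mem (mul_piece ω hA e.2 (by abel))⟩), by
    rw [LinearMap.mem_ker, Psi_apply]
    simp only
    ring⟩
  map_add' x y := by
    apply Subtype.ext
    apply Prod.ext
    · apply Subtype.ext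
      simp [mul_add]
    · apply Subtype.ext
      simp [mul_add]
      ring
  map_smul' c x := by
    apply Subtype.ext
    apply Prod.ext
    · apply Subtype.ext
      simp
    · apply Subtype.ext
      simp

theorem kap_inj {A B : S5} {a b : M} (hA : IsWeightedHomogeneous ω A a)
    (hB : IsWeightedHomogeneous ω B b) (hA0 : A ≠ 0) (δ : M) :
    Function.Injective (kap ω hA hB δ) := by
  intro x y hxy
  have h1 : -(A * (x : S5)) = -(A * (y : S5)) :=
    congrArg (fun z : LinearMap.ker (Psi ω A B a b δ) => (z.1.2 : S5)) hxy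
  exact Subtype.ext (mul_left_cancel₀ hA0 (neg_injective h1))

/-- the homogeneity of a quotient. -/
theorem quot_homog {B e : S5} {b t : M} (hB : IsWeightedHomogeneous ω B b) (hB0 : B ≠ 0)
    (he : IsWeightedHomogeneous ω (B * e) t) : IsWeightedHomogeneous ω e (t - b) := by
  classical
  let _ := weightedGradedAlgebra ℂ ω
  have key : ∀ j, j ≠ t - b → weightedHomogeneousComponent ω j e = 0 := by
    intro j hj
    have h1 : (DirectSum.decompose (weightedHomogeneousSubmodule ℂ ω) (B * e) (b + j) : S5) =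
        B * DirectSum.decompose (weightedHomogeneousSubmodule ℂ ω) e j :=
      DirectSum.coe_decompose_mul_add_of_left_mem (weightedHomogeneousSubmodule ℂ ω)
        ((mem_weightedHomogeneousSubmodule ℂ ω b B).2 hB)
    have h2 : (DirectSum.decompose (weightedHomogeneousSubmodule ℂ ω) (B * e) (b + j) : S5) = 0 := by
      refine DirectSum.decompose_of_mem_ne (weightedHomogeneousSubmodule ℂ ω)
        ((mem_weightedHomogeneousSubmodule ℂ ω t (B * e)).2 he) ?_
      intro h
      apply hj
      rw [h]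
      abel
    rw [h2] at h1
    rcases mul_eq_zero.mp h1.symm with h | h
    · exact absurd h hB0
    · rw [← decompose'_apply]
      exact h
  intro d hd
  by_contra hne
  have h3 := key (Finsupp.weight ω d) hne
  apply hd
  have h4 := congrArg (coeff d) h3
  rw [coeff_weightedHomogeneousComponent, if_pos rfl] at h4
  simpa using h4

theorem kap_surj {A B : S5} {a b : M} (hA : IsWeightedHomogeneous ω A a)
    (hB : IsWeightedHomogeneous ω B b) (hA0 : A ≠ 0) (hAB : IsRelPrime A B) (δ : M) :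
    Function.Surjective (kap ω hA hB δ) := by
  rintro ⟨⟨⟨f, hf⟩, ⟨g, hg⟩⟩, hk⟩
  rw [LinearMap.mem_ker, Psi_apply] at hk
  simp only at hk
  have hdvd : A ∣ B * g := ⟨-f, by linear_combination hk⟩
  obtain ⟨e', he'⟩ := hAB.dvd_of_dvd_mul_left hdvd
  have hfe : f = B * (-e') := by
    apply mul_left_cancel₀ hA0
    rw [he'] at hk
    linear_combination hk
  have hge : A * (-e') = -g := by rw [he']; ring
  have hh : IsWeightedHomogeneous ω (A * (-e')) (δ - b) := by
    rw [hge]
    exact neg_mem hg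
  have he := quot_homog ω hA hA0 hh
  refine ⟨⟨-e', ?_⟩, ?_⟩
  · rw [mem_weightedHomogeneousSubmodule]
    have : δ - a - b = δ - b - a := by abel
    rw [this]
    exact he
  · apply Subtype.ext
    apply Prod.ext
    · apply Subtype.ext
      exact hfe.symm
    · apply Subtype.ext
      change -(A * (-e')) = g
      rw [hge, neg_neg]

theorem rank_nullity (hpos : ∀ i, 0 < (ω i).1) (A B : S5) (a b δ : M) :
    Module.finrank ℂ (Sub ω A B a b δ) + Module.finrank ℂ (LinearMap.ker (Psi ω A B a b δ)) =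
      nM ω (δ - a) + nM ω (δ - b) := by
  have := (finrank_piece ω hpos (δ - a)).1
  have := (finrank_piece ω hpos (δ - b)).1
  have h := LinearMap.finrank_range_add_finrank_ker (Psi ω A B a b δ)
  rw [Psi_range, Module.finrank_prod, (finrank_piece ω hpos (δ - a)).2.1,
    (finrank_piece ω hpos (δ - b)).2.1] at h
  exact h

end C4aaux

theorem rank_coprime (ω : Fin 5 → M) (hpos : ∀ i, 0 < (ω i).1) (A B : S5) (a b : M)
    (hA : IsWeightedHomogeneous ω A a) (hB : IsWeightedHomogeneous ω B b)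
    (hA0 : A ≠ 0) (hB0 : B ≠ 0) (hAB : IsRelPrime A B) (δ : M) :
    Module.finrank ℂ (Sub ω A B a b δ) + nM ω (δ - a - b) = nM ω (δ - a) + nM ω (δ - b) := by
  rw [← C4aaux.rank_nullity ω hpos A B a b δ]
  have e := LinearEquiv.ofBijective (C4aaux.kap ω hA hB δ)
    ⟨C4aaux.kap_inj ω hA hB hA0 δ, C4aaux.kap_surj ω hA hB hA0 hAB δ⟩
  rw [← e.finrank_eq, (finrank_piece ω hpos (δ - a - b)).2.1]

theorem rank_any (ω : Fin 5 → M) (hpos : ∀ i, 0 < (ω i).1) (A B : S5) (a b : M)
    (hA : IsWeightedHomogeneous ω A a) (hB : IsWeightedHomogeneous ω B b)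
    (hA0 : A ≠ 0) (δ : M) :
    Module.finrank ℂ (Sub ω A B a b δ) + nM ω (δ - a - b) ≤ nM ω (δ - a) + nM ω (δ - b) := by
  rw [← C4aaux.rank_nullity ω hpos A B a b δ]
  have := (finrank_piece ω hpos (δ - a)).1
  have := (finrank_piece ω hpos (δ - b)).1
  have h := LinearMap.finrank_le_finrank_of_injective (C4aaux.kap_inj ω hA hB hA0 δ)
  rw [(finrank_piece ω hpos (δ - a - b)).2.1] at h
  omega

end H938TB
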