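import Pool.Agent.H938R2.TB.Base

set_option autoImplicit false

open MvPolynomial

namespace H938TB

namespace C4caux

theorem res_monomial (j : Fin 5) (u : Fin 5 →₀ ℕ) (a : ℂ) :
    res j (monomial u a) = if u j = 0 then monomial u a else 0 := by
  rw [res, aeval_monomial, Finsupp.prod_fintype _ _ (by intro i; simp)]
  split_ifs with h
  · have : ∏ k, (if k = j then (0 : S5) else X k) ^ u k = ∏ k, X k ^ u k := by
      refine Finset.prod_congr rfl fun k _ => ?_
      by_cases hk : k = j
      · rw [if_pos hk, hk, h, pow_zero, pow_zero]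
      · rw [if_neg hk]
    rw [this, monomial_eq, Finsupp.prod_fintype _ _ (by intro i; simp)]
    rfl
  · rw [Finset.prod_eq_zero (Finset.mem_univ j), mul_zero]
    rw [if_pos rfl, zero_pow h]

theorem res_coeff (j : Fin 5) (p : S5) (m : Fin 5 →₀ ℕ) :
    coeff m (res j p) = if m j = 0 then coeff m p else 0 := by
  classical
  induction p using MvPolynomial.induction_on' with
  | monomial u a =>
    rw [res_monomial]
    by_cases hu : u j = 0
    · rw [if_pos hu]
      by_cases hm : m j = 0
      · rw [if_pos hm]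
      · rw [if_neg hm, coeff_monomial, if_neg]
        rintro rfl
        exact hm hu
    · rw [if_neg hu, coeff_zero, coeff_monomial]
      by_cases hm : m j = 0
      · rw [if_pos hm, if_neg]
        rintro rfl
        exact hu hm
      · rw [if_neg hm]
  | add p q hp hq =>
    rw [map_add, coeff_add, coeff_add, hp, hq]
    split_ifs
    · rfl
    · rw [add_zero]

/-- the submodule of the elements to be represented. -/
noncomputable def GG (K : CoreData) (δ : M) : Submodule ℂ S5 :=
  (weightedHomogeneousSubmodule ℂ K.ω δ).map (LinearMap.mulLeft ℂ (mX K.c K.α 0)) ⊔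
  (weightedHomogeneousSubmodule ℂ K.ω (δ + WW K.ω K.α 0 - phi K.ω K.α 3)).map
    (LinearMap.mulLeft ℂ (K.F 3))

theorem mon_mem (K : CoreData) (e : ℂ) (he : e ≠ 0) (p q : ℕ)
    (hF3 : res 0 (K.F 3) = C e * X 4 ^ p * X 1 ^ q) (δ : M)
    (hamp : ∀ v ∈ Mon K.ω (δ + WW K.ω K.α 0), v 0 < K.α 0 → p ≤ v 4 ∧ q ≤ v 1) (n : ℕ) :
    ∀ v ∈ Mon K.ω (δ + WW K.ω K.α 0), K.α 0 - v 0 ≤ n → (monomial v (1 : ℂ) : S5) ∈ GG K δ := by
  classical
  induction n with
  | zero =>
    intro v hv hle
    have hle' : K.α 0 ≤ v 0 := by omega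
    refine Submodule.mem_sup_left ?_
    refine ⟨C ((K.c 0)⁻¹) * monomial (v - Finsupp.single 0 (K.α 0)) 1, ?_, ?_⟩
    · have hw : Finsupp.weight K.ω (v - Finsupp.single 0 (K.α 0)) = δ := by
        have h1 : v = (v - Finsupp.single 0 (K.α 0)) + Finsupp.single 0 (K.α 0) := by
          rw [tsub_add_cancel_of_le]
          rw [Finsupp.single_le_iff]
          exact hle'
        have h2 : Finsupp.weight K.ω v = δ + WW K.ω K.α 0 := hv
        rw [h1, map_add, Finsupp.weight_single] at h2
        unfold WW at h2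
        rw [natCast_zsmul] at h2
        exact add_right_cancel h2
      have h3 := (isWeightedHomogeneous_C K.ω (K.c 0)⁻¹).mul
        (isWeightedHomogeneous_monomial K.ω (v - Finsupp.single 0 (K.α 0)) (1 : ℂ) hw)
      rw [zero_add] at h3
      exact h3
    · have h4 : (monomial v (1 : ℂ) : S5) =
          X 0 ^ K.α 0 * monomial (v - Finsupp.single 0 (K.α 0)) 1 := by
        rw [X_pow_eq_monomial, monomial_mul, one_mul]
        congr 1
        rw [add_tsub_cancel_of_le]
        rw [Finsupp.single_le_iff]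
        exact hle'
      rw [LinearMap.mulLeft_apply, mX, h4]
      have h5 : (C (K.c 0) : S5) * C ((K.c 0)⁻¹) = 1 := by
        rw [← C_mul, mul_inv_cancel₀ (K.hc 0), C_1]
      calc C (K.c 0) * X 0 ^ K.α 0 *
          (C ((K.c 0)⁻¹) * monomial (v - Finsupp.single 0 (K.α 0)) 1)
          = (C (K.c 0) * C ((K.c 0)⁻¹)) *
            (X 0 ^ K.α 0 * monomial (v - Finsupp.single 0 (K.α 0)) 1) := by ring
        _ = _ := by rw [h5, one_mul]
  | succ n ih =>
    intro v hv hle
    by_cases hlt : v 0 < K.α 0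
    swap
    · exact ih v hv (by omega)
    obtain ⟨hp, hq⟩ := hamp v hv hlt
    -- the leading monomial of `F 3`
    obtain ⟨m0, hm0⟩ : ∃ m0 : Fin 5 →₀ ℕ, m0 = Finsupp.single 4 p + Finsupp.single 1 q := ⟨_, rfl⟩
    have hres : res 0 (K.F 3) = monomial m0 e := by
      rw [hF3, X_pow_eq_monomial, X_pow_eq_monomial, mul_assoc, monomial_mul, C_mul_monomial,
        hm0, mul_one, mul_one]
    have hm00 : m0 0 = 0 := by
      rw [hm0]
      simp
    have hc0 : coeff m0 (K.F 3) = e := by
      have h1 := res_coeff 0 (K.F 3) m0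
      rw [if_pos hm00, hres, coeff_monomial, if_pos rfl] at h1
      exact h1.symm
    have hwm0 : Finsupp.weight K.ω m0 = phi K.ω K.α 3 := K.hF 3 (by rw [hc0]; exact he)
    have hm0v : m0 ≤ v := by
      rw [hm0]
      intro i
      fin_cases i <;> simp <;> assumption
    obtain ⟨v', hv'⟩ : ∃ v' : Fin 5 →₀ ℕ, v' = v - m0 := ⟨_, rfl⟩
    have hvv : v' + m0 = v := by rw [hv', tsub_add_cancel_of_le hm0v]
    have hwv' : Finsupp.weight K.ω v' = δ + WW K.ω K.α 0 - phi K.ω K.α 3 := by
      have h2 : Finsupp.weight K.ω v = δ + WW K.ω K.α 0 := hv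
      rw [← hvv, map_add, hwm0] at h2
      exact eq_sub_of_add_eq h2
    have hv'0 : v' 0 = v 0 := by
      rw [← hvv, Finsupp.add_apply, hm00, add_zero]
    -- the rest
    set R : S5 := K.F 3 - res 0 (K.F 3) with hR
    have hRc : ∀ m, coeff m R = if m 0 = 0 then 0 else coeff m (K.F 3) := by
      intro m
      rw [hR, coeff_sub, res_coeff]
      split_ifs
      · rw [sub_self]
      · rw [sub_zero]
    have hsplit : (monomial v (1 : ℂ) : S5) =
        K.F 3 * (C e⁻¹ * monomial v' 1) - C e⁻¹ * (monomial v' 1 * R) := by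
      have h1 : K.F 3 = R + monomial m0 e := by
        rw [hR, hres]
        ring
      have h2 : (monomial v (1 : ℂ) : S5) = C e⁻¹ * (monomial v' 1 * monomial m0 e) := by
        rw [monomial_mul, hvv, one_mul, C_mul_monomial, inv_mul_cancel₀ he]
      rw [h2]
      have h3 : K.F 3 * (C e⁻¹ * monomial v' 1) =
          C e⁻¹ * (monomial v' 1 * R) + C e⁻¹ * (monomial v' 1 * monomial m0 e) := by
        nth_rewrite 1 [h1]
        ring
      rw [h3]
      ring
    rw [hsplit]
    refine Submodule.sub_mem _ ?_ ?_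
    · refine Submodule.mem_sup_right ?_
      refine ⟨C e⁻¹ * monomial v' 1, ?_, rfl⟩
      have h3 := (isWeightedHomogeneous_C K.ω e⁻¹).mul
        (isWeightedHomogeneous_monomial K.ω v' (1 : ℂ) hwv')
      rw [zero_add] at h3
      exact h3
    · have h4 : (C e⁻¹ * (monomial v' 1 * R) : S5) =
          ∑ m ∈ R.support, (e⁻¹ * coeff m R) • (monomial (v' + m) (1 : ℂ) : S5) := by
        conv_lhs => rw [R.as_sum]
        rw [Finset.mul_sum, Finset.mul_sum]
        refine Finset.sum_congr rfl fun m _ => ?_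
        rw [monomial_mul, C_mul_monomial, smul_monomial, smul_eq_mul, one_mul, mul_one]
      rw [h4]
      refine Submodule.sum_mem _ fun m hm => Submodule.smul_mem _ _ ?_
      rw [mem_support_iff, hRc] at hm
      have hm1 : m 0 ≠ 0 := by
        intro h0
        rw [if_pos h0] at hm
        exact hm rfl
      rw [if_neg hm1] at hm
      refine ih (v' + m) ?_ ?_
      · change Finsupp.weight K.ω (v' + m) = _
        rw [map_add, hwv', K.hF 3 hm, sub_add_cancel]
      · rw [Finsupp.add_apply, hv'0]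
        omega

end C4caux

/-- reduction modulo `F 3`, whose restriction to `x_0 = 0` is a monomial. -/
theorem surj (K : CoreData) (e : ℂ) (he : e ≠ 0) (p q : ℕ)
    (hF3 : res 0 (K.F 3) = C e * X 4 ^ p * X 1 ^ q) (δ : M)
    (hamp : ∀ v ∈ Mon K.ω (δ + WW K.ω K.α 0), v 0 < K.α 0 → p ≤ v 4 ∧ q ≤ v 1)
    (g : S5) (hg : IsWeightedHomogeneous K.ω g (δ + WW K.ω K.α 0)) :
    ∃ h f : S5, IsWeightedHomogeneous K.ω h δ ∧
      IsWeightedHomogeneous K.ω f (δ + WW K.ω K.α 0 - phi K.ω K.α 3) ∧
      g = mX K.c K.α 0 * h + K.F 3 * f := by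
  have h1 : g ∈ C4caux.GG K δ := by
    rw [g.as_sum]
    refine Submodule.sum_mem _ fun v hv => ?_
    have h2 := C4caux.mon_mem K e he p q hF3 δ hamp (K.α 0) v
      (hg (mem_support_iff.1 hv)) (Nat.sub_le _ _)
    have h3 : (monomial v (coeff v g) : S5) = coeff v g • (monomial v (1 : ℂ) : S5) := by
      rw [smul_monomial, smul_eq_mul, mul_one]
    rw [h3]
    exact Submodule.smul_mem _ _ h2
  obtain ⟨y, ⟨h, hh, rfl⟩, z, ⟨f, hf, rfl⟩, hyz⟩ := Submodule.mem_sup.1 h1
  exact ⟨h, f, hh, hf, hyz.symm⟩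

end H938TB
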