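import Pool.Agent.H938R2.TB.Base
import Pool.Agent.H938R2.TB.C4a
import Pool.Agent.H938R2.TB.C4c

/-!
# C4: the counting inequality
-/

set_option autoImplicit false

open MvPolynomial

namespace H938TB


namespace C4aux

theorem th_hom {ω : Fin 5 → M} {p : S5} {φ : M} (hp : IsWeightedHomogeneous ω p φ) (a : Fin 5) :
    IsWeightedHomogeneous ω (th a p) φ := by
  have h1 : IsWeightedHomogeneous ω (pderiv a p) (φ - ω a) :=
    hp.pderiv (by rw [sub_add_cancel])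
  have h2 := (isWeightedHomogeneous_X ℂ ω a).mul h1
  rw [add_sub_cancel] at h2
  exact h2

theorem th_mul (a : Fin 5) (p q : S5) : th a (p * q) = th a p * q + p * th a q := by
  unfold th
  rw [Derivation.leibniz]
  simp only [smul_eq_mul]
  ring

theorem th_add (a : Fin 5) (p q : S5) : th a (p + q) = th a p + th a q := by
  unfold th
  rw [map_add, mul_add]

theorem th_mX (c : Fin 5 → ℂ) (α : Fin 5 → ℕ) {a j : Fin 5} (h : j ≠ a) : th a (mX c α j) = 0 := by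
  unfold th mX
  have h1 : pderiv a (X j : S5) = 0 := pderiv_X_of_ne h
  rw [Derivation.leibniz, Derivation.leibniz_pow, h1, pderiv_C]
  simp

theorem key (K : CoreData) (a : Fin 5) (h0 : (0 : Fin 5) ≠ a) (h1 : (1 : Fin 5) ≠ a)
    (h4 : (4 : Fin 5) ≠ a) :
    mX K.c K.α 0 * th a (K.F 0) = -(K.F 2 * th a (K.F 3)) - K.F 3 * th a (K.F 2) := by
  have h := K.hP 0
  have e1 : (0 : Fin 5) - 2 = 3 := rfl
  have e2 : (0 : Fin 5) + 2 = 2 := rfl
  have e3 : (0 : Fin 5) - 1 = 4 := rfl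
  have e4 : (0 : Fin 5) + 1 = 1 := rfl
  rw [e1, e2, e3, e4] at h
  have h2 := congrArg (th a) h
  rw [th_add, th_mul, th_mul, th_mul, th_mX _ _ h0, th_mX _ _ h1, th_mX _ _ h4] at h2
  linear_combination h2

theorem phi_sum (ω : Fin 5 → M) (α : Fin 5 → ℕ) :
    phi ω α 2 + phi ω α 3 = WW ω α 0 + phi ω α 0 := by
  unfold phi
  have e1 : (2 : Fin 5) - 1 = 1 := rfl
  have e2 : (2 : Fin 5) + 1 = 3 := rfl
  have e3 : (3 : Fin 5) - 1 = 2 := rfl
  have e4 : (3 : Fin 5) + 1 = 4 := rfl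
  have e5 : (0 : Fin 5) - 1 = 4 := rfl
  have e6 : (0 : Fin 5) + 1 = 1 := rfl
  rw [e1, e2, e3, e4, e5, e6]
  abel

theorem map_le (K : CoreData) (δ : M) (a : Fin 5) (h0 : (0 : Fin 5) ≠ a) (h1 : (1 : Fin 5) ≠ a)
    (h4 : (4 : Fin 5) ≠ a) (f : S5)
    (hf : f ∈ weightedHomogeneousSubmodule ℂ K.ω (δ - phi K.ω K.α 0)) :
    mX K.c K.α 0 * (th a (K.F 0) * f) ∈
      Sub K.ω (K.F 2) (K.F 3) (phi K.ω K.α 2) (phi K.ω K.α 3) (δ + WW K.ω K.α 0) := by
  rw [mem_weightedHomogeneousSubmodule] at hf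
  have hs := phi_sum K.ω K.α
  have e1 : mX K.c K.α 0 * (th a (K.F 0) * f) =
      K.F 2 * (-(th a (K.F 3) * f)) + K.F 3 * (-(th a (K.F 2) * f)) := by
    rw [← mul_assoc, key K a h0 h1 h4]
    ring
  rw [e1]
  unfold Sub
  apply Submodule.add_mem_sup
  · refine ⟨-(th a (K.F 3) * f), ?_, rfl⟩
    apply Submodule.neg_mem
    rw [mem_weightedHomogeneousSubmodule]
    have h2 := (th_hom (K.hF 3) a).mul hf
    have h3 : phi K.ω K.α 3 + (δ - phi K.ω K.α 0) = δ + WW K.ω K.α 0 - phi K.ω K.α 2 := by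
      have h5 : phi K.ω K.α 3 = WW K.ω K.α 0 + phi K.ω K.α 0 - phi K.ω K.α 2 := by
        rw [← hs]; abel
      rw [h5]; abel
    rwa [h3] at h2
  · refine ⟨-(th a (K.F 2) * f), ?_, rfl⟩
    apply Submodule.neg_mem
    rw [mem_weightedHomogeneousSubmodule]
    have h2 := (th_hom (K.hF 2) a).mul hf
    have h3 : phi K.ω K.α 2 + (δ - phi K.ω K.α 0) = δ + WW K.ω K.α 0 - phi K.ω K.α 3 := by
      have h5 : phi K.ω K.α 2 = WW K.ω K.α 0 + phi K.ω K.α 0 - phi K.ω K.α 3 := by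
        rw [← hs]; abel
      rw [h5]; abel
    rwa [h3] at h2

theorem mX_ne (K : CoreData) : mX K.c K.α 0 ≠ 0 := by
  unfold mX
  apply mul_ne_zero
  · rw [Ne, C_eq_zero]; exact K.hc 0
  · exact pow_ne_zero _ (X_ne_zero 0)

/-- linear algebra -/
theorem lin {E : Type*} [AddCommGroup E] [Module ℂ E] (μ : E →ₗ[ℂ] E)
    (hμ : Function.Injective μ) (A V W1 W2 : Submodule ℂ E) [FiniteDimensional ℂ A]
    [FiniteDimensional ℂ W2] (h1 : W1 ≤ A) (h2 : W1.map μ ≤ W2) (h3 : V ≤ A.map μ ⊔ W2) :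
    Module.finrank ℂ V + Module.finrank ℂ W1 ≤ Module.finrank ℂ A + Module.finrank ℂ W2 := by
  have hW1 : FiniteDimensional ℂ W1 := Submodule.finiteDimensional_of_le h1
  have e1 := Submodule.finrank_sup_add_finrank_inf_eq (A.map μ) W2
  have e2 : Module.finrank ℂ (A.map μ) = Module.finrank ℂ A :=
    (Submodule.equivMapOfInjective μ hμ A).finrank_eq.symm
  have e3 : Module.finrank ℂ (W1.map μ) = Module.finrank ℂ W1 :=
    (Submodule.equivMapOfInjective μ hμ W1).finrank_eq.symm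
  have e4 : Module.finrank ℂ V ≤ Module.finrank ℂ (A.map μ ⊔ W2 : Submodule ℂ E) :=
    Submodule.finrank_mono h3
  have e5 : Module.finrank ℂ (W1.map μ) ≤ Module.finrank ℂ (A.map μ ⊓ W2 : Submodule ℂ E) :=
    Submodule.finrank_mono (le_inf (Submodule.map_mono h1) h2)
  omega

end C4aux

open C4aux in
theorem ineq (K : CoreData) (hcop : IsRelPrime (th 2 (K.F 0)) (th 3 (K.F 0)))
    (h2 : th 2 (K.F 0) ≠ 0) (h3 : th 3 (K.F 0) ≠ 0) (hF2 : K.F 2 ≠ 0) (hF3' : K.F 3 ≠ 0)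
    (e : ℂ) (he : e ≠ 0) (p q : ℕ)
    (hF3 : res 0 (K.F 3) = C e * X 4 ^ p * X 1 ^ q) (δ : M)
    (hamp : ∀ v ∈ Mon K.ω (δ + WW K.ω K.α 0), v 0 < K.α 0 → p ≤ v 4 ∧ q ≤ v 1) :
    2 * nM K.ω (δ - phi K.ω K.α 0) + nM K.ω (δ + WW K.ω K.α 0) +
      nM K.ω (δ + WW K.ω K.α 0 - phi K.ω K.α 2 - phi K.ω K.α 3) ≤
    nM K.ω δ + nM K.ω (δ - phi K.ω K.α 0 - phi K.ω K.α 0) +
      nM K.ω (δ + WW K.ω K.α 0 - phi K.ω K.α 2) +
      nM K.ω (δ + WW K.ω K.α 0 - phi K.ω K.α 3) := by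
  have hpos := K.hpos
  set δ' := δ + WW K.ω K.α 0 with hδ'
  have r1 := rank_coprime K.ω hpos (th 2 (K.F 0)) (th 3 (K.F 0)) (phi K.ω K.α 0) (phi K.ω K.α 0)
    (th_hom (K.hF 0) 2) (th_hom (K.hF 0) 3) h2 h3 hcop δ
  have r2 := rank_any K.ω hpos (K.F 2) (K.F 3) (phi K.ω K.α 2) (phi K.ω K.α 3) (K.hF 2) (K.hF 3)
    hF2 δ'
  obtain ⟨fA, nA, -⟩ := finrank_piece K.ω hpos δ
  obtain ⟨fV, nV, -⟩ := finrank_piece K.ω hpos δ'
  have f2 := (finrank_piece K.ω hpos (δ' - phi K.ω K.α 2)).1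
  have f3 := (finrank_piece K.ω hpos (δ' - phi K.ω K.α 3)).1
  have fW2 : FiniteDimensional ℂ
      (Sub K.ω (K.F 2) (K.F 3) (phi K.ω K.α 2) (phi K.ω K.α 3) δ') := by
    unfold Sub
    infer_instance
  have hl := lin (LinearMap.mulLeft ℂ (mX K.c K.α 0))
    (fun x y hxy => mul_left_cancel₀ (mX_ne K) hxy)
    (weightedHomogeneousSubmodule ℂ K.ω δ) (weightedHomogeneousSubmodule ℂ K.ω δ')
    (Sub K.ω (th 2 (K.F 0)) (th 3 (K.F 0)) (phi K.ω K.α 0) (phi K.ω K.α 0) δ)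
    (Sub K.ω (K.F 2) (K.F 3) (phi K.ω K.α 2) (phi K.ω K.α 3) δ') ?_ ?_ ?_
  · rw [nA, nV] at hl
    omega
  · unfold Sub
    rw [sup_le_iff]
    constructor
    · rintro _ ⟨f, hf, rfl⟩
      have hf' : IsWeightedHomogeneous K.ω f (δ - phi K.ω K.α 0) :=
        (mem_weightedHomogeneousSubmodule _ _ _ _).1 hf
      have h5 := (th_hom (K.hF 0) 2).mul hf'
      rw [add_sub_cancel] at h5
      exact (mem_weightedHomogeneousSubmodule _ _ _ _).2 h5
    · rintro _ ⟨f, hf, rfl⟩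
      have hf' : IsWeightedHomogeneous K.ω f (δ - phi K.ω K.α 0) :=
        (mem_weightedHomogeneousSubmodule _ _ _ _).1 hf
      have h5 := (th_hom (K.hF 0) 3).mul hf'
      rw [add_sub_cancel] at h5
      exact (mem_weightedHomogeneousSubmodule _ _ _ _).2 h5
  · have hle : (Sub K.ω (th 2 (K.F 0)) (th 3 (K.F 0)) (phi K.ω K.α 0) (phi K.ω K.α 0) δ).map
        (LinearMap.mulLeft ℂ (mX K.c K.α 0)) =
        ((weightedHomogeneousSubmodule ℂ K.ω (δ - phi K.ω K.α 0)).map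
          (LinearMap.mulLeft ℂ (th 2 (K.F 0)))).map (LinearMap.mulLeft ℂ (mX K.c K.α 0)) ⊔
        ((weightedHomogeneousSubmodule ℂ K.ω (δ - phi K.ω K.α 0)).map
          (LinearMap.mulLeft ℂ (th 3 (K.F 0)))).map (LinearMap.mulLeft ℂ (mX K.c K.α 0)) := by
      unfold Sub
      rw [Submodule.map_sup]
    rw [hle, sup_le_iff]
    constructor
    · rintro _ ⟨_, ⟨f, hf, rfl⟩, rfl⟩
      exact map_le K δ 2 (by decide) (by decide) (by decide) f hf
    · rintro _ ⟨_, ⟨f, hf, rfl⟩, rfl⟩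
      exact map_le K δ 3 (by decide) (by decide) (by decide) f hf
  · intro g hg
    obtain ⟨h, f, hh, hf, hg2⟩ := surj K e he p q hF3 δ hamp g
      ((mem_weightedHomogeneousSubmodule _ _ _ _).1 hg)
    rw [hg2]
    apply Submodule.add_mem_sup
    · exact ⟨h, (mem_weightedHomogeneousSubmodule _ _ _ _).2 hh, rfl⟩
    · unfold Sub
      apply Submodule.mem_sup_right
      exact ⟨f, (mem_weightedHomogeneousSubmodule _ _ _ _).2 hf, rfl⟩

end H938TB
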