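import Pool.Agent.H938R2.TB.Base

/-!
# Inclusion-exclusion for monomials of a given degree
-/

set_option autoImplicit false

namespace H938TB

namespace C5aaux

/-- the first coordinate of the weight of an exponent. -/
lemma weight_fst (ω : Fin 5 → M) (v : Fin 5 →₀ ℕ) :
    (Finsupp.weight ω v).1 = ∑ i, (v i : ℤ) * (ω i).1 := by
  rw [Finsupp.weight_apply, Finsupp.sum_fintype]
  · rw [Prod.fst_sum]
    apply Finset.sum_congr rfl
    intro i _
    simp
  · intro i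
    simp

/-- each exponent is bounded by the degree. -/
lemma le_fst (ω : Fin 5 → M) (hpos : ∀ i, 0 < (ω i).1) (v : Fin 5 →₀ ℕ) (i : Fin 5) :
    (v i : ℤ) ≤ (Finsupp.weight ω v).1 := by
  rw [weight_fst]
  have h1 : ∀ j ∈ Finset.univ, (0 : ℤ) ≤ (v j : ℤ) * (ω j).1 := by
    intro j _
    exact mul_nonneg (Int.natCast_nonneg _) (hpos j).le
  have h2 := Finset.single_le_sum h1 (Finset.mem_univ i)
  have h3 : (v i : ℤ) * 1 ≤ (v i : ℤ) * (ω i).1 :=
    mul_le_mul_of_nonneg_left (hpos i) (Int.natCast_nonneg _)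
  linarith

/-- there are finitely many monomials of degree `δ`. -/
lemma finite_Mon (ω : Fin 5 → M) (hpos : ∀ i, 0 < (ω i).1) (δ : M) : (Mon ω δ).Finite := by
  let B : Fin 5 →₀ ℕ := Finsupp.equivFunOnFinite.symm (fun _ => δ.1.toNat)
  apply (Set.finite_Iic B).subset
  intro v hv
  rw [Set.mem_Iic]
  intro i
  have h := le_fst ω hpos v i
  have hv' : Finsupp.weight ω v = δ := hv
  rw [hv'] at h
  have hB : B i = δ.1.toNat := rfl
  rw [hB]
  omega

/-- the monomials of degree `δ` divisible by `x^V`. -/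
lemma card_ge (ω : Fin 5 → M) (a : M) (V : Fin 5 →₀ ℕ) (hV : Finsupp.weight ω V = a) (δ : M) :
    {v ∈ Mon ω δ | V ≤ v}.ncard = nM ω (δ - a) := by
  unfold nM
  rw [← Set.ncard_image_of_injective (Mon ω (δ - a)) (add_left_injective V)]
  congr 1
  ext v
  simp only [Mon, Set.mem_setOf_eq, Set.mem_image]
  constructor
  · rintro ⟨h1, h2⟩
    refine ⟨v - V, ?_, tsub_add_cancel_of_le h2⟩
    have h3 : Finsupp.weight ω (v - V) + Finsupp.weight ω V = Finsupp.weight ω v := by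
      rw [← map_add, tsub_add_cancel_of_le h2]
    rw [h1, hV] at h3
    exact eq_sub_of_add_eq h3
  · rintro ⟨u, h1, rfl⟩
    refine ⟨?_, le_add_self⟩
    change Finsupp.weight ω (u + V) = δ
    rw [map_add, h1, hV]
    abel

end C5aaux

open C5aaux in
theorem incl_excl (ω : Fin 5 → M) (hpos : ∀ i, 0 < (ω i).1) (a b : M) (V V' : Fin 5 →₀ ℕ)
    (hV : Finsupp.weight ω V = a) (hV' : Finsupp.weight ω V' = b)
    (hdis : ∀ i, V i = 0 ∨ V' i = 0) (δ : M) :
    nM ω δ + nM ω (δ - a - b) = nM ω (δ - a) + nM ω (δ - b) + nS ω δ V V' := by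
  have hfin := finite_Mon ω hpos δ
  have hVV : Finsupp.weight ω (V + V') = a + b := by rw [map_add, hV, hV']
  have c1 := card_ge ω a V hV δ
  have c2 := card_ge ω b V' hV' δ
  have c3 := card_ge ω (a + b) (V + V') hVV δ
  rw [sub_sub, ← c1, ← c2, ← c3]
  have hA : {v ∈ Mon ω δ | V ≤ v}.Finite := hfin.subset (Set.sep_subset _ _)
  have hB : {v ∈ Mon ω δ | V' ≤ v}.Finite := hfin.subset (Set.sep_subset _ _)
  have hN : {v ∈ Mon ω δ | ¬ V ≤ v ∧ ¬ V' ≤ v}.Finite := hfin.subset (Set.sep_subset _ _)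
  have e1 : {v ∈ Mon ω δ | V + V' ≤ v}
      = {v ∈ Mon ω δ | V ≤ v} ∩ {v ∈ Mon ω δ | V' ≤ v} := by
    ext v
    simp only [Set.mem_setOf_eq, Set.mem_inter_iff]
    constructor
    · rintro ⟨h1, h2⟩
      exact ⟨⟨h1, le_trans le_self_add h2⟩, ⟨h1, le_trans le_add_self h2⟩⟩
    · rintro ⟨⟨h1, h2⟩, ⟨_, h3⟩⟩
      refine ⟨h1, ?_⟩
      intro i
      have h4 := h2 i
      have h5 := h3 i
      rw [Finsupp.add_apply]
      rcases hdis i with h | h
      · omega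
      · omega
  have e2 : Mon ω δ = ({v ∈ Mon ω δ | V ≤ v} ∪ {v ∈ Mon ω δ | V' ≤ v})
      ∪ {v ∈ Mon ω δ | ¬ V ≤ v ∧ ¬ V' ≤ v} := by
    ext v
    simp only [Set.mem_setOf_eq, Set.mem_union]
    tauto
  have e3 : Disjoint ({v ∈ Mon ω δ | V ≤ v} ∪ {v ∈ Mon ω δ | V' ≤ v})
      {v ∈ Mon ω δ | ¬ V ≤ v ∧ ¬ V' ≤ v} := by
    rw [Set.disjoint_left]
    intro v h1 h2
    simp only [Set.mem_setOf_eq, Set.mem_union] at h1 h2
    tauto
  have e4 : nM ω δ = ({v ∈ Mon ω δ | V ≤ v} ∪ {v ∈ Mon ω δ | V' ≤ v}).ncard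
      + nS ω δ V V' := by
    unfold nM nS
    conv_lhs => rw [e2]
    exact Set.ncard_union_eq e3 (hA.union hB) hN
  have e5 := Set.ncard_union_add_ncard_inter {v ∈ Mon ω δ | V ≤ v} {v ∈ Mon ω δ | V' ≤ v} hA hB
  rw [e1, e4]
  omega

end H938TB
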