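import Pool.Agent.H938R2.TB.Base

set_option autoImplicit false

open MvPolynomial

namespace H938TB

namespace C5baux

theorem ind1 (j : Fin 5) : j + 3 - 2 = j + 1 := by revert j; decide

theorem ind2 (j : Fin 5) : j + 3 + 2 = j := by revert j; decide

/-- the integer vector of the deviations -/
def xx (N : Num) (κ ε : ℕ) (v : Fin 5 →₀ ℕ) (j : Fin 5) : ℤ :=
  (v j : ℤ) - κ * N.α j - (if j = 0 then (ε : ℤ) else 0) * N.α j

theorem sum_xx (N : Num) (κ ε : ℕ) (v : Fin 5 →₀ ℕ)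
    (hv : v ∈ Mon N.ω (dl N κ + (ε : ℤ) • WW N.ω N.α 0)) :
    ∑ j, xx N κ ε v j • N.ω j = 0 := by
  have h : Finsupp.weight N.ω v = dl N κ + (ε : ℤ) • WW N.ω N.α 0 := hv
  rw [Finsupp.weight_apply, Finsupp.sum_fintype v (fun i c => c • N.ω i)
    (fun i => zero_smul ℕ (N.ω i))] at h
  unfold dl WW at h
  have h1 : ∑ j, xx N κ ε v j • N.ω j = ∑ i, v i • N.ω i -
      ((κ : ℤ) • ∑ i, (N.α i : ℤ) • N.ω i + (ε : ℤ) • (N.α 0 : ℤ) • N.ω 0) := by
    have h2 : (ε : ℤ) • (N.α 0 : ℤ) • N.ω 0 =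
        ∑ j, ((if j = 0 then (ε : ℤ) else 0) * N.α j) • N.ω j := by
      rw [Finset.sum_eq_single_of_mem (0 : Fin 5) (Finset.mem_univ _)]
      · rw [if_pos rfl, mul_smul]
      · intro j _ hj
        rw [if_neg hj, zero_mul, zero_smul]
    rw [h2, Finset.smul_sum, ← Finset.sum_add_distrib, ← Finset.sum_sub_distrib]
    refine Finset.sum_congr rfl fun j _ => ?_
    unfold xx
    rw [sub_smul, sub_smul, mul_smul, natCast_zsmul, sub_sub]
  rw [h1, h, sub_self]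

end C5baux

open C5baux

/-- two cyclically adjacent exponents are not both small. -/
theorem amp (N : Num) (U : UU N) (κ : ℕ) (hκ : 3 ≤ κ) (ε : ℕ) (hε : ε ≤ 1) (v : Fin 5 →₀ ℕ)
    (hv : v ∈ Mon N.ω (dl N κ + (ε : ℤ) • WW N.ω N.α 0)) (j : Fin 5) :
    N.α j ≤ v j ∨ N.α (j + 1) ≤ v (j + 1) := by
  by_contra hcon
  push Not at hcon
  obtain ⟨h1, h2⟩ := hcon
  have hl := U.lin (xx N κ ε v) (sum_xx N κ ε v hv) (j + 3)
  rw [ind1, ind2] at hl
  have hα : ∀ k, (0 : ℚ) < N.α k := fun k => by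
    have := N.hα k
    exact_mod_cast this
  have hx : ∀ k, ((xx N κ ε v k : ℤ) : ℚ) / N.α k =
      (v k : ℚ) / N.α k - (κ + (if k = 0 then (ε : ℚ) else 0)) := by
    intro k
    have h3 := (hα k).ne'
    unfold xx
    by_cases hk : k = 0
    · rw [if_pos hk, if_pos hk]
      push_cast
      field_simp
      ring
    · rw [if_neg hk, if_neg hk]
      push_cast
      field_simp
      ring
  rw [hx, hx, hx] at hl
  have hy1 : (v j : ℚ) / N.α j < 1 := by
    rw [div_lt_one (hα j)]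
    exact_mod_cast h1
  have hy2 : (v (j + 1) : ℚ) / N.α (j + 1) < 1 := by
    rw [div_lt_one (hα _)]
    exact_mod_cast h2
  have hy3 : (0 : ℚ) ≤ (v (j + 3) : ℚ) / N.α (j + 3) := by
    have := (hα (j + 3)).le
    positivity
  have hq : ∀ k : Fin 5, (0 : ℚ) ≤ (if k = 0 then (ε : ℚ) else 0) ∧
      (if k = 0 then (ε : ℚ) else 0) ≤ 1 := by
    intro k
    have h3 : (ε : ℚ) ≤ 1 := by exact_mod_cast hε
    have h4 : (0 : ℚ) ≤ ε := Nat.cast_nonneg _
    split_ifs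
    · exact ⟨h4, h3⟩
    · exact ⟨le_refl _, zero_le_one⟩
  have hκ' : (3 : ℚ) ≤ κ := by exact_mod_cast hκ
  have hu0 := U.u0 (j + 3)
  have hu1 := U.u1 (j + 3)
  have q1 := hq j
  have q2 := hq (j + 1)
  have q3 := hq (j + 3)
  generalize (v (j + 3) : ℚ) / N.α (j + 3) = y3 at hl hy3
  generalize (v (j + 1) : ℚ) / N.α (j + 1) = y2 at hl hy2
  generalize (v j : ℚ) / N.α j = y1 at hl hy1
  generalize (if j = 0 then (ε : ℚ) else 0) = e1 at hl q1
  generalize (if j + 1 = 0 then (ε : ℚ) else 0) = e2 at hl q2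
  generalize (if j + 3 = 0 then (ε : ℚ) else 0) = e3 at hl q3
  generalize U.u (j + 3) = u at hl hu0 hu1
  have h5 : 0 ≤ u * y3 := mul_nonneg hu0.le hy3
  have h6 : u * (κ + e3) ≤ κ + e3 := by
    have : 0 ≤ κ + e3 := by linarith [q3.1]
    nlinarith
  have h7 : y2 - (κ + e2) + (y1 - (κ + e1)) = u * y3 - u * (κ + e3) := by
    rw [← mul_sub]; exact hl
  linarith [q1.1, q2.1, q3.2]

end H938TB
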