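import Pool.Agent.H938R2.TB.C5b

set_option autoImplicit false

open MvPolynomial

namespace H938TB


namespace C5caux

theorem weight_eq (ω : Fin 5 → M) (v : Fin 5 →₀ ℕ) :
    Finsupp.weight ω v = ∑ i, v i • ω i := by
  rw [Finsupp.weight_apply, Finsupp.sum_fintype]
  intro i
  simp

end C5caux

theorem upper (N : Num) (U : UU N) (κ : ℕ) (hκ : 3 ≤ κ) :
    nS N.ω (dl N κ) (Finsupp.single 1 (N.p 0) + Finsupp.single 3 (N.q 0))
      (Finsupp.single 4 (N.p' 0) + Finsupp.single 2 (N.q' 0)) ≤ N.p 0 * N.p' 0 := by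
  have hamp : ∀ v ∈ Mon N.ω (dl N κ), ∀ j : Fin 5, N.α j ≤ v j ∨ N.α (j + 1) ≤ v (j + 1) := by
    intro v hv j
    refine amp N U κ hκ 0 (by norm_num) v ?_ j
    simpa using hv
  have e1 : N.p 0 ≤ N.α 1 := by
    have := N.s1 0
    have h : (0 : Fin 5) + 1 = 1 := by decide
    rw [h] at this
    omega
  have e2 : N.q 0 ≤ N.α 3 := by
    have := N.s2 0
    have h : (0 : Fin 5) - 2 = 3 := by decide
    rw [h] at this
    omega
  have e3 : N.p' 0 ≤ N.α 4 := by
    have := N.s2 1
    have h : (1 : Fin 5) - 2 = 4 := by decide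
    have h' : (1 : Fin 5) - 1 = 0 := by decide
    rw [h, h'] at this
    omega
  have e4 : N.q' 0 ≤ N.α 2 := by
    have := N.s1 1
    have h : (1 : Fin 5) + 1 = 2 := by decide
    have h' : (1 : Fin 5) - 1 = 0 := by decide
    rw [h, h'] at this
    omega
  have hcard : N.p 0 * N.p' 0 =
      ((Finset.range (N.p 0) ×ˢ Finset.range (N.p' 0) : Finset (ℕ × ℕ)) : Set (ℕ × ℕ)).ncard := by
    rw [Set.ncard_coe_finset, Finset.card_product, Finset.card_range, Finset.card_range]
  rw [hcard]
  refine Set.ncard_le_ncard_of_injOn (fun v : Fin 5 →₀ ℕ => (v 1, v 4)) ?_ ?_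
    (Finset.finite_toSet _)
  · rintro v ⟨hv, hV, hV'⟩
    have hV1 : v 1 < N.p 0 ∨ v 3 < N.q 0 := by
      by_contra hcon
      push Not at hcon
      apply hV
      intro i
      rw [Finsupp.add_apply, Finsupp.single_apply, Finsupp.single_apply]
      fin_cases i <;> simp <;> omega
    have hV2 : v 4 < N.p' 0 ∨ v 2 < N.q' 0 := by
      by_contra hcon
      push Not at hcon
      apply hV'
      intro i
      rw [Finsupp.add_apply, Finsupp.single_apply, Finsupp.single_apply]
      fin_cases i <;> simp <;> omega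
    have a1 := hamp v hv 1
    have a2 := hamp v hv 2
    have a3 := hamp v hv 3
    have h12 : (1 : Fin 5) + 1 = 2 := by decide
    have h23 : (2 : Fin 5) + 1 = 3 := by decide
    have h34 : (3 : Fin 5) + 1 = 4 := by decide
    rw [h12] at a1
    rw [h23] at a2
    rw [h34] at a3
    simp only [Finset.coe_product, Finset.coe_range, Set.mem_prod, Set.mem_Iio]
    constructor
    · rcases hV1 with h | h
      · exact h
      · exfalso
        rcases hV2 with h' | h'
        · rcases a3 with h3 | h3 <;> omega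
        · rcases a2 with h3 | h3 <;> omega
    · rcases hV2 with h | h
      · exact h
      · exfalso
        rcases hV1 with h' | h'
        · rcases a1 with h3 | h3 <;> omega
        · rcases a2 with h3 | h3 <;> omega
  · rintro v ⟨hv, -, -⟩ v' ⟨hv', -, -⟩ heq
    simp only [Prod.mk.injEq] at heq
    obtain ⟨h1, h4⟩ := heq
    have hw : Finsupp.weight N.ω v = Finsupp.weight N.ω v' := by
      rw [show Finsupp.weight N.ω v = dl N κ from hv, show Finsupp.weight N.ω v' = dl N κ from hv']
    rw [C5caux.weight_eq, C5caux.weight_eq] at hw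
    simp only [Fin.sum_univ_five] at hw
    rw [h1, h4] at hw
    have hz : ((v 0 : ℤ) - v' 0) • N.ω 0 + ((v 2 : ℤ) - v' 2) • N.ω 2 +
        ((v 3 : ℤ) - v' 3) • N.ω 3 = 0 := by
      simp only [sub_smul, natCast_zsmul]
      have hw' := sub_eq_zero.2 hw
      rw [← hw']
      abel
    obtain ⟨g0, g2, g3⟩ := N.hind 0 2 3 (by decide) (by decide) (by decide) _ _ _ hz
    ext i
    fin_cases i
    · show v 0 = v' 0
      omega
    · exact h1
    · show v 2 = v' 2
      omega
    · show v 3 = v' 3
      omega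
    · exact h4

end H938TB
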