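import Pool.Agent.H938R2.TB.Base

/-! Task C5d (helper267): the lower bound for the number of monomials. -/

set_option autoImplicit false

open MvPolynomial

namespace H938TB

namespace C5daux

theorem weight_eq (ω : Fin 5 → M) (v : Fin 5 →₀ ℕ) :
    Finsupp.weight ω v = ∑ j, (v j : ℤ) • ω j := by
  rw [Finsupp.weight_apply, Finsupp.sum_fintype _ _ (fun i => by simp)]
  refine Finset.sum_congr rfl fun j _ => ?_
  rw [natCast_zsmul]

theorem mon_finite (ω : Fin 5 → M) (hpos : ∀ i, 0 < (ω i).1) (δ : M) : (Mon ω δ).Finite := by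
  refine (Set.finite_Iic (Finsupp.equivFunOnFinite.symm fun _ : Fin 5 => δ.1.toNat)).subset ?_
  intro v hv
  have h1 : Finsupp.weight ω v = δ := hv
  rw [weight_eq] at h1
  have h2 : ∑ j, (v j : ℤ) * (ω j).1 = δ.1 := by
    have h3 := congrArg Prod.fst h1
    rw [Prod.fst_sum] at h3
    rw [← h3]
    exact Finset.sum_congr rfl fun j _ => by simp
  intro i
  have h4 : (v i : ℤ) * (ω i).1 ≤ ∑ j, (v j : ℤ) * (ω j).1 :=
    Finset.single_le_sum (f := fun j => (v j : ℤ) * (ω j).1)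
      (fun j _ => mul_nonneg (Int.natCast_nonneg _) (hpos j).le) (Finset.mem_univ i)
  have h5 : (v i : ℤ) ≤ (v i : ℤ) * (ω i).1 :=
    le_mul_of_one_le_right (Int.natCast_nonneg _) (hpos i)
  have h6 : (v i : ℤ) ≤ δ.1 := by linarith
  show v i ≤ δ.1.toNat
  omega

theorem ar {k u1 u3 u4 Y0 Y1 Y2 Y3 Y4 : ℚ} (hk : 3 ≤ k)
    (l1 : Y4 - k + (Y3 - k) = u1 * (Y1 - k)) (l3 : Y1 - k + (Y0 - k - 1) = u3 * (Y3 - k))
    (l4 : Y2 - k + (Y1 - k) = u4 * (Y4 - k)) (y1a : 0 ≤ Y1) (y1b : Y1 < 1) (y3a : 0 ≤ Y3)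
    (y3b : Y3 < 1) (u1a : 0 < u1) (u1b : u1 < 1) (u3a : 0 < u3) (u3b : u3 < 1) (u4a : 0 < u4)
    (u4b : u4 < 1) : 0 ≤ Y4 ∧ 0 ≤ Y0 ∧ 0 ≤ Y2 := by
  have a1 : 0 ≤ u1 * Y1 := mul_nonneg u1a.le y1a
  have a2 : u1 * k ≤ k := by nlinarith
  have a3 : 0 ≤ u3 * Y3 := mul_nonneg u3a.le y3a
  have a4 : u3 * k ≤ k := by nlinarith
  have h4 : k - 1 ≤ Y4 := by linarith
  have h0 : 0 ≤ Y0 := by linarith
  have a5 : 0 ≤ u4 * (Y4 - k + 1) := mul_nonneg u4a.le (by linarith)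
  have h2 : 0 ≤ Y2 := by linarith
  exact ⟨by linarith, h0, h2⟩

/-- for `(a, b)` in the box there is a monomial -/
theorem exists_mon (N : Num) (U : UU N) (κ : ℕ) (hκ : 3 ≤ κ)
    (h1 : ∃ a b d : ℤ, N.ω 1 = a • N.ω 0 + b • N.ω 2 + d • N.ω 4)
    (h3 : ∃ a b d : ℤ, N.ω 3 = a • N.ω 0 + b • N.ω 2 + d • N.ω 4) (a b : ℕ)
    (ha : a < N.q 3) (hb : b < N.p 2) :
    ∃ v : Fin 5 →₀ ℕ, v ∈ Mon N.ω (dl N κ + WW N.ω N.α 0) ∧ v 1 = a ∧ v 3 = b := by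
  obtain ⟨a1, b1, d1, e1⟩ := h1
  obtain ⟨a3, b3, d3, e3⟩ := h3
  have hαq : ∀ i, (0 : ℚ) < N.α i := fun i => by exact_mod_cast N.hα i
  -- the solution in integers
  obtain ⟨z, hz0, hz1, hz2, hz3, hz4⟩ : ∃ z : Fin 5 → ℤ,
      z 0 = κ * N.α 0 + N.α 0 + (κ * N.α 1 - a) * a1 + (κ * N.α 3 - b) * a3 ∧ z 1 = a ∧
      z 2 = κ * N.α 2 + (κ * N.α 1 - a) * b1 + (κ * N.α 3 - b) * b3 ∧ z 3 = b ∧
      z 4 = κ * N.α 4 + (κ * N.α 1 - a) * d1 + (κ * N.α 3 - b) * d3 :=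
    ⟨![κ * N.α 0 + N.α 0 + (κ * N.α 1 - a) * a1 + (κ * N.α 3 - b) * a3, a,
      κ * N.α 2 + (κ * N.α 1 - a) * b1 + (κ * N.α 3 - b) * b3, b,
      κ * N.α 4 + (κ * N.α 1 - a) * d1 + (κ * N.α 3 - b) * d3], rfl, rfl, rfl, rfl, rfl⟩
  have hsum : ∑ j, z j • N.ω j = dl N κ + WW N.ω N.α 0 := by
    unfold dl WW
    simp only [Fin.sum_univ_five]
    rw [hz0, hz1, hz2, hz3, hz4, e1, e3]
    module
  -- the deviations
  obtain ⟨x, hx0, hxj⟩ : ∃ x : Fin 5 → ℤ, x 0 = z 0 - κ * N.α 0 - N.α 0 ∧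
      ∀ j, j ≠ 0 → x j = z j - κ * N.α j :=
    ⟨fun j => if j = 0 then z 0 - κ * N.α 0 - N.α 0 else z j - κ * N.α j, if_pos rfl,
      fun j hj => if_neg hj⟩
  have hx : ∑ j, x j • N.ω j = 0 := by
    have h4 : ∑ j, x j • N.ω j = ∑ j, z j • N.ω j - (dl N κ + WW N.ω N.α 0) := by
      unfold dl WW
      simp only [Fin.sum_univ_five]
      rw [hx0, hxj 1 (by decide), hxj 2 (by decide), hxj 3 (by decide), hxj 4 (by decide)]
      module
    rw [h4, hsum, sub_self]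
  have l1 := U.lin x hx 1
  have l3 := U.lin x hx 3
  have l4 := U.lin x hx 4
  have i1 : (1 : Fin 5) - 2 = 4 := by decide
  have i2 : (1 : Fin 5) + 2 = 3 := by decide
  have i3 : (3 : Fin 5) - 2 = 1 := by decide
  have i4 : (3 : Fin 5) + 2 = 0 := by decide
  have i5 : (4 : Fin 5) - 2 = 2 := by decide
  have i6 : (4 : Fin 5) + 2 = 1 := by decide
  rw [i1, i2] at l1
  rw [i3, i4] at l3
  rw [i5, i6] at l4
  -- the normalised values
  have hy : ∀ j, j ≠ 0 → (x j : ℚ) / N.α j = (z j : ℚ) / N.α j - κ := by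
    intro j hj
    have h4 := (hαq j).ne'
    rw [hxj j hj]
    push_cast
    field_simp
  have hy0 : (x 0 : ℚ) / N.α 0 = (z 0 : ℚ) / N.α 0 - κ - 1 := by
    have h4 := (hαq 0).ne'
    rw [hx0]
    push_cast
    field_simp
  rw [hy 4 (by decide), hy 3 (by decide), hy 1 (by decide)] at l1
  rw [hy 1 (by decide), hy0, hy 3 (by decide)] at l3
  rw [hy 2 (by decide), hy 1 (by decide), hy 4 (by decide)] at l4
  have hκ' : (3 : ℚ) ≤ κ := by exact_mod_cast hκ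
  have y1 : (0 : ℚ) ≤ (z 1 : ℚ) / N.α 1 ∧ (z 1 : ℚ) / N.α 1 < 1 := by
    refine ⟨div_nonneg (by rw [hz1]; positivity) (hαq 1).le, ?_⟩
    rw [div_lt_one (hαq 1), hz1]
    have h5 := U.hq 3
    rw [i3] at h5
    have h6 : (a : ℚ) < N.q 3 := by exact_mod_cast ha
    have h7 : (N.α 1 : ℚ) * U.u 3 ≤ N.α 1 := by
      have := U.u1 3
      nlinarith [hαq 1]
    push_cast
    linarith
  have y3 : (0 : ℚ) ≤ (z 3 : ℚ) / N.α 3 ∧ (z 3 : ℚ) / N.α 3 < 1 := by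
    refine ⟨div_nonneg (by rw [hz3]; positivity) (hαq 3).le, ?_⟩
    rw [div_lt_one (hαq 3), hz3]
    have h5 := U.hp 2
    have i7 : (2 : Fin 5) + 1 = 3 := by decide
    have i8 : (2 : Fin 5) - 1 = 1 := by decide
    rw [i7, i8] at h5
    have h6 : (b : ℚ) < N.p 2 := by exact_mod_cast hb
    have h7 : (N.α 3 : ℚ) * (1 - U.u 1) ≤ N.α 3 := by
      have := U.u0 1
      nlinarith [hαq 3]
    push_cast
    linarith
  obtain ⟨y1a, y1b⟩ := y1
  obtain ⟨y3a, y3b⟩ := y3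
  obtain ⟨Y4, Y0, Y2⟩ := ar hκ' l1 l3 l4 y1a y1b y3a y3b (U.u0 1) (U.u1 1) (U.u0 3) (U.u1 3)
    (U.u0 4) (U.u1 4)
  have pos : ∀ j, (0 : ℚ) ≤ (z j : ℚ) / N.α j → 0 ≤ z j := by
    intro j hj
    have h5 : (0 : ℚ) ≤ z j := by
      have h6 := mul_nonneg hj (hαq j).le
      rwa [div_mul_cancel₀ _ (hαq j).ne'] at h6
    exact_mod_cast h5
  have hz : ∀ j, 0 ≤ z j := by
    intro j
    fin_cases j
    · exact pos 0 Y0
    · exact hz1 ▸ Int.natCast_nonneg a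
    · exact pos 2 Y2
    · exact hz3 ▸ Int.natCast_nonneg b
    · exact pos 4 Y4
  refine ⟨Finsupp.equivFunOnFinite.symm fun j => (z j).toNat, ?_, ?_, ?_⟩
  · show Finsupp.weight N.ω _ = _
    rw [weight_eq, ← hsum]
    refine Finset.sum_congr rfl fun j _ => ?_
    congr 1
    exact Int.toNat_of_nonneg (hz j)
  · show (z 1).toNat = a
    rw [hz1]; exact Int.toNat_natCast a
  · show (z 3).toNat = b
    rw [hz3]; exact Int.toNat_natCast b

end C5daux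

theorem lower (N : Num) (U : UU N) (κ : ℕ) (hκ : 3 ≤ κ)
    (h1 : ∃ a b d : ℤ, N.ω 1 = a • N.ω 0 + b • N.ω 2 + d • N.ω 4)
    (h3 : ∃ a b d : ℤ, N.ω 3 = a • N.ω 0 + b • N.ω 2 + d • N.ω 4) :
    N.q 3 * N.p 2 ≤ nS N.ω (dl N κ + WW N.ω N.α 0)
      (Finsupp.single 3 (N.p 2) + Finsupp.single 0 (N.q 2))
      (Finsupp.single 4 (N.p 3) + Finsupp.single 1 (N.q 3)) := by
  classical
  have hex : ∀ ab : ℕ × ℕ, ∃ v : Fin 5 →₀ ℕ, ab ∈ Finset.range (N.q 3) ×ˢ Finset.range (N.p 2) →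
      v ∈ Mon N.ω (dl N κ + WW N.ω N.α 0) ∧ v 1 = ab.1 ∧ v 3 = ab.2 := by
    intro ab
    by_cases h : ab ∈ Finset.range (N.q 3) ×ˢ Finset.range (N.p 2)
    · rw [Finset.mem_product, Finset.mem_range, Finset.mem_range] at h
      obtain ⟨v, hv⟩ := C5daux.exists_mon N U κ hκ h1 h3 ab.1 ab.2 h.1 h.2
      exact ⟨v, fun _ => hv⟩
    · exact ⟨0, fun h' => absurd h' h⟩
  choose f hf using hex
  have hinj : Set.InjOn f (Finset.range (N.q 3) ×ˢ Finset.range (N.p 2) : Finset (ℕ × ℕ)) := by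
    intro ab hab cd hcd h
    have e1 := hf ab hab
    have e2 := hf cd hcd
    rw [h] at e1
    exact Prod.ext (e1.2.1.symm.trans e2.2.1) (e1.2.2.symm.trans e2.2.2)
  have hcard : ((Finset.range (N.q 3) ×ˢ Finset.range (N.p 2)).image f).card =
      N.q 3 * N.p 2 := by
    rw [Finset.card_image_of_injOn hinj, Finset.card_product, Finset.card_range,
      Finset.card_range]
  rw [← hcard, ← Set.ncard_coe_finset]
  unfold nS
  refine Set.ncard_le_ncard ?_ ((C5daux.mon_finite N.ω N.hpos _).subset fun v hv => hv.1)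
  intro v hv
  rw [Finset.mem_coe, Finset.mem_image] at hv
  obtain ⟨ab, hab, rfl⟩ := hv
  have e1 := hf ab hab
  rw [Finset.mem_product, Finset.mem_range, Finset.mem_range] at hab
  refine ⟨e1.1, fun hle => ?_, fun hle => ?_⟩
  · have h5 := hle 3
    rw [Finsupp.add_apply, Finsupp.single_eq_same, e1.2.2] at h5
    omega
  · have h5 := hle 1
    rw [Finsupp.add_apply, Finsupp.single_eq_same, e1.2.1] at h5
    omega

end H938TB
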