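import Pool.Agent.H938R2.TB.Base
import Pool.Agent.H938R2.TB.C1b

set_option autoImplicit false

open MvPolynomial

namespace H938TB


/-- Cramer's rule, qualitatively. -/
theorem C7aux.cramer (x y z w : M)
    (h : ∀ a b d : ℤ, a • x + b • y + d • z = 0 → a = 0 ∧ b = 0 ∧ d = 0) :
    ∃ t : ℕ, 0 < t ∧ ∃ a b d : ℤ, (t : ℤ) • w = a • x + b • y + d • z := by
  have hfin : Module.finrank ℤ M = 3 := by
    simp [M, Module.finrank_prod]
  have hnot : ¬ LinearIndependent ℤ ![x, y, z, w] := by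
    intro hl
    have := hl.fintype_card_le_finrank
    rw [hfin, Fintype.card_fin] at this
    omega
  rw [Fintype.not_linearIndependent_iff] at hnot
  obtain ⟨g, hg, i, hi⟩ := hnot
  rw [Fin.sum_univ_four] at hg
  simp only [Matrix.cons_val] at hg
  have h3 : g 3 ≠ 0 := by
    intro h0
    rw [h0, zero_smul, add_zero] at hg
    obtain ⟨h1, h2, h4⟩ := h _ _ _ hg
    apply hi
    fin_cases i
    · exact h1
    · exact h2
    · exact h4
    · exact h0
  refine ⟨(g 3).natAbs, Int.natAbs_pos.2 h3, ?_⟩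
  have hw : g 3 • w = (-g 0) • x + (-g 1) • y + (-g 2) • z := by
    rw [neg_smul, neg_smul, neg_smul]
    rw [← sub_eq_zero]
    rw [← hg]
    abel
  rcases Int.natAbs_eq (g 3) with h5 | h5
  · exact ⟨-g 0, -g 1, -g 2, by rw [← h5]; exact hw⟩
  · refine ⟨g 0, g 1, g 2, ?_⟩
    have h6 : ((g 3).natAbs : ℤ) = - g 3 := by omega
    rw [h6, neg_smul, hw]
    simp only [neg_smul]
    abel

/-- weighted homogeneity after the substitution `x_j ↦ x_j ^ m_j`. -/
theorem C7aux.hom {ω ω' : Fin 5 → M} {m : Fin 5 → ℕ} {L : ℤ}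
    (h : ∀ i, (m i : ℤ) • ω' i = L • ω i) {F : S5} {φ : M} (hF : IsWeightedHomogeneous ω F φ) :
    IsWeightedHomogeneous ω' (aeval (fun j => (X j : S5) ^ m j) F) (L • φ) := by
  rw [aeval_def, eval₂_eq']
  rw [← mem_weightedHomogeneousSubmodule]
  apply Submodule.sum_mem
  intro d hd
  rw [mem_weightedHomogeneousSubmodule]
  have hd' : Finsupp.weight ω d = φ := hF (mem_support_iff.1 hd)
  have h1 : ∏ i, ((X i : S5) ^ m i) ^ d i =
      monomial (Finsupp.equivFunOnFinite.symm (fun i => m i * d i)) 1 := by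
    rw [monomial_eq, C_1, one_mul, Finsupp.prod_fintype _ _ (fun i => pow_zero _)]
    apply Finset.prod_congr rfl
    intro i _
    rw [← pow_mul]
    rfl
  rw [h1, algebraMap_eq, C_mul_monomial]
  apply isWeightedHomogeneous_monomial
  rw [← hd', Finsupp.weight_apply, Finsupp.weight_apply,
    Finsupp.sum_fintype _ _ (by intro i; exact zero_smul _ _),
    Finsupp.sum_fintype _ _ (by intro i; exact zero_smul _ _), Finset.smul_sum]
  apply Finset.sum_congr rfl
  intro i _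
  rw [Finsupp.equivFunOnFinite_symm_apply_apply]
  have h2 := congrArg (fun z => (d i : ℤ) • z) (h i)
  simp only [smul_smul] at h2
  rw [← natCast_zsmul, ← natCast_zsmul, smul_smul, mul_comm L, ← h2]
  push_cast
  rw [mul_comm]

/-- the general substitution. -/
noncomputable def C7aux.sub (K : CoreData) (m : Fin 5 → ℕ) (hm : ∀ i, 1 ≤ m i) (ω' : Fin 5 → M)
    (L : ℤ) (hL : 0 < L) (h : ∀ i, (m i : ℤ) • ω' i = L • K.ω i) : CoreData where
  ω := ω'
  α := fun i => m i * K.α i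
  c := K.c
  F := fun i => aeval (fun j => (X j : S5) ^ m j) (K.F i)
  hα := fun i => Nat.mul_pos (hm i) (K.hα i)
  hc := K.hc
  hpos := by
    intro i
    have h1 := congrArg Prod.fst (h i)
    simp only [Prod.smul_fst, smul_eq_mul] at h1
    have h2 := mul_pos hL (K.hpos i)
    rw [← h1] at h2
    have h3 : (0 : ℤ) < m i := by exact_mod_cast hm i
    exact pos_of_mul_pos_right h2 h3.le
  hind := by
    intro i j k hij hjk hik a b d he
    have hi : (0 : ℤ) < m i := by exact_mod_cast hm i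
    have hj : (0 : ℤ) < m j := by exact_mod_cast hm j
    have hk : (0 : ℤ) < m k := by exact_mod_cast hm k
    have h1 : L • ((a * m j * m k) • K.ω i + (b * m i * m k) • K.ω j +
        (d * m i * m j) • K.ω k) = 0 := by
      have h2 : ((m i : ℤ) * m j * m k) • (a • ω' i + b • ω' j + d • ω' k) = 0 := by
        rw [he, smul_zero]
      rw [← h2]
      simp only [smul_add, smul_smul]
      have hi' : (L * (a * m j * m k)) • K.ω i = (a * m j * m k) • (L • K.ω i) := by
        rw [smul_smul, mul_comm L]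
      have hj' : (L * (b * m i * m k)) • K.ω j = (b * m i * m k) • (L • K.ω j) := by
        rw [smul_smul, mul_comm L]
      have hk' : (L * (d * m i * m j)) • K.ω k = (d * m i * m j) • (L • K.ω k) := by
        rw [smul_smul, mul_comm L]
      rw [hi', hj', hk', ← h i, ← h j, ← h k]
      simp only [smul_smul]
      congr 1
      · congr 1
        · congr 1
          ring
        · congr 1
          ring
      · congr 1
        ring
    rw [smul_eq_zero] at h1
    rcases h1 with h1 | h1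
    · exact absurd h1 hL.ne'
    · obtain ⟨ha, hb, hd⟩ := K.hind i j k hij hjk hik _ _ _ h1
      have hi' : m i ≠ 0 := by have := hm i; omega
      have hj' : m j ≠ 0 := by have := hm j; omega
      have hk' : m k ≠ 0 := by have := hm k; omega
      refine ⟨?_, ?_, ?_⟩
      · simpa [hj', hk'] using ha
      · simpa [hi', hk'] using hb
      · simpa [hi', hj'] using hd
  hF := by
    intro i
    have h1 : ∀ j, WW ω' (fun i => m i * K.α i) j = L • WW K.ω K.α j := by
      intro j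
      unfold WW
      rw [smul_smul, mul_comm L, ← smul_smul, ← h j, smul_smul]
      push_cast
      rw [mul_comm]
    have h2 : phi ω' (fun i => m i * K.α i) i = L • phi K.ω K.α i := by
      unfold phi
      rw [h1, h1, h1, smul_sub, smul_add]
    rw [h2]
    exact C7aux.hom h (K.hF i)
  hP := by
    intro i
    have h1 : ∀ j, aeval (fun j => (X j : S5) ^ m j) (mX K.c K.α j) =
        mX K.c (fun i => m i * K.α i) j := by
      intro j
      unfold mX
      rw [map_mul, map_pow, aeval_X, ← pow_mul]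
      congr 1
      exact aeval_C _ _
    have h2 := congrArg (aeval (fun j => (X j : S5) ^ m j)) (K.hP i)
    rw [map_add, map_mul, map_mul, map_mul, h1, h1, h1] at h2
    exact h2

theorem latt (K : CoreData) (E : Exps K) : ∃ K' : CoreData, K'.α 3 = K'.α 4 ∧
    (∃ a b d : ℤ, K'.ω 1 = a • K'.ω 0 + b • K'.ω 2 + d • K'.ω 4) ∧
    (∃ a b d : ℤ, K'.ω 3 = a • K'.ω 0 + b • K'.ω 2 + d • K'.ω 4) := by
  obtain ⟨t, ht, a, b, d, hab⟩ := C7aux.cramer (K.ω 0) (K.ω 2) (K.ω 4) (K.ω 1)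
    (K.hind 0 2 4 (by decide) (by decide) (by decide))
  have hrel : (K.α 3 : ℤ) • K.ω 3 =
      (K.α 4 : ℤ) • K.ω 4 + (E.q 4 : ℤ) • K.ω 2 - (E.q' 3 : ℤ) • K.ω 0 := by
    have h1 := (degs K E).1 4
    have h2 := E.s1 4
    have e1 : (4 : Fin 5) + 1 = 0 := rfl
    have e2 : (4 : Fin 5) - 2 = 2 := rfl
    have e3 : (4 : Fin 5) - 1 = 3 := rfl
    rw [e1, e2] at h1
    rw [e1, e3] at h2
    unfold phi WW at h1
    rw [e1, e3, ← h2] at h1
    push_cast at h1
    rw [add_smul] at h1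
    have h3 : (E.q 4 : ℤ) • K.ω 2 = (K.α 3 : ℤ) • K.ω 3 + (E.q' 3 : ℤ) • K.ω 0 -
        (K.α 4 : ℤ) • K.ω 4 := by
      have h4 : (E.q 4 : ℤ) • K.ω 2 = ((E.p 4 : ℤ) • K.ω 0 + (E.q 4 : ℤ) • K.ω 2) -
        (E.p 4 : ℤ) • K.ω 0 := by abel
      rw [h4, h1]
      abel
    rw [h3]
    abel
  have h3 := K.hα 3
  have h4 := K.hα 4
  set L : ℕ := K.α 3 * K.α 4 * t with hL
  have hLpos : 0 < L := Nat.mul_pos (Nat.mul_pos h3 h4) ht
  let m : Fin 5 → ℕ := ![L, 1, L, K.α 4 * t, K.α 3 * t]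
  let ω' : Fin 5 → M :=
    ![K.ω 0, (L : ℤ) • K.ω 1, K.ω 2, (K.α 3 : ℤ) • K.ω 3, (K.α 4 : ℤ) • K.ω 4]
  have hm : ∀ i, 1 ≤ m i := by
    intro i
    fin_cases i
    · exact hLpos
    · exact le_refl 1
    · exact hLpos
    · exact Nat.mul_pos h4 ht
    · exact Nat.mul_pos h3 ht
  have h : ∀ i, (m i : ℤ) • ω' i = (L : ℤ) • K.ω i := by
    intro i
    fin_cases i
    · rfl
    · show ((1 : ℕ) : ℤ) • ((L : ℤ) • K.ω 1) = (L : ℤ) • K.ω 1
      rw [Nat.cast_one, one_smul]
    · rfl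
    · show ((K.α 4 * t : ℕ) : ℤ) • ((K.α 3 : ℤ) • K.ω 3) = (L : ℤ) • K.ω 3
      rw [smul_smul, hL]
      congr 1
      push_cast
      ring
    · show ((K.α 3 * t : ℕ) : ℤ) • ((K.α 4 : ℤ) • K.ω 4) = (L : ℤ) • K.ω 4
      rw [smul_smul, hL]
      congr 1
      push_cast
      ring
  refine ⟨C7aux.sub K m hm ω' L (by exact_mod_cast hLpos) h, ?_, ?_, ?_⟩
  · show K.α 4 * t * K.α 3 = K.α 3 * t * K.α 4
    ring
  · refine ⟨K.α 3 * K.α 4 * a, K.α 3 * K.α 4 * b, K.α 3 * d, ?_⟩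
    show (L : ℤ) • K.ω 1 = ((K.α 3 : ℤ) * K.α 4 * a) • K.ω 0 +
      ((K.α 3 : ℤ) * K.α 4 * b) • K.ω 2 + ((K.α 3 : ℤ) * d) • ((K.α 4 : ℤ) • K.ω 4)
    have h5 : (L : ℤ) • K.ω 1 = ((K.α 3 : ℤ) * K.α 4) • ((t : ℤ) • K.ω 1) := by
      rw [smul_smul, hL]
      push_cast
      rfl
    rw [h5, hab]
    simp only [smul_add, smul_smul]
    congr 2
    ring
  · refine ⟨-(E.q' 3 : ℤ), E.q 4, 1, ?_⟩
    show (K.α 3 : ℤ) • K.ω 3 = (-(E.q' 3 : ℤ)) • K.ω 0 + (E.q 4 : ℤ) • K.ω 2 +
      (1 : ℤ) • ((K.α 4 : ℤ) • K.ω 4)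
    rw [hrel, one_smul, neg_smul]
    abel

end H938TB
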