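import Pool.Agent.H938R2.TB.C1
import Pool.Agent.H938R2.TB.C1b
import Pool.Agent.H938R2.TB.C2
import Pool.Agent.H938R2.TB.C3
import Pool.Agent.H938R2.TB.C4
import Pool.Agent.H938R2.TB.C4a
import Pool.Agent.H938R2.TB.C4c
import Pool.Agent.H938R2.TB.C5a
import Pool.Agent.H938R2.TB.C5b
import Pool.Agent.H938R2.TB.C5c
import Pool.Agent.H938R2.TB.C5d
import Pool.Agent.H938R2.TB.C7

set_option autoImplicit false

open MvPolynomial

namespace H938TB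


/-- the numerical data of a `CoreData`. -/
def mkNum (K : CoreData) (E : Exps K) : Num where
  ω := K.ω
  α := K.α
  p := E.p
  q := E.q
  p' := E.p'
  q' := E.q'
  hα := K.hα
  hpos := K.hpos
  hind := K.hind
  d1 := (degs K E).1
  d2 := (degs K E).2
  s1 := E.s1
  s2 := E.s2

theorem core (K₀ : CoreData) : False := by
  obtain ⟨E₀⟩ := exps K₀
  obtain ⟨K, h34, h1, h3⟩ := latt K₀ E₀
  obtain ⟨E⟩ := exps K
  set N := mkNum K E with hN
  obtain ⟨U⟩ := uu N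
  have hα : ∀ i, (0 : ℚ) < K.α i := fun i => by exact_mod_cast K.hα i
  have hq : 0 < E.q 0 := by
    have h := U.hq 0
    have h' : (0 : ℚ) < E.q 0 := by
      have : (E.q 0 : ℚ) = K.α (0 - 2) * U.u 0 := h
      rw [this]
      exact mul_pos (hα _) (U.u0 0)
    exact_mod_cast h'
  have hq' : 0 < E.q' 0 := by
    have h := U.hq' 0
    have h' : (0 : ℚ) < E.q' 0 := by
      have : (E.q' 0 : ℚ) = K.α (0 + 2) * U.u 0 := h
      rw [this]
      exact mul_pos (hα _) (U.u0 0)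
    exact_mod_cast h'
  obtain ⟨hcop, ht2, ht3⟩ := coprime K E hq hq'
  have hF : ∀ i, K.F i ≠ 0 := fun i h0 => E.ne i 0 (by rw [h0, map_zero])
  have hr3 : res 0 (K.F 3) = C (E.e 3) * X 4 ^ E.p 3 * X 1 ^ E.q 3 := E.r1 3
  have hs1 : E.p 3 + E.q' 2 = K.α 4 := E.s1 3
  have hs2 : E.q 3 + E.p' 2 = K.α 1 := E.s2 3
  set δ : M := dl N 3 with hδ
  have hamp : ∀ v ∈ Mon K.ω (δ + WW K.ω K.α 0), v 0 < K.α 0 → E.p 3 ≤ v 4 ∧ E.q 3 ≤ v 1 := by
    intro v hv hv0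
    have hv' : v ∈ Mon N.ω (dl N 3 + ((1 : ℕ) : ℤ) • WW N.ω N.α 0) := by
      rw [Nat.cast_one, one_smul]; exact hv
    have h4 : K.α 4 ≤ v 4 ∨ K.α 0 ≤ v 0 := amp N U 3 le_rfl 1 le_rfl v hv' 4
    have h0 : K.α 0 ≤ v 0 ∨ K.α 1 ≤ v 1 := amp N U 3 le_rfl 1 le_rfl v hv' 0
    constructor
    · rcases h4 with h | h <;> omega
    · rcases h0 with h | h <;> omega
  have hineq := ineq K hcop ht2 ht3 (hF 2) (hF 3) (E.e 3) (E.he 3) (E.p 3) (E.q 3) hr3 δ hamp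
  -- degrees of the monomials
  have hw : ∀ (i j : Fin 5) (a b : ℕ), Finsupp.weight K.ω (Finsupp.single i a + Finsupp.single j b)
      = (a : ℤ) • K.ω i + (b : ℤ) • K.ω j := by
    intro i j a b
    rw [map_add]
    simp [Finsupp.weight_apply, Finsupp.sum_single_index]
  have e1 : Finsupp.weight K.ω (Finsupp.single 1 (E.p 0) + Finsupp.single 3 (E.q 0)) =
      phi K.ω K.α 0 := (hw _ _ _ _).trans (N.d1 0)
  have e2 : Finsupp.weight K.ω (Finsupp.single 4 (E.p' 0) + Finsupp.single 2 (E.q' 0)) =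
      phi K.ω K.α 0 := (hw _ _ _ _).trans (N.d2 0)
  have e3 : Finsupp.weight K.ω (Finsupp.single 3 (E.p 2) + Finsupp.single 0 (E.q 2)) =
      phi K.ω K.α 2 := (hw _ _ _ _).trans (N.d1 2)
  have e4 : Finsupp.weight K.ω (Finsupp.single 4 (E.p 3) + Finsupp.single 1 (E.q 3)) =
      phi K.ω K.α 3 := (hw _ _ _ _).trans (N.d1 3)
  have hi1 := incl_excl K.ω K.hpos _ _ _ _ e1 e2 (by
    intro i; fin_cases i <;> simp) δ
  have hi2 := incl_excl K.ω K.hpos _ _ _ _ e3 e4 (by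
    intro i; fin_cases i <;> simp) (δ + WW K.ω K.α 0)
  have hup : nS K.ω δ (Finsupp.single 1 (E.p 0) + Finsupp.single 3 (E.q 0))
      (Finsupp.single 4 (E.p' 0) + Finsupp.single 2 (E.q' 0)) ≤ E.p 0 * E.p' 0 :=
    upper N U 3 le_rfl
  have hlo : E.q 3 * E.p 2 ≤ nS K.ω (δ + WW K.ω K.α 0)
      (Finsupp.single 3 (E.p 2) + Finsupp.single 0 (E.q 2))
      (Finsupp.single 4 (E.p 3) + Finsupp.single 1 (E.q 3)) :=
    lower N U 3 le_rfl h1 h3
  have hfin : E.q 3 * E.p 2 ≤ E.p 0 * E.p' 0 := by omega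
  -- the numerical contradiction
  have f1 : (E.q 3 : ℚ) = K.α 1 * U.u 3 := U.hq 3
  have f2 : (E.p 2 : ℚ) = K.α 3 * (1 - U.u 1) := U.hp 2
  have f3 : (E.p 0 : ℚ) = K.α 1 * (1 - U.u 4) := U.hp 0
  have f4 : (E.p' 0 : ℚ) = K.α 4 * (1 - U.u 1) := U.hp' 0
  have hfin' : (E.q 3 : ℚ) * E.p 2 ≤ E.p 0 * E.p' 0 := by exact_mod_cast hfin
  rw [f1, f2, f3, f4, h34] at hfin'
  have g1 : (0 : ℚ) < K.α 1 * (K.α 4 * (1 - U.u 1)) :=
    mul_pos (hα 1) (mul_pos (hα 4) (by linarith [U.u1 1]))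
  have g2 : U.u 3 ≤ 1 - U.u 4 := by
    by_contra hcon
    push Not at hcon
    have := mul_lt_mul_of_pos_left hcon g1
    nlinarith
  have g3 : U.u 3 + U.u 2 * U.u 4 = 1 := U.rel 3
  have g4 : U.u 2 * U.u 4 < U.u 4 := by nlinarith [U.u1 2, U.u0 4]
  linarith

end H938TB
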