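import Pool.Agent.H938R2.TB.Base

set_option autoImplicit false

open MvPolynomial

namespace H938TB.Stub

/- ===== TASK C1 ===== -/
theorem exps (K : CoreData) : Nonempty (Exps K) := by
  sorry

/- ===== TASK C1b ===== -/
theorem degs (K : CoreData) (E : Exps K) :
    (∀ i, (E.p i : ℤ) • K.ω (i + 1) + (E.q i : ℤ) • K.ω (i - 2) = phi K.ω K.α i) ∧
    (∀ i, (E.p' i : ℤ) • K.ω (i - 1) + (E.q' i : ℤ) • K.ω (i + 2) = phi K.ω K.α i) := by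
  sorry

/- ===== TASK C2 ===== -/
theorem uu (N : Num) : Nonempty (UU N) := by
  sorry

/- ===== TASK C3 ===== -/
theorem coprime (K : CoreData) (E : Exps K) (hq : 0 < E.q 0) (hq' : 0 < E.q' 0) :
    IsRelPrime (th 2 (K.F 0)) (th 3 (K.F 0)) ∧ th 2 (K.F 0) ≠ 0 ∧ th 3 (K.F 0) ≠ 0 := by
  sorry

/- ===== TASK C4a ===== -/
theorem finrank_piece (ω : Fin 5 → M) (hpos : ∀ i, 0 < (ω i).1) (δ : M) :
    FiniteDimensional ℂ (weightedHomogeneousSubmodule ℂ ω δ) ∧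
    Module.finrank ℂ (weightedHomogeneousSubmodule ℂ ω δ) = nM ω δ ∧ (Mon ω δ).Finite := by
  sorry

theorem rank_coprime (ω : Fin 5 → M) (hpos : ∀ i, 0 < (ω i).1) (A B : S5) (a b : M)
    (hA : IsWeightedHomogeneous ω A a) (hB : IsWeightedHomogeneous ω B b)
    (hA0 : A ≠ 0) (hB0 : B ≠ 0) (hAB : IsRelPrime A B) (δ : M) :
    Module.finrank ℂ (Sub ω A B a b δ) + nM ω (δ - a - b) = nM ω (δ - a) + nM ω (δ - b) := by
  sorry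

theorem rank_any (ω : Fin 5 → M) (hpos : ∀ i, 0 < (ω i).1) (A B : S5) (a b : M)
    (hA : IsWeightedHomogeneous ω A a) (hB : IsWeightedHomogeneous ω B b)
    (hA0 : A ≠ 0) (δ : M) :
    Module.finrank ℂ (Sub ω A B a b δ) + nM ω (δ - a - b) ≤ nM ω (δ - a) + nM ω (δ - b) := by
  sorry

/- ===== TASK C4c ===== -/
/-- reduction modulo `F 3`, whose restriction to `x_0 = 0` is a monomial. -/
theorem surj (K : CoreData) (e : ℂ) (he : e ≠ 0) (p q : ℕ)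
    (hF3 : res 0 (K.F 3) = C e * X 4 ^ p * X 1 ^ q) (δ : M)
    (hamp : ∀ v ∈ Mon K.ω (δ + WW K.ω K.α 0), v 0 < K.α 0 → p ≤ v 4 ∧ q ≤ v 1)
    (g : S5) (hg : IsWeightedHomogeneous K.ω g (δ + WW K.ω K.α 0)) :
    ∃ h f : S5, IsWeightedHomogeneous K.ω h δ ∧
      IsWeightedHomogeneous K.ω f (δ + WW K.ω K.α 0 - phi K.ω K.α 3) ∧
      g = mX K.c K.α 0 * h + K.F 3 * f := by
  sorry

/- ===== TASK C4 ===== -/
theorem ineq (K : CoreData) (hcop : IsRelPrime (th 2 (K.F 0)) (th 3 (K.F 0)))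
    (h2 : th 2 (K.F 0) ≠ 0) (h3 : th 3 (K.F 0) ≠ 0) (hF2 : K.F 2 ≠ 0) (hF3' : K.F 3 ≠ 0)
    (e : ℂ) (he : e ≠ 0) (p q : ℕ)
    (hF3 : res 0 (K.F 3) = C e * X 4 ^ p * X 1 ^ q) (δ : M)
    (hamp : ∀ v ∈ Mon K.ω (δ + WW K.ω K.α 0), v 0 < K.α 0 → p ≤ v 4 ∧ q ≤ v 1) :
    2 * nM K.ω (δ - phi K.ω K.α 0) + nM K.ω (δ + WW K.ω K.α 0) +
      nM K.ω (δ + WW K.ω K.α 0 - phi K.ω K.α 2 - phi K.ω K.α 3) ≤
    nM K.ω δ + nM K.ω (δ - phi K.ω K.α 0 - phi K.ω K.α 0) +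
      nM K.ω (δ + WW K.ω K.α 0 - phi K.ω K.α 2) +
      nM K.ω (δ + WW K.ω K.α 0 - phi K.ω K.α 3) := by
  sorry

/- ===== TASK C5a ===== -/
theorem incl_excl (ω : Fin 5 → M) (hpos : ∀ i, 0 < (ω i).1) (a b : M) (V V' : Fin 5 →₀ ℕ)
    (hV : Finsupp.weight ω V = a) (hV' : Finsupp.weight ω V' = b)
    (hdis : ∀ i, V i = 0 ∨ V' i = 0) (δ : M) :
    nM ω δ + nM ω (δ - a - b) = nM ω (δ - a) + nM ω (δ - b) + nS ω δ V V' := by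
  sorry

/- ===== TASK C5b ===== -/
/-- two cyclically adjacent exponents are not both small. -/
theorem amp (N : Num) (U : UU N) (κ : ℕ) (hκ : 3 ≤ κ) (ε : ℕ) (hε : ε ≤ 1) (v : Fin 5 →₀ ℕ)
    (hv : v ∈ Mon N.ω (dl N κ + (ε : ℤ) • WW N.ω N.α 0)) (j : Fin 5) :
    N.α j ≤ v j ∨ N.α (j + 1) ≤ v (j + 1) := by
  sorry

/- ===== TASK C5c ===== -/
theorem upper (N : Num) (U : UU N) (κ : ℕ) (hκ : 3 ≤ κ) :
    nS N.ω (dl N κ) (Finsupp.single 1 (N.p 0) + Finsupp.single 3 (N.q 0))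
      (Finsupp.single 4 (N.p' 0) + Finsupp.single 2 (N.q' 0)) ≤ N.p 0 * N.p' 0 := by
  sorry

/- ===== TASK C5d ===== -/
theorem lower (N : Num) (U : UU N) (κ : ℕ) (hκ : 3 ≤ κ)
    (h1 : ∃ a b d : ℤ, N.ω 1 = a • N.ω 0 + b • N.ω 2 + d • N.ω 4)
    (h3 : ∃ a b d : ℤ, N.ω 3 = a • N.ω 0 + b • N.ω 2 + d • N.ω 4) :
    N.q 3 * N.p 2 ≤ nS N.ω (dl N κ + WW N.ω N.α 0)
      (Finsupp.single 3 (N.p 2) + Finsupp.single 0 (N.q 2))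
      (Finsupp.single 4 (N.p 3) + Finsupp.single 1 (N.q 3)) := by
  sorry

/- ===== TASK C7 ===== -/
theorem latt (K : CoreData) (E : Exps K) : ∃ K' : CoreData, K'.α 3 = K'.α 4 ∧
    (∃ a b d : ℤ, K'.ω 1 = a • K'.ω 0 + b • K'.ω 2 + d • K'.ω 4) ∧
    (∃ a b d : ℤ, K'.ω 3 = a • K'.ω 0 + b • K'.ω 2 + d • K'.ω 4) := by
  sorry

end H938TB.Stub
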