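import Pool.Agent.H960R2.VB.Main2
import Pool.Agent.H938R2.TB.Base

/-!
# Rank two bundles on projective space with an action of a two-dimensional torus

The torus acts on `P^n` through weights `w j ∈ ℤ²` of the coordinates.  The ring
`S = ℂ[x_0, …, x_n]` is graded by `M = ℤ × ℤ²` (degree, weight), `x_j` having degree `(1, w j)`.
A bundle `E = ker (B : ⊕ O(β i) → ⊕ O(γ k))` is equivariant if the summands have weights
`b i`, `c k ∈ ℤ²` such that `B k i` is homogeneous of degree `(γ k, c k) - (β i, b i)`.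
-/

set_option autoImplicit false

open MvPolynomial H960VB

namespace H938TB

/-- vectors of polynomials. -/
abbrev Vec (a n : ℕ) := Fin a → MvPolynomial (Fin (n + 1)) ℂ

/-- `G` is in the kernel of the matrix of `E` (a section of some twist, not necessarily
homogeneous). -/
def Ker {n : ℕ} (E : Bundle2 n) (G : Vec E.a n) : Prop := ∀ k, ∑ i, E.B k i * G i = 0

/-- a (linearised) action of the torus on the bundle `E`. -/
structure EqB {n : ℕ} (E : Bundle2 n) (w : Fin (n + 1) → ℤ × ℤ) where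
  b : Fin E.a → ℤ × ℤ
  c : Fin E.c → ℤ × ℤ
  hB : ∀ k i, IsWeightedHomogeneous (tw w) (E.B k i) ((E.γ k, c k) - (E.β i, b i))

/-- `G` is a semi-invariant section of `E(τ.1)` of weight `τ.2` (possibly zero). -/
structure HSec {n : ℕ} {E : Bundle2 n} {w : Fin (n + 1) → ℤ × ℤ} (D : EqB E w) (τ : M)
    (G : Vec E.a n) : Prop where
  hom : ∀ i, IsWeightedHomogeneous (tw w) (G i) ((E.β i, D.b i) + τ)
  ker : Ker E G

/-- the wedge product of sections, with values in the polynomial ring. -/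
structure Wedge {n : ℕ} {E : Bundle2 n} {w : Fin (n + 1) → ℤ × ℤ} (D : EqB E w) where
  κ : M
  P : Fin E.a → Fin E.a → MvPolynomial (Fin (n + 1)) ℂ
  wd : Vec E.a n → Vec E.a n → MvPolynomial (Fin (n + 1)) ℂ
  /-- the Plücker vector has no zero away from the origin -/
  P_ne : ∀ x : Fin (n + 1) → ℂ, x ≠ 0 → ∃ i j, eval x (P i j) ≠ 0
  /-- definition of the wedge product -/
  eq : ∀ G G', Ker E G → Ker E G' → ∀ i j, G i * G' j - G j * G' i = wd G G' * P i j
  hom : ∀ τ τ' G G', HSec D τ G → HSec D τ' G' →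
    IsWeightedHomogeneous (tw w) (wd G G') (τ + τ' + κ)
  ind : ∀ x : Fin (n + 1) → ℂ, x ≠ 0 → ∀ G G', Ker E G → Ker E G' →
    (eval x (wd G G') ≠ 0 ↔ LinearIndependent ℂ ![evv G x, evv G' x])
  smul : ∀ p G G', Ker E G → Ker E G' → wd (fun i => p * G i) G' = p * wd G G'
  anti : ∀ G G', Ker E G → Ker E G' → wd G G' = - wd G' G
  three : ∀ G₁ G₂ G₃, Ker E G₁ → Ker E G₂ → Ker E G₃ → ∀ i,
    wd G₂ G₃ * G₁ i - wd G₁ G₃ * G₂ i + wd G₁ G₂ * G₃ i = 0
  four : ∀ G₁ G₂ G₃ G₄, Ker E G₁ → Ker E G₂ → Ker E G₃ → Ker E G₄ →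
    wd G₁ G₂ * wd G₃ G₄ - wd G₁ G₃ * wd G₂ G₄ + wd G₁ G₄ * wd G₂ G₃ = 0

section pull

variable {m n : ℕ}

theorem isWH_lsub (T : (Fin (m + 1) → ℂ) →ₗ[ℂ] (Fin (n + 1) → ℂ))
    {w : Fin (n + 1) → ℤ × ℤ} {w' : Fin (m + 1) → ℤ × ℤ}
    (h : ∀ t s, T (Pi.single t 1) s ≠ 0 → w s = w' t)
    {p : MvPolynomial (Fin (n + 1)) ℂ} {τ : M} (hp : IsWeightedHomogeneous (tw w) p τ) :
    IsWeightedHomogeneous (tw w') (lsub T p) τ := by
  have hlin : ∀ s, IsWeightedHomogeneous (tw w')
      (∑ t, C (T (Pi.single t 1) s) * X t : MvPolynomial (Fin (m + 1)) ℂ) (tw w s) := by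
    intro s
    refine IsWeightedHomogeneous.sum _ _ _ fun t _ => ?_
    by_cases h0 : T (Pi.single t 1) s = 0
    · rw [h0, C_0, zero_mul]
      exact isWeightedHomogeneous_zero _ _ _
    · have h1 : tw w s = tw w' t := by
        simp only [tw]
        rw [h t s h0]
      rw [h1]
      have h2 := (isWeightedHomogeneous_C (tw w') (T (Pi.single t 1) s)).mul
        (isWeightedHomogeneous_X ℂ (tw w') t)
      rwa [zero_add] at h2
  have hmon : ∀ (u : Fin (n + 1) →₀ ℕ) (c : ℂ),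
      IsWeightedHomogeneous (tw w') (lsub T (monomial u c)) (Finsupp.weight (tw w) u) := by
    intro u c
    rw [lsub, aeval_monomial, Finsupp.prod_fintype _ _ (by intro i; simp)]
    have h2 : IsWeightedHomogeneous (tw w')
        (∏ s, (∑ t, C (T (Pi.single t 1) s) * X t : MvPolynomial (Fin (m + 1)) ℂ) ^ u s)
        (∑ s, u s • tw w s) :=
      IsWeightedHomogeneous.prod _ _ _ fun s _ => (hlin s).pow (u s)
    have h3 := (isWeightedHomogeneous_C (tw w') c).mul h2
    rw [zero_add] at h3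
    rw [Finsupp.weight_apply, Finsupp.sum_fintype _ _ (by intro i; simp)]
    exact h3
  rw [p.as_sum, map_sum]
  refine IsWeightedHomogeneous.sum _ _ _ fun u hu => ?_
  have h4 := hmon u (coeff u p)
  rwa [hp (mem_support_iff.1 hu)] at h4

/-- the restriction of the action to a stable linear subspace. -/
def EqB.pull {E : Bundle2 n} {w : Fin (n + 1) → ℤ × ℤ} (D : EqB E w)
    (T : (Fin (m + 1) → ℂ) →ₗ[ℂ] (Fin (n + 1) → ℂ)) (hT : Function.Injective T)
    (w' : Fin (m + 1) → ℤ × ℤ) (h : ∀ t s, T (Pi.single t 1) s ≠ 0 → w s = w' t) :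
    EqB (E.pull T hT) w' where
  b := D.b
  c := D.c
  hB := fun k i => isWH_lsub T h (D.hB k i)

theorem Ker.pull {E : Bundle2 n} {G : Vec E.a n} (hG : Ker E G)
    (T : (Fin (m + 1) → ℂ) →ₗ[ℂ] (Fin (n + 1) → ℂ)) (hT : Function.Injective T) :
    Ker (E.pull T hT) (fun i => lsub T (G i)) := by
  intro k
  have h := congrArg (lsub T) (hG k)
  rw [map_sum, map_zero] at h
  refine Eq.trans (Finset.sum_congr rfl fun i _ => ?_) h
  rw [map_mul]
  rfl

theorem HSec.pull {E : Bundle2 n} {w : Fin (n + 1) → ℤ × ℤ} {D : EqB E w} {τ : M}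
    {G : Vec E.a n} (hG : HSec D τ G)
    (T : (Fin (m + 1) → ℂ) →ₗ[ℂ] (Fin (n + 1) → ℂ)) (hT : Function.Injective T)
    (w' : Fin (m + 1) → ℤ × ℤ) (h : ∀ t s, T (Pi.single t 1) s ≠ 0 → w s = w' t) :
    HSec (D.pull T hT w' h) τ (fun i => lsub T (G i)) where
  hom := fun i => isWH_lsub T h (hG.hom i)
  ker := hG.ker.pull T hT

theorem evv_lsub {a : ℕ} (G : Vec a n) (T : (Fin (m + 1) → ℂ) →ₗ[ℂ] (Fin (n + 1) → ℂ))
    (x : Fin (m + 1) → ℂ) : evv (fun i => lsub T (G i)) x = evv G (T x) := by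
  ext i
  simp [evv, eval_lsub]

end pull

section cInc

/-- the inclusion of a coordinate subspace. -/
noncomputable def cInc {m n : ℕ} (f : Fin (m + 1) → Fin (n + 1)) :
    (Fin (m + 1) → ℂ) →ₗ[ℂ] (Fin (n + 1) → ℂ) :=
  LinearMap.pi fun s => ∑ t, if f t = s then LinearMap.proj t else 0

theorem cInc_apply {m n : ℕ} (f : Fin (m + 1) → Fin (n + 1)) (x : Fin (m + 1) → ℂ)
    (s : Fin (n + 1)) : cInc f x s = ∑ t, if f t = s then x t else 0 := by
  rw [cInc, LinearMap.pi_apply, LinearMap.sum_apply]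
  refine Finset.sum_congr rfl fun t _ => ?_
  split_ifs <;> rfl

theorem cInc_single {m n : ℕ} (f : Fin (m + 1) → Fin (n + 1)) (t : Fin (m + 1)) :
    cInc f (Pi.single t 1) = Pi.single (f t) 1 := by
  classical
  ext s
  rw [cInc_apply, Finset.sum_eq_single t]
  · rw [Pi.single_eq_same, Pi.single_apply]
    by_cases h : f t = s
    · rw [if_pos h, if_pos h.symm]
    · rw [if_neg h, if_neg (fun h' => h h'.symm)]
  · intro t' _ ht'
    rw [Pi.single_eq_of_ne ht']
    simp
  · intro h; exact absurd (Finset.mem_univ _) h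

theorem cInc_apply_self {m n : ℕ} (f : Fin (m + 1) → Fin (n + 1)) (hf : Function.Injective f)
    (x : Fin (m + 1) → ℂ) (t : Fin (m + 1)) : cInc f x (f t) = x t := by
  rw [cInc_apply, Finset.sum_eq_single t]
  · rw [if_pos rfl]
  · intro t' _ ht'
    rw [if_neg (fun h => ht' (hf h))]
  · intro h; exact absurd (Finset.mem_univ _) h

theorem cInc_injective {m n : ℕ} (f : Fin (m + 1) → Fin (n + 1)) (hf : Function.Injective f) :
    Function.Injective (cInc f) := by
  intro x y h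
  ext t
  rw [← cInc_apply_self f hf x t, h, cInc_apply_self f hf]

theorem cInc_weight {m n : ℕ} (f : Fin (m + 1) → Fin (n + 1))
    (w : Fin (n + 1) → ℤ × ℤ) (t : Fin (m + 1)) (s : Fin (n + 1))
    (h : cInc f (Pi.single t 1) s ≠ 0) : w s = (w ∘ f) t := by
  rw [cInc_single] at h
  have hs : s = f t := by
    by_contra hne
    exact h (Pi.single_eq_of_ne hne 1)
  rw [hs]; rfl

theorem lsub_cInc_X {m n : ℕ} (f : Fin (m + 1) → Fin (n + 1)) (hf : Function.Injective f)
    (t : Fin (m + 1)) : lsub (cInc f) (X (f t)) = X t := by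
  rw [lsub, aeval_X, Finset.sum_eq_single t]
  · rw [cInc_single, Pi.single_eq_same, C_1, one_mul]
  · intro t' _ ht'
    rw [cInc_single, Pi.single_eq_of_ne (fun h => ht' (hf h).symm), C_0, zero_mul]
  · intro h; exact absurd (Finset.mem_univ _) h

theorem lsub_cInc_X_zero {m n : ℕ} (f : Fin (m + 1) → Fin (n + 1))
    (s : Fin (n + 1)) (hs : s ∉ Set.range f) : lsub (cInc f) (X s) = 0 := by
  rw [lsub, aeval_X]
  refine Finset.sum_eq_zero fun t _ => ?_
  rw [cInc_single, Pi.single_eq_of_ne (fun h => hs ⟨t, h.symm⟩), C_0, zero_mul]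

end cInc

end H938TB
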