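import Pool.Agent.H938R2.TB.Defs

set_option autoImplicit false

open MvPolynomial H960VB

namespace H938TB

/-- an action of the torus given by weights of the rows and columns. -/
def mkEqB {n : ℕ} (E : Bundle2 n) (w : Fin (n + 1) → ℤ × ℤ)
    (b : Fin E.a → ℤ × ℤ) (c : Fin E.c → ℤ × ℤ)
    (hB : ∀ k i, ∀ u ∈ (E.B k i).support, ∑ j, (u j : ℤ) • w j = c k - b i) : EqB E w where
  b := b
  c := c
  hB := by
    intro k i u hu
    have hne : E.B k i ≠ 0 := by
      intro h0
      rw [h0, coeff_zero] at hu
      exact hu rfl
    rcases E.hom k i with h | ⟨m, hm, hh⟩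
    · exact absurd h hne
    · have h1 : (∑ j, u j) = m := by
        have h2 := hh hu
        rw [Finsupp.weight_apply, Finsupp.sum_fintype _ _ (by intro j; simp)] at h2
        simpa using h2
      have h3 := hB k i u (mem_support_iff.2 hu)
      rw [Finsupp.weight_apply, Finsupp.sum_fintype _ _ (by intro j; simp)]
      have h4 : ∀ j, u j • tw w j = ((u j : ℤ), (u j : ℤ) • w j) := by
        intro j
        simp only [tw]
        rw [Prod.smul_mk]
        simp
      simp_rw [h4]
      ext
      · simp only [Prod.fst_sum, Prod.fst_sub]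
        rw [← hm, ← h1]
        push_cast
        rfl
      · have h5 := congrArg Prod.fst h3
        simpa [Prod.fst_sum, Prod.snd_sum] using h5
      · have h5 := congrArg Prod.snd h3
        simpa [Prod.fst_sum, Prod.snd_sum] using h5

end H938TB
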