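import Pool.Agent.H938R2.TB.Defs

/-!
# The core data of a cycle of sections
-/

set_option autoImplicit false

open MvPolynomial H960VB

namespace H938TB

namespace T10aux

theorem cr_ne (w : Fin 5 → ℤ × ℤ)
    (hcc : ∀ i j k, i < j → j < k → 0 < cr (w j - w i) (w k - w i))
    (i j k : Fin 5) (hij : i ≠ j) (hjk : j ≠ k) (hik : i ≠ k) :
    cr (w j - w i) (w k - w i) ≠ 0 := by
  intro h0
  have h1 : ∀ a b c : Fin 5, cr (w b - w a) (w c - w a) =
      (w b).1 * (w c).2 - (w b).1 * (w a).2 - (w a).1 * (w c).2 - (w b).2 * (w c).1 +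
        (w b).2 * (w a).1 + (w a).2 * (w c).1 := by
    intro a b c
    simp only [cr, Prod.fst_sub, Prod.snd_sub]
    ring
  rw [h1] at h0
  simp only [h1] at hcc
  rcases lt_or_gt_of_ne hij with h2 | h2 <;> rcases lt_or_gt_of_ne hjk with h3 | h3 <;>
    rcases lt_or_gt_of_ne hik with h4 | h4
  · have := hcc i j k h2 h3
    linarith
  · exact absurd (h2.trans h3) (not_lt.2 h4.le)
  · have := hcc i k j h4 h3
    linarith
  · have := hcc k i j h4 h2
    linarith
  · have := hcc j i k h2 h4
    linarith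
  · have := hcc j k i h3 h4
    linarith
  · exact absurd (h3.trans h2) (not_lt.2 h4.le)
  · have := hcc k j i h3 h2
    linarith

theorem ind (w : Fin 5 → ℤ × ℤ)
    (hcc : ∀ i j k, i < j → j < k → 0 < cr (w j - w i) (w k - w i))
    (i j k : Fin 5) (hij : i ≠ j) (hjk : j ≠ k) (hik : i ≠ k) (a b d : ℤ)
    (h : a • tw w i + b • tw w j + d • tw w k = 0) : a = 0 ∧ b = 0 ∧ d = 0 := by
  have hne := cr_ne w hcc i j k hij hjk hik
  have e1 : a + b + d = 0 := by
    have := congrArg Prod.fst h
    simpa [tw] using this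
  have e2 : a * (w i).1 + b * (w j).1 + d * (w k).1 = 0 := by
    have := congrArg (fun z : M => z.2.1) h
    simpa [tw] using this
  have e3 : a * (w i).2 + b * (w j).2 + d * (w k).2 = 0 := by
    have := congrArg (fun z : M => z.2.2) h
    simpa [tw] using this
  have hb : b * cr (w j - w i) (w k - w i) = 0 := by
    simp only [cr, Prod.fst_sub, Prod.snd_sub]
    linear_combination ((w k).2 - (w i).2) * e2 - ((w k).1 - (w i).1) * e3 -
      ((w i).1 * ((w k).2 - (w i).2) - (w i).2 * ((w k).1 - (w i).1)) * e1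
  have hd : d * cr (w j - w i) (w k - w i) = 0 := by
    simp only [cr, Prod.fst_sub, Prod.snd_sub]
    linear_combination ((w j).1 - (w i).1) * e3 - ((w j).2 - (w i).2) * e2 +
      ((w i).1 * ((w j).2 - (w i).2) - (w i).2 * ((w j).1 - (w i).1)) * e1
  have hb0 := (mul_eq_zero.1 hb).resolve_right hne
  have hd0 := (mul_eq_zero.1 hd).resolve_right hne
  refine ⟨?_, hb0, hd0⟩
  rw [hb0, hd0] at e1
  simpa using e1

end T10aux

/-- the core data of a cycle of sections. -/
theorem toCore {E : Bundle2 4} {w : Fin 5 → ℤ × ℤ} (D : EqB E w) (W : Wedge D)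
    (hcc : ∀ i j k, i < j → j < k → 0 < cr (w j - w i) (w k - w i))
    (s : Fin 5 → Vec E.a 4) (τ : Fin 5 → M) (α : Fin 5 → ℕ) (c : Fin 5 → ℂ)
    (hs : ∀ i, HSec D (τ i) (s i)) (hα : ∀ i, 1 ≤ α i) (hc : ∀ i, c i ≠ 0)
    (h : ∀ i, W.wd (s (i - 1)) (s i) = C (c i) * X i ^ α i) : Nonempty CoreData := by
  have hdeg : ∀ i, WW (tw w) α i = τ (i - 1) + τ i + W.κ := by
    intro i
    have h1 := W.hom (τ (i - 1)) (τ i) _ _ (hs (i - 1)) (hs i)
    rw [h i] at h1
    have h2 : IsWeightedHomogeneous (tw w) (C (c i) * X i ^ α i : MvPolynomial (Fin (4 + 1)) ℂ)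
        (WW (tw w) α i) := by
      have h3 := (isWeightedHomogeneous_C (tw w) (c i)).mul
        ((isWeightedHomogeneous_X ℂ (tw w) i).pow (α i))
      rw [zero_add] at h3
      have h4 : α i • tw w i = WW (tw w) α i := by
        rw [WW, natCast_zsmul]
      rwa [h4] at h3
    refine IsWeightedHomogeneous.inj_right ?_ h2 h1
    exact mul_ne_zero (by rw [Ne, C_eq_zero]; exact hc i) (pow_ne_zero _ (X_ne_zero i))
  refine ⟨{ ω := tw w, α := α, c := c, F := fun i => W.wd (s (i + 1)) (s (i - 2))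
            hα := hα, hc := hc
            hpos := fun i => by
              show (0 : ℤ) < 1
              exact zero_lt_one
            hind := fun i j k hij hjk hik a b d hh =>
              T10aux.ind w hcc i j k hij hjk hik a b d hh
            hF := fun i => ?_
            hP := fun i => ?_ }⟩
  · have h1 := W.hom (τ (i + 1)) (τ (i - 2)) _ _ (hs (i + 1)) (hs (i - 2))
    have h2 : phi (tw w) α i = τ (i + 1) + τ (i - 2) + W.κ := by
      rw [phi, hdeg, hdeg, hdeg]
      have e1 : i - 1 - 1 = i - 2 := by fin_cases i <;> rfl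
      have e2 : i + 1 - 1 = i := by fin_cases i <;> rfl
      rw [e1, e2]
      abel
    rw [h2]
    exact h1
  · have e1 : i - 2 + 1 = i - 1 := by fin_cases i <;> rfl
    have e2 : i - 2 - 2 = i + 1 := by fin_cases i <;> rfl
    have e3 : i + 2 + 1 = i - 2 := by fin_cases i <;> rfl
    have e4 : i + 2 - 2 = i := by fin_cases i <;> rfl
    have e5 : i - 1 - 1 = i - 2 := by fin_cases i <;> rfl
    have e6 : i + 1 - 1 = i := by fin_cases i <;> rfl
    have m1 : mX c α (i - 1) = W.wd (s (i - 2)) (s (i - 1)) := by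
      rw [← e5]
      exact (h (i - 1)).symm
    have m2 : mX c α i = W.wd (s (i - 1)) (s i) := (h i).symm
    have m3 : mX c α (i + 1) = W.wd (s i) (s (i + 1)) := by
      have := h (i + 1)
      rw [e6] at this
      exact this.symm
    have h4 := W.four (s (i - 2)) (s (i - 1)) (s i) (s (i + 1)) (hs _).ker (hs _).ker (hs _).ker
      (hs _).ker
    have h5 := W.anti (s (i - 2)) (s (i + 1)) (hs _).ker (hs _).ker
    show W.wd (s (i - 2 + 1)) (s (i - 2 - 2)) * W.wd (s (i + 2 + 1)) (s (i + 2 - 2)) +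
      mX c α i * W.wd (s (i + 1)) (s (i - 2)) = mX c α (i - 1) * mX c α (i + 1)
    rw [e1, e2, e3, e4, m1, m2, m3]
    rw [h5] at h4
    linear_combination -h4

end H938TB
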