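import Pool.Agent.H938R2.TB.Defs
import Pool.Agent.H960R2.VB.TaskC1
import Pool.Agent.H960R2.VB.TaskC2

/-!
# T2: semi-invariant sections through a point
-/

set_option autoImplicit false

open MvPolynomial H960VB

namespace H938TB

namespace T2aux

/-- a sign does not change weighted homogeneity. -/
theorem signed {σ : Type*} {N : Type*} [AddCommMonoid N] {w : σ → N}
    {p : MvPolynomial σ ℂ} {τ : N} (hp : IsWeightedHomogeneous w p τ) (k : ℕ) :
    IsWeightedHomogeneous w ((-1) ^ k * p) τ := by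
  rcases Nat.even_or_odd k with h | h
  · rw [h.neg_one_pow, one_mul]; exact hp
  · rw [h.neg_one_pow, neg_one_mul]; exact hp.neg

/-- weighted homogeneity of determinants -/
theorem whom_det {σ : Type*} {N : Type*} [AddCommGroup N] {w : σ → N} {n : ℕ}
    (A : Matrix (Fin n) (Fin n) (MvPolynomial σ ℂ))
    (r c : Fin n → N) (h : ∀ i j, IsWeightedHomogeneous w (A i j) (r i - c j)) :
    IsWeightedHomogeneous w A.det (∑ i, r i - ∑ j, c j) := by
  rw [Matrix.det_apply]
  refine IsWeightedHomogeneous.sum _ _ _ fun τ _ => ?_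
  have h1 : IsWeightedHomogeneous w (∏ i, A (τ i) i) (∑ i, (r (τ i) - c i)) :=
    IsWeightedHomogeneous.prod _ _ _ fun i _ => h (τ i) i
  rw [Finset.sum_sub_distrib, Equiv.sum_comp τ r] at h1
  rcases Int.units_eq_one_or (Equiv.Perm.sign τ) with h2 | h2
  · rw [h2, one_smul]; exact h1
  · rw [h2, Units.neg_smul, one_smul]; exact h1.neg

/-- weighted homogeneity of the kernel vectors -/
theorem KK_whom {m a c : ℕ} {N : Type*} [AddCommGroup N] {w : Fin m → N}
    (B : Matrix (Fin c) (Fin a) (MvPolynomial (Fin m) ℂ)) {ρ : ℕ}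
    (β : Fin a → N) (γ : Fin c → N)
    (hom : ∀ k i, IsWeightedHomogeneous w (B k i) (γ k - β i))
    (R : Fin ρ → Fin c) (C : Fin (ρ + 1) → Fin a) (i : Fin a) :
    IsWeightedHomogeneous w (KK B R C i) (β i + (∑ k, γ (R k) - ∑ l, β (C l))) := by
  unfold KK
  refine IsWeightedHomogeneous.sum _ _ _ fun l _ => ?_
  split_ifs with h
  · refine signed ?_ _
    have h1 := whom_det (w := w) (B.submatrix R (C ∘ l.succAbove)) (fun k => γ (R k))
      (fun j => β (C (l.succAbove j))) (fun k j => hom _ _)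
    have h2 : ∑ l', β (C l') = β (C l) + ∑ j, β (C (l.succAbove j)) :=
      Fin.sum_univ_succAbove (fun l' => β (C l')) l
    rw [h2, h]
    convert h1 using 1
    abel
  · exact isWeightedHomogeneous_zero _ _ _

variable {n : ℕ} {E : Bundle2 n} {w : Fin (n + 1) → ℤ × ℤ}

/-- the kernel vectors are in the kernel. -/
theorem KK_ker (E : Bundle2 n) (R : Fin (E.a - 2) → Fin E.c)
    (C : Fin (E.a - 2 + 1) → Fin E.a) : Ker E (KK E.B R C) := by
  intro k
  rw [mul_KK]
  refine TaskC2.ext_off_zero (Nat.succ_le_succ (Nat.zero_le n)) fun x hx => ?_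
  rw [eval_minor, map_zero]
  exact minor_eq_zero _ (E.rank_two x hx) _ _

/-- the degree of the kernel vector. -/
def tauKK (D : EqB E w) (R : Fin (E.a - 2) → Fin E.c) (C : Fin (E.a - 2 + 1) → Fin E.a) : M :=
  ∑ k, ((E.γ (R k), D.c (R k)) : M) - ∑ l, ((E.β (C l), D.b (C l)) : M)

/-- the family of all minors consists of semi-invariant sections. -/
theorem HSec_KK (D : EqB E w) (R : Fin (E.a - 2) → Fin E.c)
    (C : Fin (E.a - 2 + 1) → Fin E.a) : HSec D (tauKK D R C) (KK E.B R C) where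
  hom := fun i => KK_whom (w := tw w) E.B (fun i => ((E.β i, D.b i) : M))
    (fun k => ((E.γ k, D.c k) : M)) D.hB R C i
  ker := KK_ker E R C

/-- values of the basic kernel vectors off the chosen columns -/
theorem KK_val {m a c ρ : ℕ} (B : Matrix (Fin c) (Fin a) (MvPolynomial (Fin m) ℂ))
    (x : Fin m → ℂ) (R : Fin ρ → Fin c) (C0 : Fin ρ → Fin a) (c₀ i : Fin a)
    (hi : i ∉ Set.range C0) :
    evv (KK B R (Fin.cons c₀ C0 : Fin (ρ + 1) → Fin a)) x i =
      if c₀ = i then ((evm B x).submatrix R C0).det else 0 := by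
  rw [evv_KK, Fin.sum_univ_succ]
  have e1 : ∀ l : Fin ρ, (if (Fin.cons c₀ C0 : Fin (ρ + 1) → Fin a) l.succ = i then
      (-1 : ℂ) ^ (l.succ : ℕ) * ((evm B x).submatrix R
        ((Fin.cons c₀ C0 : Fin (ρ + 1) → Fin a) ∘ l.succ.succAbove)).det else 0) = 0 := by
    intro l
    rw [if_neg]
    rw [Fin.cons_succ]
    intro h
    exact hi ⟨l, h⟩
  simp_rw [e1]
  rw [Finset.sum_const_zero, add_zero, Fin.cons_zero]
  have e2 : (Fin.cons c₀ C0 : Fin (ρ + 1) → Fin a) ∘ (0 : Fin (ρ + 1)).succAbove = C0 := by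
    funext j
    simp [Fin.succAbove_zero]
  rw [e2]
  simp

/-- two members of the family are independent at a given point. -/
theorem exists_KK (E : Bundle2 n) (x : Fin (n + 1) → ℂ) (hx : x ≠ 0) :
    ∃ (R : Fin (E.a - 2) → Fin E.c) (C C' : Fin (E.a - 2 + 1) → Fin E.a),
      LinearIndependent ℂ ![evv (KK E.B R C) x, evv (KK E.B R C') x] := by
  classical
  have ha : 2 ≤ E.a := by
    have h := Submodule.finrank_le (LinearMap.ker (Matrix.mulVecLin (evm E.B x)))
    rw [E.rank_two x hx, Module.finrank_fintype_fun_eq_card, Fintype.card_fin] at h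
    exact h
  obtain ⟨R, C0, hD⟩ := C1_exists_minor (evm E.B x) (E.rank_two x hx)
  have hcard : 1 < (Finset.univ \ Finset.univ.image C0 : Finset (Fin E.a)).card := by
    have h1 : (Finset.univ.image C0 : Finset (Fin E.a)).card ≤ E.a - 2 := by
      have := Finset.card_image_le (s := (Finset.univ : Finset (Fin (E.a - 2)))) (f := C0)
      rwa [Finset.card_univ, Fintype.card_fin] at this
    have h2 := Finset.card_sdiff_add_card_eq_card
      (Finset.subset_univ (Finset.univ.image C0 : Finset (Fin E.a)))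
    rw [Finset.card_univ, Fintype.card_fin] at h2
    omega
  obtain ⟨c₀, hc₀, c₁, hc₁, hne⟩ := Finset.one_lt_card.1 hcard
  have hr₀ : c₀ ∉ Set.range C0 := by
    rintro ⟨l, hl⟩
    exact (Finset.mem_sdiff.1 hc₀).2 (hl ▸ Finset.mem_image_of_mem _ (Finset.mem_univ _))
  have hr₁ : c₁ ∉ Set.range C0 := by
    rintro ⟨l, hl⟩
    exact (Finset.mem_sdiff.1 hc₁).2 (hl ▸ Finset.mem_image_of_mem _ (Finset.mem_univ _))
  refine ⟨R, Fin.cons c₀ C0, Fin.cons c₁ C0, ?_⟩
  rw [LinearIndependent.pair_iff]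
  intro s t hst
  have h0 := congrFun hst c₀
  have h1 := congrFun hst c₁
  simp only [Pi.add_apply, Pi.smul_apply, smul_eq_mul, Pi.zero_apply] at h0 h1
  rw [KK_val E.B x R C0 c₀ c₀ hr₀, KK_val E.B x R C0 c₁ c₀ hr₀, if_pos rfl,
    if_neg (Ne.symm hne), mul_zero, add_zero] at h0
  rw [KK_val E.B x R C0 c₀ c₁ hr₁, KK_val E.B x R C0 c₁ c₁ hr₁, if_pos rfl,
    if_neg hne, mul_zero, zero_add] at h1
  exact ⟨(mul_eq_zero.1 h0).resolve_right hD, (mul_eq_zero.1 h1).resolve_right hD⟩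

end T2aux

variable {n : ℕ} {E : Bundle2 n} {w : Fin (n + 1) → ℤ × ℤ}

theorem exists_sec (D : EqB E w) (x : Fin (n + 1) → ℂ) (hx : x ≠ 0) :
    ∃ (τ τ' : M) (G G' : Vec E.a n), HSec D τ G ∧ HSec D τ' G' ∧
      LinearIndependent ℂ ![evv G x, evv G' x] := by
  obtain ⟨R, C, C', h⟩ := T2aux.exists_KK E x hx
  exact ⟨_, _, _, _, T2aux.HSec_KK D R C, T2aux.HSec_KK D R C', h⟩

end H938TB
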