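import Pool.Agent.H938R2.TB.T1
import Pool.Agent.H938R2.TB.T2

/-! Task T3 of helper938 (helper814): the wedge product. -/

set_option autoImplicit false

open MvPolynomial H960VB

namespace H938TB


namespace T3aux

/-- minors of two vectors of polynomials -/
noncomputable def mm {a n : ℕ} (G G' : Vec a n) (i j : Fin a) : MvPolynomial (Fin (n + 1)) ℂ :=
  G i * G' j - G j * G' i

theorem mm_eval {a n : ℕ} (G G' : Vec a n) (i j : Fin a) (x : Fin (n + 1) → ℂ) :
    eval x (mm G G' i j) = evv G x i * evv G' x j - evv G x j * evv G' x i := by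
  simp only [mm, evv, map_sub, map_mul]

theorem li_iff {a : ℕ} (u v : Fin a → ℂ) :
    LinearIndependent ℂ ![u, v] ↔ ∃ i j, u i * v j - u j * v i ≠ 0 := by
  constructor
  · intro h
    by_contra hcon
    push Not at hcon
    rw [LinearIndependent.pair_iff] at h
    by_cases hu : u = 0
    · have := h 1 0 (by rw [hu]; simp)
      exact one_ne_zero this.1
    · obtain ⟨c, hc⟩ := TaskC2.parallel hu hcon
      have := h c (-1) (by rw [hc]; simp)
      exact (neg_ne_zero.2 one_ne_zero) this.2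
  · rintro ⟨i, j, hij⟩
    rw [LinearIndependent.pair_iff]
    intro s t hst
    have h1 := congrFun hst i
    have h2 := congrFun hst j
    simp only [Pi.add_apply, Pi.smul_apply, smul_eq_mul, Pi.zero_apply] at h1 h2
    constructor
    · have : s * (u i * v j - u j * v i) = 0 := by linear_combination v j * h1 - v i * h2
      exact (mul_eq_zero.1 this).resolve_right hij
    · have : t * (u i * v j - u j * v i) = 0 := by linear_combination u i * h2 - u j * h1
      exact (mul_eq_zero.1 this).resolve_right hij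

theorem det_rel {a : ℕ} (V : Submodule ℂ (Fin a → ℂ)) (hV : Module.finrank ℂ V = 2)
    {u v w : Fin a → ℂ} (hu : u ∈ V) (hv : v ∈ V) (hw : w ∈ V) (i j k : Fin a) :
    (v i * w j - v j * w i) * u k - (u i * w j - u j * w i) * v k +
      (u i * v j - u j * v i) * w k = 0 := by
  have b := Module.finBasisOfFinrankEq ℂ V hV
  have key : ∀ v ∈ V, ∃ p q : ℂ, ∀ t, v t = p * (b 0 : Fin a → ℂ) t + q * (b 1 : Fin a → ℂ) t := by
    intro v hv
    have h1 := b.sum_repr ⟨v, hv⟩
    rw [Fin.sum_univ_two] at h1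
    refine ⟨b.repr ⟨v, hv⟩ 0, b.repr ⟨v, hv⟩ 1, fun t => ?_⟩
    have h2 := congrArg (fun y : V => (y : Fin a → ℂ) t) h1
    simp only [Submodule.coe_add, Submodule.coe_smul, Pi.add_apply, Pi.smul_apply,
      smul_eq_mul] at h2
    exact h2.symm
  obtain ⟨p1, q1, e1⟩ := key u hu
  obtain ⟨p2, q2, e2⟩ := key v hv
  obtain ⟨p3, q3, e3⟩ := key w hw
  simp only [e1, e2, e3]
  ring

variable {n : ℕ} {E : Bundle2 n} {w : Fin (n + 1) → ℤ × ℤ}

theorem ker_mem {G : Vec E.a n} (hG : Ker E G) (x : Fin (n + 1) → ℂ) : evv G x ∈ E.fib x := by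
  rw [Bundle2.fib, LinearMap.mem_ker, Matrix.mulVecLin_apply]
  ext k
  have h := congrArg (eval x) (hG k)
  rw [map_sum, map_zero] at h
  rw [Pi.zero_apply, ← h]
  simp only [Matrix.mulVec, dotProduct, evm, evv, Matrix.map_apply, map_mul]

theorem rel4 (hn : 1 ≤ n) {G G' H H' : Vec E.a n} (hG : Ker E G) (hG' : Ker E G') (hH : Ker E H)
    (hH' : Ker E H') (i j k l : Fin E.a) :
    mm G G' i j * mm H H' k l = mm G G' k l * mm H H' i j := by
  refine TaskC2.ext_off_zero (by omega) fun x hx => ?_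
  rw [map_mul, map_mul, mm_eval, mm_eval, mm_eval, mm_eval]
  exact TaskC2.wedge_rel _ (E.rank_two x hx) (ker_mem hG x) (ker_mem hG' x) (ker_mem hH x)
    (ker_mem hH' x) i j k l

theorem rel3 (hn : 1 ≤ n) {G H K : Vec E.a n} (hG : Ker E G) (hH : Ker E H) (hK : Ker E K)
    (i j k : Fin E.a) :
    mm H K i j * G k - mm G K i j * H k + mm G H i j * K k = 0 := by
  refine TaskC2.ext_off_zero (by omega) fun x hx => ?_
  rw [map_add, map_sub, map_mul, map_mul, map_mul, mm_eval, mm_eval, mm_eval, map_zero]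
  exact det_rel _ (E.rank_two x hx) (ker_mem hG x) (ker_mem hH x) (ker_mem hK x) i j k

theorem mm_hom {D : EqB E w} {τ τ' : M} {G G' : Vec E.a n} (hG : HSec D τ G) (hG' : HSec D τ' G')
    (i j : Fin E.a) : IsWeightedHomogeneous (tw w) (mm G G' i j)
      ((E.β i, D.b i) + (E.β j, D.b j) + (τ + τ')) := by
  have e1 := (hG.hom i).mul (hG'.hom j)
  have e2 := (hG.hom j).mul (hG'.hom i)
  have f1 : ((E.β i, D.b i) + (E.β j, D.b j) + (τ + τ') : M) =
      ((E.β i, D.b i) + τ) + ((E.β j, D.b j) + τ') := by abel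
  have f2 : ((E.β i, D.b i) + (E.β j, D.b j) + (τ + τ') : M) =
      ((E.β j, D.b j) + τ) + ((E.β i, D.b i) + τ') := by abel
  unfold mm
  refine IsWeightedHomogeneous.sub ?_ ?_
  · rw [f1]; exact e1
  · rw [f2]; exact e2

end T3aux

open T3aux

section
variable {n : ℕ} {E : Bundle2 n} {w : Fin (n + 1) → ℤ × ℤ}

theorem exists_wedge (hn : 1 ≤ n) (D : EqB E w) : Nonempty (Wedge D) := by
  classical
  -- a nonzero point
  have hx1 : ∃ x : Fin (n + 1) → ℂ, x ≠ 0 := by
    refine ⟨fun _ => 1, fun h => ?_⟩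
    have := congrFun h 0
    simp at this
  obtain ⟨x1, hx1⟩ := hx1
  obtain ⟨τ1, τ2, G1, G2, hG1, hG2, hli⟩ := exists_sec D x1 hx1
  obtain ⟨i0, j0, h00⟩ := (li_iff _ _).1 hli
  rw [← mm_eval] at h00
  have hne0 : mm G1 G2 i0 j0 ≠ 0 := by
    intro h
    rw [h, map_zero] at h00
    exact h00 rfl
  -- the gcd
  let _ : StrongNormalizationMonoid (MvPolynomial (Fin (n + 1)) ℂ) :=
    UniqueFactorizationMonoid.strongNormalizationMonoid
  let _ : StrongNormalizedGCDMonoid (MvPolynomial (Fin (n + 1)) ℂ) :=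
    UniqueFactorizationMonoid.toStrongNormalizedGCDMonoid _
  obtain ⟨P', hP'1, hP'2⟩ := Finset.extract_gcd (s := (Finset.univ : Finset (Fin E.a × Fin E.a)))
    (fun p => mm G1 G2 p.1 p.2) ⟨(i0, j0), Finset.mem_univ _⟩
  set d := Finset.univ.gcd (fun p : Fin E.a × Fin E.a => mm G1 G2 p.1 p.2) with hd
  have hdP : ∀ i j, mm G1 G2 i j = d * P' (i, j) := fun i j => hP'1 (i, j) (Finset.mem_univ _)
  have hd0 : d ≠ 0 := by
    intro h
    apply hne0
    rw [hdP, h, zero_mul]
  have hP0 : P' (i0, j0) ≠ 0 := by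
    intro h
    apply hne0
    rw [hdP, h, mul_zero]
  have hF5 : ∀ G G' : Vec E.a n, Ker E G → Ker E G' → ∀ i j k l,
      mm G G' i j * P' (k, l) = mm G G' k l * P' (i, j) := by
    intro G G' hG hG' i j k l
    apply mul_left_cancel₀ hd0
    have h := rel4 hn hG hG' hG1.ker hG2.ker i j k l
    rw [hdP, hdP] at h
    linear_combination h
  have hF6 : ∀ G G' : Vec E.a n, Ker E G → Ker E G' → ∃ φ, ∀ i j,
      mm G G' i j = φ * P' (i, j) := by
    intro G G' hG hG'
    have hdvd : P' (i0, j0) ∣ mm G G' i0 j0 := by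
      have h1 : P' (i0, j0) ∣ Finset.univ.gcd
          (fun p : Fin E.a × Fin E.a => mm G G' i0 j0 * P' p) := by
        apply Finset.dvd_gcd
        rintro ⟨k, l⟩ _
        rw [hF5 G G' hG hG']
        exact dvd_mul_left _ _
      rw [Finset.gcd_mul_left, hP'2, mul_one] at h1
      exact (dvd_normalize_iff).1 h1
    obtain ⟨φ, hφ⟩ := hdvd
    refine ⟨φ, fun i j => ?_⟩
    apply mul_right_cancel₀ hP0
    have h := hF5 G G' hG hG' i j i0 j0
    rw [h, hφ]
    ring
  -- the wedge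
  let wd : Vec E.a n → Vec E.a n → MvPolynomial (Fin (n + 1)) ℂ := fun G G' =>
    if h : Ker E G ∧ Ker E G' then (hF6 G G' h.1 h.2).choose else 0
  have hwd : ∀ G G', Ker E G → Ker E G' → ∀ i j, mm G G' i j = wd G G' * P' (i, j) := by
    intro G G' hG hG' i j
    simp only [wd]
    rw [dif_pos ⟨hG, hG'⟩]
    exact (hF6 G G' hG hG').choose_spec i j
  -- homogeneity
  obtain ⟨δ, ε, hδε, hδ, hε⟩ := hom_of_mul (tw w) (f := d) (g := P' (i0, j0))
    (τ := (E.β i0, D.b i0) + (E.β j0, D.b j0) + (τ1 + τ2))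
    (by rw [← hdP]; exact mm_hom hG1 hG2 i0 j0) (by rw [← hdP]; exact hne0)
  have hPne : ∀ x : Fin (n + 1) → ℂ, x ≠ 0 → ∃ i j, eval x (P' (i, j)) ≠ 0 := by
    intro x hx
    obtain ⟨τ, τ', G, G', hG, hG', hli'⟩ := exists_sec D x hx
    obtain ⟨i, j, hij⟩ := (li_iff _ _).1 hli'
    rw [← mm_eval, hwd G G' hG.ker hG'.ker, map_mul] at hij
    exact ⟨i, j, right_ne_zero_of_mul hij⟩
  refine ⟨⟨δ - (τ1 + τ2), fun i j => P' (i, j), wd, hPne, ?_, ?_, ?_, ?_, ?_, ?_, ?_⟩⟩
  · intro G G' hG hG' i j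
    exact hwd G G' hG hG' i j
  · intro τ τ' G G' hG hG'
    by_cases h0 : wd G G' = 0
    · rw [h0]; exact isWeightedHomogeneous_zero _ _ _
    · have h1 := mm_hom hG hG' i0 j0
      rw [hwd G G' hG.ker hG'.ker] at h1
      obtain ⟨e, f, hef, he, hf⟩ := hom_of_mul (tw w) h1 (mul_ne_zero h0 hP0)
      have h2 : f = ε := hf.inj_right hP0 hε
      have h3 : τ + τ' + (δ - (τ1 + τ2)) = e := by
        have e1 : e = (E.β i0, D.b i0) + (E.β j0, D.b j0) + (τ + τ') - ε := by
          rw [← hef, h2]; abel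
        have e2 : ((E.β i0, D.b i0) + (E.β j0, D.b j0) : M) = δ + ε - (τ1 + τ2) := by
          rw [hδε]; abel
        rw [e1, e2]; abel
      rw [h3]; exact he
  · intro x hx G G' hG hG'
    rw [li_iff]
    constructor
    · intro h
      obtain ⟨i, j, hij⟩ := hPne x hx
      refine ⟨i, j, ?_⟩
      rw [← mm_eval, hwd G G' hG hG', map_mul]
      exact mul_ne_zero h hij
    · rintro ⟨i, j, hij⟩
      rw [← mm_eval, hwd G G' hG hG', map_mul] at hij
      exact left_ne_zero_of_mul hij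
  · intro p G G' hG hG'
    have hpG : Ker E (fun i => p * G i) := by
      intro k
      have := hG k
      calc ∑ i, E.B k i * (p * G i) = p * ∑ i, E.B k i * G i := by
            rw [Finset.mul_sum]; exact Finset.sum_congr rfl fun i _ => by ring
        _ = 0 := by rw [this, mul_zero]
    apply mul_right_cancel₀ hP0
    rw [← hwd _ _ hpG hG', mul_assoc, ← hwd _ _ hG hG']
    unfold mm
    ring
  · intro G G' hG hG'
    apply mul_right_cancel₀ hP0
    rw [neg_mul, ← hwd _ _ hG hG', ← hwd _ _ hG' hG]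
    unfold mm
    ring
  · intro H1 H2 H3 h1 h2 h3 i
    apply mul_right_cancel₀ hP0
    have := rel3 hn h1 h2 h3 i0 j0 i
    rw [hwd _ _ h2 h3, hwd _ _ h1 h3, hwd _ _ h1 h2] at this
    linear_combination this
  · intro H1 H2 H3 H4 h1 h2 h3 h4
    have three : ∀ i, wd H2 H3 * H1 i - wd H1 H3 * H2 i + wd H1 H2 * H3 i = 0 := by
      intro i
      apply mul_right_cancel₀ hP0
      have := rel3 hn h1 h2 h3 i0 j0 i
      rw [hwd _ _ h2 h3, hwd _ _ h1 h3, hwd _ _ h1 h2] at this
      linear_combination this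
    apply mul_right_cancel₀ hP0
    have a1 := hwd _ _ h1 h4 i0 j0
    have a2 := hwd _ _ h2 h4 i0 j0
    have a3 := hwd _ _ h3 h4 i0 j0
    unfold mm at a1 a2 a3
    have b1 := three i0
    have b2 := three j0
    linear_combination H4 j0 * b1 - H4 i0 * b2 - wd H2 H3 * a1 + wd H1 H3 * a2 - wd H1 H2 * a3

end

end H938TB
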