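import Pool.Agent.H938R2.TB.T2
import Pool.Agent.H938R2.TB.T3

/-!
# T4: nonsplit bundles on the plane with an action of the full torus
-/

set_option autoImplicit false

open MvPolynomial H960VB

namespace H938TB

namespace T4aux

/-! ### the dual basis -/

/-- linear forms dual to the degrees of the coordinates -/
structure Dual (w : Fin 3 → ℤ × ℤ) where
  N : ℤ
  Λ : Fin 3 → M →+ ℤ
  hN : 0 < N
  h1 : ∀ k i, Λ k (tw w i) = if i = k then N else 0
  h2 : ∀ τ, (∀ k, Λ k τ = 0) → τ = 0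

/-- a determinant -/
def dt (w : Fin 3 → ℤ × ℤ) (j l : Fin 3) : M →+ ℤ where
  toFun τ := τ.1 * ((w j).1 * (w l).2 - (w j).2 * (w l).1) - τ.2.1 * ((w l).2 - (w j).2) +
    τ.2.2 * ((w l).1 - (w j).1)
  map_zero' := by simp
  map_add' a b := by
    simp only [Prod.fst_add, Prod.snd_add]
    ring

theorem dt_apply (w : Fin 3 → ℤ × ℤ) (j l : Fin 3) (τ : M) : dt w j l τ =
    τ.1 * ((w j).1 * (w l).2 - (w j).2 * (w l).1) - τ.2.1 * ((w l).2 - (w j).2) +
    τ.2.2 * ((w l).1 - (w j).1) := rfl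

theorem exists_dual {w : Fin 3 → ℤ × ℤ} (hw : cr (w 1 - w 0) (w 2 - w 0) ≠ 0) :
    Nonempty (Dual w) := by
  have hΔ : cr (w 1 - w 0) (w 2 - w 0) = ((w 1).1 - (w 0).1) * ((w 2).2 - (w 0).2) -
      ((w 1).2 - (w 0).2) * ((w 2).1 - (w 0).1) := rfl
  set Δ := cr (w 1 - w 0) (w 2 - w 0) with hΔdef
  refine ⟨⟨Δ ^ 2, fun k => (AddMonoidHom.mulLeft Δ).comp (dt w (k + 1) (k + 2)), by positivity,
    ?_, ?_⟩⟩
  · intro k i
    show Δ * dt w (k + 1) (k + 2) (tw w i) = _
    rw [dt_apply]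
    simp only [tw]
    fin_cases k <;> fin_cases i
    · show Δ * (1 * ((w 1).1 * (w 2).2 - (w 1).2 * (w 2).1) - (w 0).1 * ((w 2).2 - (w 1).2) +
        (w 0).2 * ((w 2).1 - (w 1).1)) = Δ ^ 2
      rw [hΔ]; ring
    · show Δ * (1 * ((w 1).1 * (w 2).2 - (w 1).2 * (w 2).1) - (w 1).1 * ((w 2).2 - (w 1).2) +
        (w 1).2 * ((w 2).1 - (w 1).1)) = 0
      ring
    · show Δ * (1 * ((w 1).1 * (w 2).2 - (w 1).2 * (w 2).1) - (w 2).1 * ((w 2).2 - (w 1).2) +
        (w 2).2 * ((w 2).1 - (w 1).1)) = 0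
      ring
    · show Δ * (1 * ((w 2).1 * (w 0).2 - (w 2).2 * (w 0).1) - (w 0).1 * ((w 0).2 - (w 2).2) +
        (w 0).2 * ((w 0).1 - (w 2).1)) = 0
      ring
    · show Δ * (1 * ((w 2).1 * (w 0).2 - (w 2).2 * (w 0).1) - (w 1).1 * ((w 0).2 - (w 2).2) +
        (w 1).2 * ((w 0).1 - (w 2).1)) = Δ ^ 2
      rw [hΔ]; ring
    · show Δ * (1 * ((w 2).1 * (w 0).2 - (w 2).2 * (w 0).1) - (w 2).1 * ((w 0).2 - (w 2).2) +
        (w 2).2 * ((w 0).1 - (w 2).1)) = 0
      ring
    · show Δ * (1 * ((w 0).1 * (w 1).2 - (w 0).2 * (w 1).1) - (w 0).1 * ((w 1).2 - (w 0).2) +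
        (w 0).2 * ((w 1).1 - (w 0).1)) = 0
      ring
    · show Δ * (1 * ((w 0).1 * (w 1).2 - (w 0).2 * (w 1).1) - (w 1).1 * ((w 1).2 - (w 0).2) +
        (w 1).2 * ((w 1).1 - (w 0).1)) = 0
      ring
    · show Δ * (1 * ((w 0).1 * (w 1).2 - (w 0).2 * (w 1).1) - (w 2).1 * ((w 1).2 - (w 0).2) +
        (w 2).2 * ((w 1).1 - (w 0).1)) = Δ ^ 2
      rw [hΔ]; ring
  · intro τ h
    have h' : ∀ k : Fin 3, dt w (k + 1) (k + 2) τ = 0 := by
      intro k
      have h3 : Δ * dt w (k + 1) (k + 2) τ = 0 := h k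
      exact (mul_eq_zero.1 h3).resolve_left hw
    have a0 : dt w 1 2 τ = 0 := h' 0
    have a1 : dt w 2 0 τ = 0 := h' 1
    have a2 : dt w 0 1 τ = 0 := h' 2
    rw [dt_apply] at a0 a1 a2
    obtain ⟨t, x, y⟩ := τ
    simp only at a0 a1 a2
    have e1 : Δ * t = 0 := by
      rw [hΔ]
      linear_combination a0 + a1 + a2
    have e2 : Δ * x = 0 := by
      rw [hΔ]
      linear_combination (w 0).1 * a0 + (w 1).1 * a1 + (w 2).1 * a2
    have e3 : Δ * y = 0 := by
      rw [hΔ]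
      linear_combination (w 0).2 * a0 + (w 1).2 * a1 + (w 2).2 * a2
    have f1 := (mul_eq_zero.1 e1).resolve_left hw
    have f2 := (mul_eq_zero.1 e2).resolve_left hw
    have f3 := (mul_eq_zero.1 e3).resolve_left hw
    rw [f1, f2, f3]
    rfl

/-! ### homogeneous polynomials are monomials -/

variable {w : Fin 3 → ℤ × ℤ} (δ : Dual w)

theorem lam_weight (k : Fin 3) (u : Fin 3 →₀ ℕ) :
    δ.Λ k (Finsupp.weight (tw w) u) = δ.N * u k := by
  rw [Finsupp.weight_apply, Finsupp.sum_fintype _ _ (by simp), map_sum]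
  have h : ∀ i ∈ (Finset.univ : Finset (Fin 3)), δ.Λ k (u i • tw w i) =
      if i = k then δ.N * u k else 0 := by
    intro i _
    rw [map_nsmul, δ.h1]
    by_cases hi : i = k
    · subst hi
      rw [if_pos rfl, if_pos rfl, nsmul_eq_mul, mul_comm]
    · rw [if_neg hi, if_neg hi, smul_zero]
  rw [Finset.sum_congr rfl h, Finset.sum_ite_eq' Finset.univ k]
  rw [if_pos (Finset.mem_univ _)]

include δ in
theorem form {f : MvPolynomial (Fin 3) ℂ} {d : M} (hf : IsWeightedHomogeneous (tw w) f d)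
    (h0 : f ≠ 0) : ∃ (u : Fin 3 →₀ ℕ) (c : ℂ), c ≠ 0 ∧ f = monomial u c ∧
      ∀ k, δ.Λ k d = δ.N * u k := by
  obtain ⟨u, hu⟩ := ne_zero_iff.1 h0
  have hd := hf hu
  refine ⟨u, coeff u f, hu, ?_, fun k => by rw [← hd, lam_weight]⟩
  ext v
  rw [coeff_monomial]
  by_cases hv : u = v
  · rw [if_pos hv, hv]
  · rw [if_neg hv]
    by_contra h
    apply hv
    have hd' := hf h
    ext k
    have h1 := lam_weight δ k u
    have h2 := lam_weight δ k v
    rw [hd] at h1
    rw [hd', h1] at h2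
    have h3 := mul_left_cancel₀ δ.hN.ne' h2
    exact_mod_cast h3

theorem lam_nat {f : MvPolynomial (Fin 3) ℂ} {d : M} (hf : IsWeightedHomogeneous (tw w) f d)
    (h0 : f ≠ 0) (k : Fin 3) : ∃ n : ℕ, δ.Λ k d = δ.N * n := by
  obtain ⟨u, c, hc, rfl, hu⟩ := form δ hf h0
  exact ⟨u k, hu k⟩

theorem dvd_iff {f : MvPolynomial (Fin 3) ℂ} {d : M} (hf : IsWeightedHomogeneous (tw w) f d)
    (h0 : f ≠ 0) (k : Fin 3) (n : ℕ) : X k ^ n ∣ f ↔ δ.N * n ≤ δ.Λ k d := by
  obtain ⟨u, c, hc, rfl, hu⟩ := form δ hf h0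
  rw [hu, X_pow_eq_monomial, monomial_dvd_monomial]
  constructor
  · rintro ⟨h | h, _⟩
    · exact absurd h hc
    · have h1 := h k
      rw [Finsupp.single_eq_same] at h1
      exact mul_le_mul_of_nonneg_left (by exact_mod_cast h1) δ.hN.le
  · intro h
    refine ⟨Or.inr ?_, one_dvd _⟩
    rw [Finsupp.single_le_iff]
    have h1 := le_of_mul_le_mul_left h δ.hN
    exact_mod_cast h1

include δ in
/-- homogeneous polynomials of the same degree are proportional -/
theorem same {f g : MvPolynomial (Fin 3) ℂ} {d : M} (hf : IsWeightedHomogeneous (tw w) f d)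
    (hg : IsWeightedHomogeneous (tw w) g d) (h0 : f ≠ 0) : ∃ c : ℂ, g = C c * f := by
  by_cases hg0 : g = 0
  · exact ⟨0, by rw [hg0, C_0, zero_mul]⟩
  obtain ⟨u, a, ha, rfl, hu⟩ := form δ hf h0
  obtain ⟨v, b, hb, rfl, hv⟩ := form δ hg hg0
  have huv : u = v := by
    ext k
    have h1 := hu k
    rw [hv k] at h1
    have h3 := mul_left_cancel₀ δ.hN.ne' h1
    exact_mod_cast h3.symm
  subst huv
  refine ⟨b / a, ?_⟩
  rw [C_mul_monomial, div_mul_cancel₀ _ ha]

theorem only {f : MvPolynomial (Fin 3) ℂ} {d : M} (hf : IsWeightedHomogeneous (tw w) f d)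
    (h0 : f ≠ 0) (v : Fin 3) (hv : ∀ k, k ≠ v → δ.Λ k d = 0) :
    ∃ (c : ℂ) (m : ℕ), c ≠ 0 ∧ f = C c * X v ^ m ∧ δ.Λ v d = δ.N * m := by
  obtain ⟨u, c, hc, rfl, hu⟩ := form δ hf h0
  refine ⟨c, u v, hc, ?_, hu v⟩
  have h1 : u = Finsupp.single v (u v) := by
    ext k
    by_cases hk : k = v
    · subst hk
      rw [Finsupp.single_eq_same]
    · rw [Finsupp.single_eq_of_ne hk]
      have h2 := hu k
      rw [hv k hk] at h2
      have h3 := (mul_eq_zero.1 h2.symm).resolve_left δ.hN.ne'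
      exact_mod_cast h3
  rw [X_pow_eq_monomial, C_mul_monomial, mul_one, ← h1]

/-! ### primitive sections -/

variable {E : Bundle2 2} (D : EqB E w)

/-- a primitive semi-invariant section -/
structure Prim (τ : M) (G : Vec E.a 2) : Prop where
  sec : HSec D τ G
  prim : ∀ j, ¬ ∀ i, X j ∣ G i

variable {D}

theorem Prim.ne {τ : M} {G : Vec E.a 2} (h : Prim D τ G) : ∃ i, G i ≠ 0 := by
  by_contra hc
  push Not at hc
  exact h.prim 0 fun i => by rw [hc i]; exact dvd_zero _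

theorem weight_fst (w : Fin 3 → ℤ × ℤ) (u : Fin 3 →₀ ℕ) :
    (Finsupp.weight (tw w) u).1 = ∑ i, (u i : ℤ) := by
  rw [Finsupp.weight_apply, Finsupp.sum_fintype _ _ (by simp), Prod.fst_sum]
  refine Finset.sum_congr rfl fun i _ => ?_
  simp [tw]

theorem HSec_div {τ : M} {G H : Vec E.a 2} {j : Fin 3} (hG : HSec D τ G)
    (h : ∀ i, G i = X j * H i) : HSec D (τ - tw w j) H where
  hom := by
    intro i v hv
    have h1 : coeff (Finsupp.single j 1 + v) (G i) ≠ 0 := by
      rw [h i, coeff_X_mul]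
      exact hv
    have h2 := hG.hom i h1
    rw [map_add, Finsupp.weight_single, one_smul] at h2
    rw [add_sub_assoc', ← h2]
    abel
  ker := by
    intro k
    have h1 := hG.ker k
    have h2 : X j * ∑ i, E.B k i * H i = 0 := by
      rw [← h1, Finset.mul_sum]
      refine Finset.sum_congr rfl fun i _ => ?_
      rw [h i]
      ring
    exact (mul_eq_zero.1 h2).resolve_left (X_ne_zero j)

theorem exists_prim : ∀ (N : ℕ) (τ : M) (G : Vec E.a 2), HSec D τ G →
    (∃ i, G i ≠ 0 ∧ E.β i + τ.1 < N) → ∃ (r : Fin 3 → ℕ) (τ0 : M) (A : Vec E.a 2),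
      Prim D τ0 A ∧ τ = τ0 + ∑ j, (r j : ℤ) • tw w j ∧ G = fun i => (∏ j, X j ^ r j) * A i := by
  intro N
  induction N with
  | zero =>
    rintro τ G hG ⟨i, hi, hlt⟩
    exfalso
    obtain ⟨u, hu⟩ := ne_zero_iff.1 hi
    have h1 := hG.hom i hu
    have h2 := congrArg Prod.fst h1
    rw [weight_fst] at h2
    have h3 : (0 : ℤ) ≤ ∑ i, (u i : ℤ) := Finset.sum_nonneg fun _ _ => by positivity
    rw [h2] at h3
    have h4 : ((E.β i, D.b i) + τ : M).1 = E.β i + τ.1 := rfl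
    rw [h4] at h3
    push_cast at hlt
    omega
  | succ N ih =>
    rintro τ G hG ⟨i, hi, hlt⟩
    by_cases hp : ∃ j, ∀ i, X j ∣ G i
    · obtain ⟨j, hj⟩ := hp
      choose H hH using hj
      have hHi : H i ≠ 0 := by
        intro h0
        apply hi
        rw [hH i, h0, mul_zero]
      obtain ⟨r, τ0, A, hA, hτ, hHA⟩ := ih (τ - tw w j) H (HSec_div hG hH) ⟨i, hHi, by
        have h4 : (τ - tw w j).1 = τ.1 - 1 := rfl
        rw [h4]
        push_cast at hlt
        omega⟩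
      refine ⟨Function.update r j (r j + 1), τ0, A, hA, ?_, ?_⟩
      · have h5 : ∑ l, ((Function.update r j (r j + 1) l : ℕ) : ℤ) • tw w l =
            ∑ l, ((r l : ℕ) : ℤ) • tw w l + tw w j := by
          rw [← Finset.add_sum_erase _ _ (Finset.mem_univ j),
            ← Finset.add_sum_erase (a := j) _ (fun l => ((r l : ℕ) : ℤ) • tw w l)
              (Finset.mem_univ j)]
          rw [Function.update_self]
          have h6 : ∑ l ∈ Finset.univ.erase j, ((Function.update r j (r j + 1) l : ℕ) : ℤ) • tw w l =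
              ∑ l ∈ Finset.univ.erase j, ((r l : ℕ) : ℤ) • tw w l := by
            refine Finset.sum_congr rfl fun l hl => ?_
            rw [Function.update_of_ne (Finset.ne_of_mem_erase hl)]
          rw [h6]
          push_cast
          rw [add_smul, one_smul]
          abel
        rw [h5, ← add_assoc, ← hτ]
        abel
      · funext l
        rw [hH l, hHA]
        have h5 : ∏ l, (X l : MvPolynomial (Fin 3) ℂ) ^ (Function.update r j (r j + 1) l) =
            (∏ l, X l ^ r l) * X j := by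
          rw [← Finset.mul_prod_erase _ _ (Finset.mem_univ j),
            ← Finset.mul_prod_erase _ (fun l => (X l : MvPolynomial (Fin 3) ℂ) ^ r l)
              (Finset.mem_univ j)]
          rw [Function.update_self]
          have h6 : ∏ l ∈ Finset.univ.erase j,
              (X l : MvPolynomial (Fin 3) ℂ) ^ (Function.update r j (r j + 1) l) =
              ∏ l ∈ Finset.univ.erase j, X l ^ r l := by
            refine Finset.prod_congr rfl fun l hl => ?_
            rw [Function.update_of_ne (Finset.ne_of_mem_erase hl)]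
          rw [h6]
          ring
        rw [h5]
        ring
    · push Not at hp
      refine ⟨fun _ => 0, τ, G, ⟨hG, fun j hj => ?_⟩, by simp, by simp⟩
      obtain ⟨i, hi⟩ := hp j
      exact hi (hj i)

/-! ### wedge products -/

variable (W : Wedge D)

theorem wd_zero_left {G G' : Vec E.a 2} (hG : Ker E G) (hG' : Ker E G') (h : ∀ i, G i = 0) :
    W.wd G G' = 0 := by
  have h1 := W.smul 0 G G' hG hG'
  have h2 : (fun i => (0 : MvPolynomial (Fin 3) ℂ) * G i) = G := by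
    funext i
    rw [h i, mul_zero]
  rw [h2, zero_mul] at h1
  exact h1

theorem wd_self {G : Vec E.a 2} (hG : Ker E G) : W.wd G G = 0 := by
  have h := W.anti G G hG hG
  have h2 : (2 : MvPolynomial (Fin 3) ℂ) * W.wd G G = 0 := by
    linear_combination h
  rcases mul_eq_zero.1 h2 with h3 | h3
  · exact absurd h3 two_ne_zero
  · exact h3

theorem wd_swap {G G' : Vec E.a 2} (hG : Ker E G) (hG' : Ker E G') (h : W.wd G G' = 0) :
    W.wd G' G = 0 := by
  rw [W.anti G' G hG' hG, h, neg_zero]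

theorem ker_mul {G : Vec E.a 2} (hG : Ker E G) (p : MvPolynomial (Fin 3) ℂ) :
    Ker E (fun i => p * G i) := by
  intro k
  have h1 := hG k
  calc ∑ i, E.B k i * (p * G i) = p * ∑ i, E.B k i * G i := by
        rw [Finset.mul_sum]
        exact Finset.sum_congr rfl fun i _ => by ring
    _ = 0 := by rw [h1, mul_zero]

/-- the shifted coordinates of a degree -/
def sg (k : Fin 3) (τ : M) : ℤ := 2 * δ.Λ k τ + δ.Λ k W.κ

theorem sg_add (k : Fin 3) (τ τ' : M) :
    2 * δ.Λ k (τ + τ' + W.κ) = sg δ W k τ + sg δ W k τ' := by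
  unfold sg
  rw [map_add, map_add]
  ring

include δ in
theorem half {τ τ' : M} {F F' : Vec E.a 2} (hF : HSec D τ F) (hF0 : ∃ i, F i ≠ 0)
    (hF' : Prim D τ' F') (key : ∀ i j, F i * F' j = F j * F' i) (k : Fin 3) :
    δ.Λ k τ' ≤ δ.Λ k τ := by
  by_contra hlt
  push Not at hlt
  apply hF'.prim k
  intro j
  by_cases hj : F' j = 0
  · rw [hj]; exact dvd_zero _
  obtain ⟨i0, hi0⟩ := hF0
  have hFj : F j ≠ 0 := by
    intro h0
    have h1 := key i0 j
    rw [h0, zero_mul] at h1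
    rcases mul_eq_zero.1 h1 with h2 | h2
    · exact hi0 h2
    · exact hj h2
  obtain ⟨n1, hn1⟩ := lam_nat δ (hF.hom j) hFj k
  obtain ⟨n2, hn2⟩ := lam_nat δ (hF'.sec.hom j) hj k
  rw [map_add] at hn1 hn2
  have h3 : δ.N * (n1 : ℤ) < δ.N * n2 := by linarith
  have h4 : (n1 : ℤ) < n2 := lt_of_mul_lt_mul_left h3 δ.hN.le
  have h5 : X k ^ 1 ∣ F' j := by
    rw [dvd_iff δ (hF'.sec.hom j) hj, map_add, hn2]
    apply mul_le_mul_of_nonneg_left _ δ.hN.le
    push_cast
    omega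
  rwa [pow_one] at h5

include δ in
/-- primitive sections with vanishing wedge product are proportional -/
theorem prop_of_wd {τ τ' : M} {F F' : Vec E.a 2} (hF : Prim D τ F) (hF' : Prim D τ' F')
    (h : W.wd F F' = 0) : τ' = τ ∧ ∃ c : ℂ, c ≠ 0 ∧ F' = fun i => C c * F i := by
  have key : ∀ i j, F i * F' j = F j * F' i := by
    intro i j
    have h1 := W.eq F F' hF.sec.ker hF'.sec.ker i j
    rw [h, zero_mul] at h1
    exact sub_eq_zero.1 h1
  have key' : ∀ i j, F' i * F j = F' j * F i := by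
    intro i j
    have h1 := key i j
    linear_combination -h1
  have hτ : τ' = τ := by
    have h1 : τ' - τ = 0 := by
      apply δ.h2
      intro k
      rw [map_sub]
      have a1 := half δ hF.sec hF.ne hF' key k
      have a2 := half δ hF'.sec hF'.ne hF key' k
      omega
    exact sub_eq_zero.1 h1
  refine ⟨hτ, ?_⟩
  subst hτ
  obtain ⟨i0, hi0⟩ := hF.ne
  obtain ⟨c, hc⟩ := same δ (hF.sec.hom i0) (hF'.sec.hom i0) hi0
  have hF'c : F' = fun i => C c * F i := by
    funext j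
    have h1 := key i0 j
    rw [hc] at h1
    apply mul_left_cancel₀ hi0
    rw [h1]
    ring
  refine ⟨c, ?_, hF'c⟩
  rintro rfl
  obtain ⟨i1, hi1⟩ := hF'.ne
  apply hi1
  rw [hF'c, C_0]
  exact zero_mul _

/-- the tropical lemma -/
theorem trop {τ1 τ2 τ3 : M} {A B F : Vec E.a 2} (hA : HSec D τ1 A) (hB : HSec D τ2 B)
    (hF : Prim D τ3 F) (hAB : W.wd A B ≠ 0) (hAF : W.wd A F ≠ 0) (hBF : W.wd B F ≠ 0)
    (k : Fin 3) (h1 : sg δ W k τ1 < sg δ W k τ3) (h2 : sg δ W k τ2 < sg δ W k τ3) : False := by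
  apply hF.prim k
  intro i
  by_cases hi : F i = 0
  · rw [hi]; exact dvd_zero _
  have hAB' := W.hom _ _ _ _ hA hB
  have hAF' := W.hom _ _ _ _ hA hF.sec
  have hBF' := W.hom _ _ _ _ hB hF.sec
  obtain ⟨e, he⟩ := lam_nat δ hAB' hAB k
  obtain ⟨e2, he2⟩ := lam_nat δ hAF' hAF k
  obtain ⟨e3, he3⟩ := lam_nat δ hBF' hBF k
  have s1 := sg_add δ W k τ1 τ2
  have s2 := sg_add δ W k τ1 τ3
  have s3 := sg_add δ W k τ2 τ3
  have g2 : δ.N * (e : ℤ) < δ.N * e2 := by linarith
  have g3 : δ.N * (e : ℤ) < δ.N * e3 := by linarith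
  have l2 : (e : ℤ) < e2 := lt_of_mul_lt_mul_left g2 δ.hN.le
  have l3 : (e : ℤ) < e3 := lt_of_mul_lt_mul_left g3 δ.hN.le
  have d2 : X k ^ (e + 1) ∣ W.wd A F := by
    rw [dvd_iff δ hAF' hAF, he2]
    apply mul_le_mul_of_nonneg_left _ δ.hN.le
    push_cast
    omega
  have d3 : X k ^ (e + 1) ∣ W.wd B F := by
    rw [dvd_iff δ hBF' hBF, he3]
    apply mul_le_mul_of_nonneg_left _ δ.hN.le
    push_cast
    omega
  have hthree := W.three A B F hA.ker hB.ker hF.sec.ker i
  have d1 : X k ^ (e + 1) ∣ W.wd A B * F i := by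
    have h3 : W.wd A B * F i = W.wd A F * B i - W.wd B F * A i := by
      linear_combination hthree
    rw [h3]
    exact dvd_sub (Dvd.dvd.mul_right d2 _) (Dvd.dvd.mul_right d3 _)
  rw [dvd_iff δ (hAB'.mul (hF.sec.hom i)) (mul_ne_zero hAB hi), map_add, he] at d1
  have d4 : X k ^ 1 ∣ F i := by
    rw [dvd_iff δ (hF.sec.hom i) hi]
    push_cast at d1 ⊢
    linarith
  rwa [pow_one] at d4

/-! ### splitting -/

theorem isSection {τ : M} {G : Vec E.a 2} (h : HSec D τ G) : E.IsSection τ.1 G := by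
  constructor
  · intro i
    by_cases h0 : G i = 0
    · exact Or.inl h0
    right
    have hdeg : ∀ v, coeff v (G i) ≠ 0 → ∑ l, (v l : ℤ) = E.β i + τ.1 := by
      intro v hv
      have h2 := congrArg Prod.fst (h.hom i hv)
      rw [weight_fst] at h2
      exact h2
    obtain ⟨u, hu⟩ := ne_zero_iff.1 h0
    refine ⟨∑ l, u l, ?_, ?_⟩
    · rw [← hdeg u hu]
      push_cast
      rfl
    · intro v hv
      have h3 := hdeg v hv
      rw [← hdeg u hu] at h3
      rw [Finsupp.weight_apply, Finsupp.sum_fintype _ _ (by simp)]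
      have h4 : ∑ l, v l = ∑ l, u l := by exact_mod_cast h3
      simpa using h4
  · intro x hx
    show evv G x ∈ LinearMap.ker (Matrix.mulVecLin (evm E.B x))
    rw [LinearMap.mem_ker, Matrix.mulVecLin_apply]
    funext k
    have h1 := congrArg (eval x) (h.ker k)
    rw [map_sum, map_zero] at h1
    simp only [map_mul] at h1
    exact h1

theorem splits_of_const {τ τ' : M} {A B : Vec E.a 2} (hA : HSec D τ A) (hB : HSec D τ' B)
    (c : ℂ) (hc : c ≠ 0) (h : W.wd A B = C c) : E.Splits := by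
  refine ⟨-τ.1, -τ'.1, A, B, ?_, ?_, ?_⟩
  · rw [neg_neg]; exact isSection hA
  · rw [neg_neg]; exact isSection hB
  · intro x hx
    rw [← W.ind x hx A B hA.ker hB.ker, h, eval_C]
    exact hc

/-! ### pairs at a vertex -/

/-- a pair at the vertex `v` -/
structure Pair (v : Fin 3) (τ τ' : M) (A B : Vec E.a 2) : Prop where
  a : Prim D τ A
  b : Prim D τ' B
  ev : eval (Pi.single v 1 : Fin 3 → ℂ) (W.wd A B) ≠ 0

variable {W}

theorem Pair.ne {v : Fin 3} {τ τ' : M} {A B : Vec E.a 2} (h : Pair W v τ τ' A B) :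
    W.wd A B ≠ 0 := by
  intro h0
  apply h.ev
  rw [h0, map_zero]

theorem Pair.swap {v : Fin 3} {τ τ' : M} {A B : Vec E.a 2} (h : Pair W v τ τ' A B) :
    Pair W v τ' τ B A where
  a := h.b
  b := h.a
  ev := by
    rw [W.anti B A h.b.sec.ker h.a.sec.ker, map_neg, neg_ne_zero]
    exact h.ev

theorem Pair.zero {v : Fin 3} {τ τ' : M} {A B : Vec E.a 2} (h : Pair W v τ τ' A B)
    (k : Fin 3) (hk : k ≠ v) : δ.Λ k (τ + τ' + W.κ) = 0 := by
  have hom := W.hom _ _ _ _ h.a.sec h.b.sec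
  obtain ⟨n, hn⟩ := lam_nat δ hom h.ne k
  rcases Nat.eq_zero_or_pos n with rfl | hpos
  · rw [hn]; simp
  · exfalso
    have h1 : X k ^ 1 ∣ W.wd A B := by
      rw [dvd_iff δ hom h.ne, hn]
      apply mul_le_mul_of_nonneg_left _ δ.hN.le
      exact_mod_cast hpos
    obtain ⟨g, hg⟩ := h1
    apply h.ev
    rw [hg, pow_one, map_mul, eval_X, Pi.single_eq_of_ne hk, zero_mul]

theorem Pair.sg0 {v : Fin 3} {τ τ' : M} {A B : Vec E.a 2} (h : Pair W v τ τ' A B)
    (k : Fin 3) (hk : k ≠ v) : sg δ W k τ + sg δ W k τ' = 0 := by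
  rw [← sg_add, h.zero δ k hk, mul_zero]

theorem Pair.pos {v : Fin 3} {τ τ' : M} {A B : Vec E.a 2} (h : Pair W v τ τ' A B)
    (hE : ¬ E.Splits) : 0 < sg δ W v τ + sg δ W v τ' := by
  have hom := W.hom _ _ _ _ h.a.sec h.b.sec
  obtain ⟨c, m, hc, hf, hm⟩ := only δ hom h.ne v fun k hk => h.zero δ k hk
  rw [← sg_add, hm]
  rcases Nat.eq_zero_or_pos m with rfl | hpos
  · exfalso
    apply hE
    rw [pow_zero, mul_one] at hf
    exact splits_of_const W h.a.sec h.b.sec c hc hf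
  · have h1 : (0 : ℤ) < m := by exact_mod_cast hpos
    have h2 := mul_pos δ.hN h1
    linarith

theorem decomp {v : Fin 3} {τ τ' : M} {G G' : Vec E.a 2} (hG : HSec D τ G) (hG' : HSec D τ' G')
    (h : eval (Pi.single v 1 : Fin 3 → ℂ) (W.wd G G') ≠ 0) :
    ∃ (r r' : ℕ) (τ0 τ0' : M) (A B : Vec E.a 2), Pair W v τ0 τ0' A B ∧
      τ = τ0 + (r : ℤ) • tw w v ∧ τ' = τ0' + (r' : ℤ) • tw w v ∧
      G = (fun i => X v ^ r * A i) ∧ G' = fun i => X v ^ r' * B i := by
  have hne : W.wd G G' ≠ 0 := fun h0 => h (by rw [h0, map_zero])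
  have ex : ∀ (τ : M) (G : Vec E.a 2), HSec D τ G → (∃ i, G i ≠ 0) →
      ∃ (r : Fin 3 → ℕ) (τ0 : M) (A : Vec E.a 2), Prim D τ0 A ∧
        τ = τ0 + ∑ j, (r j : ℤ) • tw w j ∧ G = fun i => (∏ j, X j ^ r j) * A i := by
    rintro τ G hG ⟨i, hi⟩
    refine exists_prim ((E.β i + τ.1).toNat + 1) τ G hG ⟨i, hi, ?_⟩
    push_cast
    omega
  obtain ⟨r, τ0, A, hA, hτ, hGA⟩ := ex τ G hG (by
    by_contra hc
    push Not at hc
    exact hne (wd_zero_left W hG.ker hG'.ker hc))
  obtain ⟨r', τ0', B, hB, hτ', hGB⟩ := ex τ' G' hG' (by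
    by_contra hc
    push Not at hc
    exact hne (wd_swap W hG'.ker hG.ker (wd_zero_left W hG'.ker hG.ker hc)))
  have e1 : W.wd G G' = (∏ j, X j ^ r j) * ((∏ j, X j ^ r' j) * W.wd A B) := by
    rw [hGA, W.smul _ A G' hA.sec.ker hG'.ker, W.anti A G' hA.sec.ker hG'.ker]
    conv_lhs => rw [hGB]
    rw [W.smul _ B A hB.sec.ker hA.sec.ker, W.anti B A hB.sec.ker hA.sec.ker]
    ring
  rw [e1, map_mul, map_mul] at h
  have hr0 : ∀ (r : Fin 3 → ℕ), eval (Pi.single v 1 : Fin 3 → ℂ) (∏ j, X j ^ r j) ≠ 0 →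
      ∀ j, j ≠ v → r j = 0 := by
    intro r hr j hj
    by_contra h0
    apply hr
    rw [map_prod]
    apply Finset.prod_eq_zero (Finset.mem_univ j)
    rw [map_pow, eval_X, Pi.single_eq_of_ne hj, zero_pow h0]
  have h1 := hr0 r (left_ne_zero_of_mul h)
  have h2 := hr0 r' (left_ne_zero_of_mul (right_ne_zero_of_mul h))
  have hprod : ∀ (r : Fin 3 → ℕ), (∀ j, j ≠ v → r j = 0) →
      ∏ j, (X j : MvPolynomial (Fin 3) ℂ) ^ r j = X v ^ r v := by
    intro r hr
    rw [Finset.prod_eq_single v]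
    · intro j _ hj
      rw [hr j hj, pow_zero]
    · intro h; exact absurd (Finset.mem_univ v) h
  have hsum : ∀ (r : Fin 3 → ℕ), (∀ j, j ≠ v → r j = 0) →
      ∑ j, (r j : ℤ) • tw w j = (r v : ℤ) • tw w v := by
    intro r hr
    rw [Finset.sum_eq_single v]
    · intro j _ hj
      rw [hr j hj]
      simp
    · intro h; exact absurd (Finset.mem_univ v) h
  refine ⟨r v, r' v, τ0, τ0', A, B, ⟨hA, hB, right_ne_zero_of_mul (right_ne_zero_of_mul h)⟩,
    ?_, ?_, ?_, ?_⟩
  · rw [hτ, hsum r h1]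
  · rw [hτ', hsum r' h2]
  · rw [hGA, hprod r h1]
  · rw [hGB, hprod r' h2]

theorem exists_pair (W : Wedge D) (v : Fin 3) :
    ∃ (τ τ' : M) (A B : Vec E.a 2), Pair W v τ τ' A B := by
  have hv : (Pi.single v 1 : Fin 3 → ℂ) ≠ 0 := by
    intro h
    have := congrFun h v
    rw [Pi.single_eq_same] at this
    exact one_ne_zero this
  obtain ⟨τ, τ', G, G', hG, hG', hli⟩ := exists_sec D (Pi.single v 1 : Fin 3 → ℂ) hv
  have h := (W.ind _ hv G G' hG.ker hG'.ker).2 hli
  obtain ⟨_, _, τ0, τ0', A, B, hp, _⟩ := decomp hG hG' h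
  exact ⟨τ0, τ0', A, B, hp⟩

/-! ### the exceptional sections -/

theorem L_of {W : Wedge D} {k : Fin 3} {τ τ' : M} {A B : Vec E.a 2} (hA : Prim D τ A)
    (hB : Prim D τ' B) (hAB : W.wd A B ≠ 0) (h0 : sg δ W k τ + sg δ W k τ' = 0)
    (hneg : sg δ W k τ < 0) : ∀ τ'' F, Prim D τ'' F → W.wd A F ≠ 0 →
      sg δ W k τ'' = - sg δ W k τ := by
  intro τ'' F hF hAF
  have hn : 0 ≤ sg δ W k τ + sg δ W k τ'' := by
    obtain ⟨n, hn⟩ := lam_nat δ (W.hom _ _ _ _ hA.sec hF.sec) hAF k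
    rw [← sg_add, hn]
    have := δ.hN
    positivity
  by_cases hBF : W.wd B F = 0
  · obtain ⟨h1, _⟩ := prop_of_wd δ W hB hF hBF
    rw [h1]
    linarith
  · have h2 : ¬ sg δ W k τ' < sg δ W k τ'' := fun h3 =>
      trop δ W hA.sec hB.sec hF hAB hAF hBF k (by linarith) h3
    linarith

theorem exists_L (hE : ¬ E.Splits) (W : Wedge D) (k : Fin 3) :
    ∃ (τ : M) (L : Vec E.a 2) (Q : ℤ), Prim D τ L ∧ 0 < Q ∧ sg δ W k τ = -Q ∧
      ∀ τ' F, Prim D τ' F → W.wd L F ≠ 0 → sg δ W k τ' = Q := by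
  obtain ⟨v, hv⟩ : ∃ v : Fin 3, k ≠ v := ⟨k + 1, by fin_cases k <;> decide⟩
  obtain ⟨τ, τ', A, B, hp⟩ := exists_pair W v
  have h0 := hp.sg0 δ k hv
  rcases lt_trichotomy (sg δ W k τ) 0 with h | h | h
  · exact ⟨τ, A, - sg δ W k τ, hp.a, by linarith, by ring,
      L_of δ hp.a hp.b hp.ne h0 h⟩
  · exfalso
    have h' : sg δ W k τ' = 0 := by linarith
    have hall : ∀ τ'' F, Prim D τ'' F → sg δ W k τ'' = 0 := by
      intro τ'' F hF
      by_cases hAF : W.wd A F = 0
      · obtain ⟨h1, _⟩ := prop_of_wd δ W hp.a hF hAF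
        rw [h1, h]
      by_cases hBF : W.wd B F = 0
      · obtain ⟨h1, _⟩ := prop_of_wd δ W hp.b hF hBF
        rw [h1, h']
      have hn : 0 ≤ sg δ W k τ + sg δ W k τ'' := by
        obtain ⟨n, hn⟩ := lam_nat δ (W.hom _ _ _ _ hp.a.sec hF.sec) hAF k
        rw [← sg_add, hn]
        have := δ.hN
        positivity
      rcases lt_or_eq_of_le (show 0 ≤ sg δ W k τ'' by linarith) with h3 | h3
      · exact (trop δ W hp.a.sec hp.b.sec hF hp.ne hAF hBF k (by linarith) (by linarith)).elim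
      · exact h3.symm
    obtain ⟨σ, σ', A', B', hp'⟩ := exists_pair W k
    have h4 := hp'.pos δ hE
    rw [hall _ _ hp'.a, hall _ _ hp'.b] at h4
    exact absurd h4 (by norm_num)
  · have h5 : sg δ W k τ' < 0 := by linarith
    exact ⟨τ', B, - sg δ W k τ', hp.b, by linarith, by ring,
      L_of δ hp.b hp.a hp.swap.ne (by linarith) h5⟩

/-- a third index -/
theorem third (i j : Fin 3) (h : i ≠ j) : ∃ v : Fin 3, v ≠ i ∧ v ≠ j := by
  fin_cases i <;> fin_cases j
  · exact absurd rfl h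
  · exact ⟨2, by decide, by decide⟩
  · exact ⟨1, by decide, by decide⟩
  · exact ⟨2, by decide, by decide⟩
  · exact absurd rfl h
  · exact ⟨0, by decide, by decide⟩
  · exact ⟨1, by decide, by decide⟩
  · exact ⟨0, by decide, by decide⟩
  · exact absurd rfl h

theorem others (i : Fin 3) : ∃ j k : Fin 3, i ≠ j ∧ j ≠ k ∧ i ≠ k := by
  fin_cases i
  · exact ⟨1, 2, by decide, by decide, by decide⟩
  · exact ⟨0, 2, by decide, by decide, by decide⟩
  · exact ⟨0, 1, by decide, by decide, by decide⟩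

theorem cover (v j k l : Fin 3) (h1 : v ≠ j) (h2 : j ≠ k) (h3 : v ≠ k) (h : l ≠ v) :
    l = j ∨ l = k := by
  fin_cases v <;> fin_cases j <;> fin_cases k <;> fin_cases l <;> simp_all

end T4aux

open T4aux

/-- the structure of a nonsplit bundle on the plane with an action of the full torus. -/
theorem plane {E : Bundle2 2} {w : Fin 3 → ℤ × ℤ} (D : EqB E w)
    (hw : cr (w 1 - w 0) (w 2 - w 0) ≠ 0) (hE : ¬ E.Splits) :
    ∃ (L : Fin 3 → Vec E.a 2) (t : Fin 3 → M) (m : Fin 3 → ℕ),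
      (∀ i, 1 ≤ m i) ∧ (∀ i, HSec D (t i) (L i)) ∧
      (∀ i j, t i + (m i : ℤ) • tw w i = t j + (m j : ℤ) • tw w j) ∧
      (∀ i j k, i ≠ j → j ≠ k → i ≠ k → ∀ x : Fin 3 → ℂ, x ≠ 0 →
        (LinearIndependent ℂ ![evv (L j) x, evv (L k) x] ↔ x i ≠ 0)) ∧
      (∀ v j k, v ≠ j → j ≠ k → v ≠ k → ∀ (τ τ' : M) (G G' : Vec E.a 2),
        HSec D τ G → HSec D τ' G' →
        LinearIndependent ℂ ![evv G (Pi.single v 1), evv G' (Pi.single v 1)] →
        ∃ (r r' : ℕ) (c c' : ℂ), c ≠ 0 ∧ c' ≠ 0 ∧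
          ((τ = t j + (r : ℤ) • tw w v ∧ τ' = t k + (r' : ℤ) • tw w v ∧
            (G = fun i => C c * X v ^ r * L j i) ∧ (G' = fun i => C c' * X v ^ r' * L k i)) ∨
           (τ = t k + (r : ℤ) • tw w v ∧ τ' = t j + (r' : ℤ) • tw w v ∧
            (G = fun i => C c * X v ^ r * L k i) ∧
            (G' = fun i => C c' * X v ^ r' * L j i)))) := by
  obtain ⟨δ⟩ := exists_dual hw
  obtain ⟨W⟩ := exists_wedge (by norm_num) D
  choose t L Q hL hQ hsg hother using fun k => exists_L δ hE W k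
  -- a pair at `v ≠ k` contains `L k`
  have F1 : ∀ (v k : Fin 3) (τ τ' : M) (A B : Vec E.a 2), k ≠ v → Pair W v τ τ' A B →
      W.wd (L k) A = 0 ∨ W.wd (L k) B = 0 := by
    intro v k τ τ' A B hk hp
    by_contra hc
    push Not at hc
    have h1 := hother k τ A hp.a hc.1
    have h2 := hother k τ' B hp.b hc.2
    have h3 := hp.sg0 δ k hk
    have h4 := hQ k
    rw [h1, h2] at h3
    linarith
  -- a pair at `k` does not contain `L k`
  have F2 : ∀ (k : Fin 3) (τ τ' : M) (A B : Vec E.a 2), Pair W k τ τ' A B →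
      W.wd (L k) A ≠ 0 := by
    intro k τ τ' A B hp h0
    obtain ⟨hτ, c, hc, hA⟩ := prop_of_wd δ W (hL k) hp.a h0
    have h1 : W.wd (L k) B ≠ 0 := by
      intro h1
      apply hp.ne
      rw [hA, W.smul _ _ _ (hL k).sec.ker hp.b.sec.ker, h1, mul_zero]
    have h2 := hother k τ' B hp.b h1
    have h3 := hp.pos δ hE
    rw [hτ, hsg, h2] at h3
    linarith
  -- the sections `L k` are pairwise independent
  have F3 : ∀ j k : Fin 3, j ≠ k → W.wd (L j) (L k) ≠ 0 := by
    intro j k hjk h0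
    obtain ⟨_, c, hc, hLk⟩ := prop_of_wd δ W (hL j) (hL k) h0
    have key : ∀ (τ τ' : M) (A B : Vec E.a 2), Pair W j τ τ' A B → W.wd (L k) A ≠ 0 := by
      intro τ τ' A B hp h1
      have h2 := F2 j τ τ' A B hp
      rw [hLk, W.smul _ _ _ (hL j).sec.ker hp.a.sec.ker] at h1
      rcases mul_eq_zero.1 h1 with h3 | h3
      · exact hc (C_eq_zero.1 h3)
      · exact h2 h3
    obtain ⟨τ, τ', A, B, hp⟩ := exists_pair W j
    rcases F1 j k τ τ' A B (Ne.symm hjk) hp with h1 | h1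
    · exact key _ _ _ _ hp h1
    · exact key _ _ _ _ hp.swap h1
  -- the coordinates of the degrees
  have hsg' : ∀ l i : Fin 3, sg δ W l (t i) = if i = l then - Q l else Q l := by
    intro l i
    by_cases h : i = l
    · subst h
      rw [if_pos rfl, hsg]
    · rw [if_neg h]
      exact hother l (t i) (L i) (hL i) (F3 l i (Ne.symm h))
  have hdeg : ∀ i j k : Fin 3, i ≠ j → j ≠ k → i ≠ k →
      (∀ l, l ≠ i → δ.Λ l (t j + t k + W.κ) = 0) ∧ δ.Λ i (t j + t k + W.κ) = Q i := by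
    intro i j k hij hjk hik
    constructor
    · intro l hl
      have h1 := sg_add δ W l (t j) (t k)
      rw [hsg', hsg'] at h1
      rcases cover i j k l hij hjk hik hl with rfl | rfl
      · rw [if_pos rfl, if_neg (Ne.symm hjk)] at h1
        linarith
      · rw [if_neg hjk, if_pos rfl] at h1
        linarith
    · have h1 := sg_add δ W i (t j) (t k)
      rw [hsg', hsg', if_neg (Ne.symm hij), if_neg (Ne.symm hik)] at h1
      linarith
  have hform : ∀ i j k : Fin 3, i ≠ j → j ≠ k → i ≠ k →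
      ∃ (c : ℂ) (m : ℕ), c ≠ 0 ∧ W.wd (L j) (L k) = C c * X i ^ m ∧ Q i = δ.N * m := by
    intro i j k hij hjk hik
    obtain ⟨h1, h2⟩ := hdeg i j k hij hjk hik
    obtain ⟨c, m, hc, hf, hm⟩ := only δ (W.hom _ _ _ _ (hL j).sec (hL k).sec) (F3 j k hjk) i h1
    exact ⟨c, m, hc, hf, by rw [← h2, hm]⟩
  have hex : ∀ i : Fin 3, ∃ m : ℕ, Q i = δ.N * m := by
    intro i
    obtain ⟨j, k, hij, hjk, hik⟩ := others i
    obtain ⟨c, m, _, _, hm⟩ := hform i j k hij hjk hik
    exact ⟨m, hm⟩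
  choose m hm using hex
  have hm1 : ∀ i, 1 ≤ m i := by
    intro i
    rcases Nat.eq_zero_or_pos (m i) with h | h
    · have h1 := hQ i
      rw [hm i, h] at h1
      simp at h1
    · exact h
  refine ⟨L, t, m, hm1, fun i => (hL i).sec, ?_, ?_, ?_⟩
  · intro i j
    have h1 : t i + (m i : ℤ) • tw w i - (t j + (m j : ℤ) • tw w j) = 0 := by
      apply δ.h2
      intro l
      have key : ∀ i : Fin 3, 2 * δ.Λ l (t i + (m i : ℤ) • tw w i) = Q l - δ.Λ l W.κ := by
        intro i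
        have h2 := hsg' l i
        unfold sg at h2
        rw [map_add, map_zsmul, δ.h1]
        by_cases h : i = l
        · subst h
          rw [if_pos rfl] at h2
          rw [if_pos rfl, smul_eq_mul, mul_comm ((m i : ℕ) : ℤ) δ.N, ← hm i]
          linarith
        · rw [if_neg h] at h2
          rw [if_neg h, smul_zero]
          linarith
      have h3 := key i
      have h4 := key j
      rw [map_sub]
      omega
    exact sub_eq_zero.1 h1
  · intro i j k hij hjk hik x hx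
    rw [← W.ind x hx (L j) (L k) (hL j).sec.ker (hL k).sec.ker]
    obtain ⟨c, n, hc, hf, hn⟩ := hform i j k hij hjk hik
    have hn1 : n ≠ 0 := by
      rintro rfl
      have h1 := hQ i
      rw [hn] at h1
      simp at h1
    rw [hf, map_mul, eval_C, map_pow, eval_X]
    constructor
    · intro h h0
      apply h
      rw [h0, zero_pow hn1, mul_zero]
    · intro h
      exact mul_ne_zero hc (pow_ne_zero _ h)
  · intro v j k hvj hjk hvk τ τ' G G' hG hG' hli
    have hv : (Pi.single v 1 : Fin 3 → ℂ) ≠ 0 := by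
      intro h
      have := congrFun h v
      rw [Pi.single_eq_same] at this
      exact one_ne_zero this
    have h := (W.ind _ hv G G' hG.ker hG'.ker).2 hli
    obtain ⟨r, r', τ0, τ0', A, B, hp, hτ, hτ', hGA, hGB⟩ := decomp hG hG' h
    have notboth : ∀ (σ : M) (F : Vec E.a 2), Prim D σ F → W.wd (L j) F = 0 →
        W.wd (L k) F = 0 → False := by
      intro σ F hF h1 h2
      obtain ⟨_, c, hc, hFe⟩ := prop_of_wd δ W (hL j) hF h1
      have h3 := wd_swap W (hL k).sec.ker hF.sec.ker h2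
      rw [hFe, W.smul _ _ _ (hL j).sec.ker (hL k).sec.ker] at h3
      rcases mul_eq_zero.1 h3 with h4 | h4
      · exact hc (C_eq_zero.1 h4)
      · exact F3 j k hjk h4
    rcases F1 v j _ _ A B (Ne.symm hvj) hp with h1 | h1 <;>
      rcases F1 v k _ _ A B (Ne.symm hvk) hp with h2 | h2
    · exact (notboth _ _ hp.a h1 h2).elim
    · obtain ⟨e1, c, hc, hA⟩ := prop_of_wd δ W (hL j) hp.a h1
      obtain ⟨e2, c', hc', hB⟩ := prop_of_wd δ W (hL k) hp.b h2
      refine ⟨r, r', c, c', hc, hc', Or.inl ⟨by rw [hτ, e1], by rw [hτ', e2], ?_, ?_⟩⟩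
      · rw [hGA, hA]
        funext i
        ring
      · rw [hGB, hB]
        funext i
        ring
    · obtain ⟨e1, c, hc, hB⟩ := prop_of_wd δ W (hL j) hp.b h1
      obtain ⟨e2, c', hc', hA⟩ := prop_of_wd δ W (hL k) hp.a h2
      refine ⟨r, r', c', c, hc', hc, Or.inr ⟨by rw [hτ, e2], by rw [hτ', e1], ?_, ?_⟩⟩
      · rw [hGA, hA]
        funext i
        ring
      · rw [hGB, hB]
        funext i
        ring
    · exact (notboth _ _ hp.b h1 h2).elim

end H938TB
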