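import Pool.Agent.H938R2.TB.T4

/-!
# The two characters at a vertex
-/

set_option autoImplicit false

open MvPolynomial H960VB

namespace H938TB


namespace T6aaux

theorem calc_pr (a0 a1 a2 : ℤ × ℤ) (τ τ' t1 t2 : M) (r r' m1 m2 : ℤ)
    (h1 : τ = t1 + r • ((1, a0) : M)) (h2 : τ' = t2 + r' • ((1, a0) : M))
    (h3 : t1 + m1 • ((1, a1) : M) = t2 + m2 • ((1, a2) : M)) :
    pr a0 (τ - τ') = m2 • (a2 - a0) - m1 • (a1 - a0) := by
  obtain ⟨x0, y0⟩ := a0
  obtain ⟨x1, y1⟩ := a1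
  obtain ⟨x2, y2⟩ := a2
  obtain ⟨p1, q1, s1⟩ := t1
  obtain ⟨p2, q2, s2⟩ := t2
  subst h1 h2
  simp only [Prod.smul_mk, Prod.mk_add_mk, Prod.mk.injEq, smul_eq_mul] at h3
  obtain ⟨e1, e2, e3⟩ := h3
  unfold pr
  simp only [Prod.smul_mk, Prod.mk_add_mk, Prod.mk_sub_mk, smul_eq_mul, Prod.mk.injEq]
  constructor
  · linear_combination e2 - x0 * e1
  · linear_combination e3 - y0 * e1

end T6aaux

section
variable {n : ℕ} {E : Bundle2 n} {w : Fin (n + 1) → ℤ × ℤ}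

/-- the two characters at a vertex, from the plane through three vertices. -/
theorem vertex (hn : 2 ≤ n) (D : EqB E w) (hE : ¬ E.Splits) (v j k : Fin (n + 1))
    (hjk : cr (w j - w v) (w k - w v) ≠ 0) (τ τ' : M) (G G' : Vec E.a n)
    (hG : HSec D τ G) (hG' : HSec D τ' G')
    (hli : LinearIndependent ℂ ![evv G (Pi.single v 1), evv G' (Pi.single v 1)]) :
    ∃ mj mk : ℕ, 1 ≤ mj ∧ 1 ≤ mk ∧
      (pr (w v) (τ - τ') = (mk : ℤ) • (w k - w v) - (mj : ℤ) • (w j - w v) ∨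
       pr (w v) (τ - τ') = (mj : ℤ) • (w j - w v) - (mk : ℤ) • (w k - w v)) := by
  have hjv : j ≠ v := by
    rintro rfl
    apply hjk
    simp [cr]
  have hkv : k ≠ v := by
    rintro rfl
    apply hjk
    simp [cr]
  have hjk' : j ≠ k := by
    rintro rfl
    apply hjk
    simp only [cr]
    ring
  let f : Fin (2 + 1) → Fin (n + 1) := ![v, j, k]
  have hf : Function.Injective f := by
    intro a b hab
    fin_cases a <;> fin_cases b <;> simp_all [f, Matrix.cons_val_zero, Matrix.cons_val_one]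
  have hE' : ¬ (E.pull (cInc f) (cInc_injective f hf)).Splits := fun h =>
    hE (Bundle2.splits_of_pull (n - 2) 2 n le_rfl (by omega) E _ _ h)
  have hw' : cr ((w ∘ f) 1 - (w ∘ f) 0) ((w ∘ f) 2 - (w ∘ f) 0) ≠ 0 := hjk
  obtain ⟨L, t, m, hm, hL, ht, _, hlast⟩ :=
    plane (D.pull (cInc f) (cInc_injective f hf) (w ∘ f) (cInc_weight f w)) hw' hE'
  have hli' : LinearIndependent ℂ
      ![evv (fun i => lsub (cInc f) (G i)) (Pi.single 0 1),
        evv (fun i => lsub (cInc f) (G' i)) (Pi.single 0 1)] := by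
    rw [evv_lsub, evv_lsub, cInc_single]
    exact hli
  obtain ⟨r, r', c, c', _, _, h | h⟩ := hlast 0 1 2 (by decide) (by decide) (by decide) τ τ' _ _
    (hG.pull (cInc f) (cInc_injective f hf) (w ∘ f) (cInc_weight f w))
    (hG'.pull (cInc f) (cInc_injective f hf) (w ∘ f) (cInc_weight f w)) hli'
  · refine ⟨m 1, m 2, hm 1, hm 2, Or.inl ?_⟩
    exact T6aaux.calc_pr (w v) (w j) (w k) τ τ' (t 1) (t 2) r r' (m 1) (m 2) h.1 h.2.1 (ht 1 2)
  · refine ⟨m 1, m 2, hm 1, hm 2, Or.inr ?_⟩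
    exact T6aaux.calc_pr (w v) (w k) (w j) τ τ' (t 2) (t 1) r r' (m 2) (m 1) h.1 h.2.1 (ht 2 1)

end

end H938TB
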