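import Pool.Agent.H938R2.TB.Defs
import Pool.Agent.H938R2.TB.T2
import Pool.Agent.H938R2.TB.T3
import Pool.Agent.H938R2.TB.T4

/-! Task T7: the weights of a nonsplit equivariant bundle are distinct. -/

set_option autoImplicit false

open MvPolynomial H960VB

namespace H938TB


namespace T7aux

/-- the determinant with the degrees `(1, a)`, `(1, b)`. -/
def Phi (a b : ℤ × ℤ) : M →+ ℤ :=
  AddMonoidHom.mk' (fun τ : M => τ.1 * cr a b - τ.2.1 * (b.2 - a.2) + τ.2.2 * (b.1 - a.1)) (by
    intro x y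
    simp only [Prod.fst_add, Prod.snd_add]
    ring)

theorem Phi_a (a b : ℤ × ℤ) : Phi a b ((1, a) : M) = 0 := by
  simp only [Phi, AddMonoidHom.mk'_apply, cr]
  ring

theorem Phi_b (a b : ℤ × ℤ) : Phi a b ((1, b) : M) = 0 := by
  simp only [Phi, AddMonoidHom.mk'_apply, cr]
  ring

theorem Phi_c (a b c : ℤ × ℤ) : Phi a b ((1, c) : M) = cr (a - c) (b - c) := by
  simp only [Phi, AddMonoidHom.mk'_apply, cr, Prod.fst_sub, Prod.snd_sub]
  ring

/-- the inclusion of a plane. -/
noncomputable def TT {n : ℕ} (u : Fin (n + 1) → ℂ) (k l : Fin (n + 1)) :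
    (Fin (2 + 1) → ℂ) →ₗ[ℂ] (Fin (n + 1) → ℂ) :=
  (LinearMap.proj 0 : (Fin (2 + 1) → ℂ) →ₗ[ℂ] ℂ).smulRight u +
    (LinearMap.proj 1 : (Fin (2 + 1) → ℂ) →ₗ[ℂ] ℂ).smulRight (Pi.single k (1 : ℂ)) +
    (LinearMap.proj 2 : (Fin (2 + 1) → ℂ) →ₗ[ℂ] ℂ).smulRight (Pi.single l (1 : ℂ))

theorem TT_apply {n : ℕ} (u : Fin (n + 1) → ℂ) (k l : Fin (n + 1)) (x : Fin (2 + 1) → ℂ) :
    TT u k l x = x 0 • u + x 1 • (Pi.single k (1 : ℂ)) + x 2 • (Pi.single l (1 : ℂ)) := rfl

theorem TT_inj {n : ℕ} {u : Fin (n + 1) → ℂ} {k l : Fin (n + 1)} (hkl : k ≠ l) (hu : u ≠ 0)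
    (hk : u k = 0) (hl : u l = 0) : Function.Injective (TT u k l) := by
  intro x y hxy
  rw [TT_apply, TT_apply] at hxy
  have h1 : x 1 = y 1 := by
    have := congrFun hxy k
    simpa [hk, hkl, Pi.single_apply] using this
  have h2 : x 2 = y 2 := by
    have := congrFun hxy l
    simpa [hl, hkl, hkl.symm, Pi.single_apply] using this
  obtain ⟨i, hi⟩ := Function.ne_iff.1 hu
  have h0 : x 0 = y 0 := by
    have := congrFun hxy i
    rw [h1, h2] at this
    simp only [Pi.add_apply, Pi.smul_apply, smul_eq_mul] at this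
    have h3 : x 0 * u i = y 0 * u i := by linear_combination this
    exact mul_right_cancel₀ hi h3
  ext j
  fin_cases j
  · exact h0
  · exact h1
  · exact h2

theorem TT_single0 {n : ℕ} (u : Fin (n + 1) → ℂ) (k l : Fin (n + 1)) :
    TT u k l (Pi.single 0 1) = u := by
  rw [TT_apply]
  simp

theorem TT_single1 {n : ℕ} (u : Fin (n + 1) → ℂ) (k l : Fin (n + 1)) :
    TT u k l (Pi.single 1 1) = Pi.single k (1 : ℂ) := by
  rw [TT_apply]
  simp

theorem TT_single2 {n : ℕ} (u : Fin (n + 1) → ℂ) (k l : Fin (n + 1)) :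
    TT u k l (Pi.single 2 1) = Pi.single l (1 : ℂ) := by
  rw [TT_apply]
  simp

theorem li_smul {V : Type*} [AddCommGroup V] [Module ℂ V] {a b : V} {c d : ℂ} (hc : c ≠ 0)
    (hd : d ≠ 0) : LinearIndependent ℂ ![c • a, d • b] ↔ LinearIndependent ℂ ![a, b] := by
  rw [LinearIndependent.pair_iff, LinearIndependent.pair_iff]
  constructor
  · intro h s t hst
    have h1 := h (s / c) (t / d) (by
      rw [smul_smul, smul_smul, div_mul_cancel₀ _ hc, div_mul_cancel₀ _ hd]; exact hst)
    rw [div_eq_zero_iff, div_eq_zero_iff] at h1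
    exact ⟨h1.1.resolve_right hc, h1.2.resolve_right hd⟩
  · intro h s t hst
    rw [smul_smul, smul_smul] at hst
    have h1 := h _ _ hst
    rw [mul_eq_zero, mul_eq_zero] at h1
    exact ⟨h1.1.resolve_right hc, h1.2.resolve_right hd⟩

theorem key {n : ℕ} {E : Bundle2 n} {w : Fin (n + 1) → ℤ × ℤ} (hn : 2 ≤ n) (D : EqB E w)
    (hE : ¬ E.Splits) (W : Wedge D) (p k l : Fin (n + 1))
    (hΔ : cr (w k - w p) (w l - w p) ≠ 0)
    (τ τ' σ σ' : M) (G G' H H' : Vec E.a n) (hG : HSec D τ G) (hG' : HSec D τ' G')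
    (hH : HSec D σ H) (hH' : HSec D σ' H')
    (hGli : LinearIndependent ℂ ![evv G (Pi.single k 1), evv G' (Pi.single k 1)])
    (hHli : LinearIndependent ℂ ![evv H (Pi.single l 1), evv H' (Pi.single l 1)])
    (hδG : Phi (w k) (w l) (τ - τ') * cr (w k - w p) (w l - w p) ≤ 0)
    (hδH : Phi (w k) (w l) (σ - σ') * cr (w k - w p) (w l - w p) ≤ 0)
    (u : Fin (n + 1) → ℂ) (hu : u ≠ 0) (huw : ∀ i, u i ≠ 0 → w i = w p) (x : ℂ) :
    eval (x • u + Pi.single k 1 + Pi.single l 1) (W.wd G' H') ≠ 0 ↔ x ≠ 0 := by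
  have hkp : w k ≠ w p := by
    intro h; apply hΔ; rw [h]; simp [cr]
  have hlp : w l ≠ w p := by
    intro h; apply hΔ; rw [h]; simp [cr]
  have hkl : k ≠ l := by
    rintro rfl
    apply hΔ
    simp only [cr]
    ring
  have huk : u k = 0 := by
    by_contra h; exact hkp (huw k h)
  have hul : u l = 0 := by
    by_contra h; exact hlp (huw l h)
  have hT : Function.Injective (TT u k l) := TT_inj hkl hu huk hul
  set w' : Fin (2 + 1) → ℤ × ℤ := ![w p, w k, w l] with hw'def
  have hw0 : w' 0 = w p := rfl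
  have hw1 : w' 1 = w k := rfl
  have hw2 : w' 2 = w l := rfl
  have hw' : ∀ t s, TT u k l (Pi.single t 1) s ≠ 0 → w s = w' t := by
    intro t s h
    fin_cases t
    · simp only [Fin.zero_eta] at h ⊢
      rw [TT_single0] at h
      exact huw s h
    · simp only [Fin.mk_one] at h ⊢
      rw [TT_single1] at h
      have : s = k := by
        by_contra hs
        exact h (Pi.single_eq_of_ne hs 1)
      rw [this, hw1]
    · simp only [Fin.reduceFinMk] at h ⊢
      rw [TT_single2] at h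
      have : s = l := by
        by_contra hs
        exact h (Pi.single_eq_of_ne hs 1)
      rw [this, hw2]
  have hE' : ¬ (E.pull (TT u k l) hT).Splits := fun h =>
    hE (Bundle2.splits_of_pull (n - 2) 2 n le_rfl (by omega) E _ hT h)
  obtain ⟨L, t, m, hm, hL, htm, h4, h5⟩ := plane (D.pull (TT u k l) hT w' hw') hΔ hE'
  have hm0 : (1 : ℤ) ≤ m 0 := by exact_mod_cast hm 0
  have e02 := congrArg (Phi (w k) (w l)) (htm 0 2)
  have e01 := congrArg (Phi (w k) (w l)) (htm 0 1)
  simp only [map_add, map_zsmul, tw, hw0, hw1, hw2, Phi_a, Phi_b, Phi_c, smul_zero, add_zero,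
    smul_eq_mul] at e02 e01
  have hΔ2 : 0 < cr (w k - w p) (w l - w p) * cr (w k - w p) (w l - w p) :=
    mul_self_pos.2 hΔ
  have hpos : 0 < (m 0 : ℤ) * (cr (w k - w p) (w l - w p) * cr (w k - w p) (w l - w p)) :=
    mul_pos (by omega) hΔ2
  -- the sections at the vertex `k`
  have hGv : ∀ G : Vec E.a n, evv (fun i => lsub (TT u k l) (G i)) (Pi.single 1 1) =
      evv G (Pi.single k 1) := by
    intro G
    rw [evv_lsub, TT_single1]
  have hHv : ∀ G : Vec E.a n, evv (fun i => lsub (TT u k l) (G i)) (Pi.single 2 1) =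
      evv G (Pi.single l 1) := by
    intro G
    rw [evv_lsub, TT_single2]
  obtain ⟨r, r', c, c', hc, hc', hAG⟩ := h5 1 0 2 (by decide) (by decide) (by decide) τ τ' _ _
    (hG.pull (TT u k l) hT w' hw') (hG'.pull (TT u k l) hT w' hw') (by
      have h := hGli
      rw [← hGv G, ← hGv G'] at h
      exact h)
  obtain ⟨r2, r2', d, d', hd, hd', hAH⟩ := h5 2 0 1 (by decide) (by decide) (by decide) σ σ' _ _
    (hH.pull (TT u k l) hT w' hw') (hH'.pull (TT u k l) hT w' hw') (by
      have h := hHli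
      rw [← hHv H, ← hHv H'] at h
      exact h)
  have hG2 : (fun i => lsub (TT u k l) (G' i)) = fun i => C c' * X 1 ^ r' * L 2 i := by
    rcases hAG with hA | hB
    · exact hA.2.2.2
    · exfalso
      obtain ⟨b1, b2, -, -⟩ := hB
      rw [b1, b2] at hδG
      simp only [map_sub, map_add, map_zsmul, tw, hw1, Phi_a, smul_zero, add_zero] at hδG
      have h6 : Phi (w k) (w l) (t 2) - Phi (w k) (w l) (t 0)
          = m 0 * cr (w k - w p) (w l - w p) := by linarith
      rw [h6] at hδG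
      nlinarith
  have hH2 : (fun i => lsub (TT u k l) (H' i)) = fun i => C d' * X 2 ^ r2' * L 1 i := by
    rcases hAH with hA | hB
    · exact hA.2.2.2
    · exfalso
      obtain ⟨b1, b2, -, -⟩ := hB
      rw [b1, b2] at hδH
      simp only [map_sub, map_add, map_zsmul, tw, hw2, Phi_b, smul_zero, add_zero] at hδH
      have h6 : Phi (w k) (w l) (t 1) - Phi (w k) (w l) (t 0)
          = m 0 * cr (w k - w p) (w l - w p) := by linarith
      rw [h6] at hδH
      nlinarith
  -- evaluation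
  set z : Fin (2 + 1) → ℂ := ![x, 1, 1] with hz
  have hz0 : z 0 = x := rfl
  have hz1 : z 1 = 1 := rfl
  have hz2 : z 2 = 1 := rfl
  have hzne : z ≠ 0 := by
    intro h
    have := congrFun h 1
    rw [hz1] at this
    exact one_ne_zero this
  have hTz : TT u k l z = x • u + Pi.single k 1 + Pi.single l 1 := by
    rw [TT_apply, hz0, hz1, hz2, one_smul, one_smul]
  have hTzne : TT u k l z ≠ 0 := fun h => hzne (hT (by rw [h, map_zero]))
  rw [← hTz, W.ind _ hTzne _ _ hG'.ker hH'.ker]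
  have hG2i : ∀ i : Fin E.a, lsub (TT u k l) (G' i) = C c' * X 1 ^ r' * L 2 i := congrFun hG2
  have hH2i : ∀ i : Fin E.a, lsub (TT u k l) (H' i) = C d' * X 2 ^ r2' * L 1 i := congrFun hH2
  have e1 : evv G' (TT u k l z) = c' • (fun i => eval z (L 2 i) : Fin E.a → ℂ) := by
    rw [← evv_lsub]
    funext i
    change eval z (lsub (TT u k l) (G' i)) = c' * eval z (L 2 i)
    rw [hG2i, map_mul, map_mul, map_pow, eval_C, eval_X, hz1, one_pow, mul_one]
  have e2 : evv H' (TT u k l z) = d' • (fun i => eval z (L 1 i) : Fin E.a → ℂ) := by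
    rw [← evv_lsub]
    funext i
    change eval z (lsub (TT u k l) (H' i)) = d' * eval z (L 1 i)
    rw [hH2i, map_mul, map_mul, map_pow, eval_C, eval_X, hz2, one_pow, mul_one]
  have h6 : LinearIndependent ℂ ![(fun i => eval z (L 2 i) : Fin E.a → ℂ),
      (fun i => eval z (L 1 i) : Fin E.a → ℂ)] ↔ z 0 ≠ 0 :=
    h4 0 2 1 (by decide) (by decide) (by decide) z hzne
  rw [e1, e2, li_smul hc' hd', h6, hz0]

/-- restriction of a polynomial to a line. -/
noncomputable def line {n : ℕ} (P : MvPolynomial (Fin (n + 1)) ℂ) (a v : Fin (n + 1) → ℂ) :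
    Polynomial ℂ := aeval (fun i => Polynomial.C (a i) + Polynomial.C (v i) * Polynomial.X) P

theorem eval_line {n : ℕ} (P : MvPolynomial (Fin (n + 1)) ℂ) (a v : Fin (n + 1) → ℂ) (s : ℂ) :
    (line P a v).eval s = eval (a + s • v) P := by
  have h : ((Polynomial.aeval s : Polynomial ℂ →ₐ[ℂ] ℂ).comp
      (aeval (fun i => Polynomial.C (a i) + Polynomial.C (v i) * Polynomial.X))) =
      (aeval (a + s • v) : MvPolynomial (Fin (n + 1)) ℂ →ₐ[ℂ] ℂ) := by
    apply MvPolynomial.algHom_ext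
    intro i
    rw [AlgHom.comp_apply, aeval_X, aeval_X]
    simp only [map_add, map_mul, Polynomial.aeval_C, Polynomial.aeval_X, Algebra.algebraMap_self,
      RingHom.id_apply, Pi.add_apply, Pi.smul_apply, smul_eq_mul]
    ring
  have h3 := congrArg (fun f => f P) h
  simpa [line, MvPolynomial.aeval_eq_eval, Polynomial.coe_aeval_eq_eval] using h3

theorem line_const {n : ℕ} (P : MvPolynomial (Fin (n + 1)) ℂ) (a v : Fin (n + 1) → ℂ)
    (h : ∀ s : ℂ, eval (a + s • v) P ≠ 0) (s : ℂ) : eval (a + s • v) P = eval a P := by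
  have hdeg : (line P a v).degree = 0 := by
    by_contra hcon
    obtain ⟨s, hs⟩ := IsAlgClosed.exists_root (line P a v) hcon
    rw [Polynomial.IsRoot, eval_line] at hs
    exact h s hs
  rw [← eval_line]
  have h1 := Polynomial.eq_C_of_degree_eq_zero hdeg
  have h2 : eval a P = (line P a v).eval 0 := by
    rw [eval_line, zero_smul, add_zero]
  rw [h2, h1]
  simp

end T7aux

open T7aux

section
variable {n : ℕ} {E : Bundle2 n} {w : Fin (n + 1) → ℤ × ℤ}

theorem distinct (hn : 2 ≤ n) (D : EqB E w) (hE : ¬ E.Splits)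
    (hw : ∃ i j k, cr (w j - w i) (w k - w i) ≠ 0) : Function.Injective w := by
  intro p q hpq
  by_contra hne
  obtain ⟨k, l, hΔ⟩ : ∃ k l, cr (w k - w p) (w l - w p) ≠ 0 := by
    obtain ⟨i, j, k, h⟩ := hw
    by_contra hcon
    push Not at hcon
    apply h
    have h1 := hcon j k
    have h2 := hcon j i
    have h3 := hcon i k
    simp only [cr, Prod.fst_sub, Prod.snd_sub] at h1 h2 h3 ⊢
    linear_combination h1 - h2 - h3
  obtain ⟨W⟩ := exists_wedge (by omega) D
  have hne1 : ∀ j : Fin (n + 1), (Pi.single j (1 : ℂ) : Fin (n + 1) → ℂ) ≠ 0 := by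
    intro j h
    have := congrFun h j
    simp at this
  -- sections with the right order
  have hsec : ∀ j : Fin (n + 1), ∃ (τ τ' : M) (G G' : Vec E.a n), HSec D τ G ∧ HSec D τ' G' ∧
      LinearIndependent ℂ ![evv G (Pi.single j 1), evv G' (Pi.single j 1)] ∧
      Phi (w k) (w l) (τ - τ') * cr (w k - w p) (w l - w p) ≤ 0 := by
    intro j
    obtain ⟨τ, τ', G, G', h1, h2, h3⟩ := exists_sec D (Pi.single j 1) (hne1 j)
    rcases le_total (Phi (w k) (w l) (τ - τ') * cr (w k - w p) (w l - w p)) 0 with h | h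
    · exact ⟨τ, τ', G, G', h1, h2, h3, h⟩
    · refine ⟨τ', τ, G', G, h2, h1, ?_, ?_⟩
      · rw [LinearIndependent.pair_symm_iff]
        exact h3
      · have e : τ' - τ = -(τ - τ') := by abel
        rw [e, map_neg]
        linarith
  obtain ⟨τ, τ', G, G', hG, hG', hGli, hδG⟩ := hsec k
  obtain ⟨σ, σ', H, H', hH, hH', hHli, hδH⟩ := hsec l
  have K := key hn D hE W p k l hΔ τ τ' σ σ' G G' H H' hG hG' hH hH' hGli hHli hδG hδH
  set P := W.wd G' H' with hP
  have hpq' : p ≠ q := hne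
  -- the vectors `s e_p + t e_q`
  have hu : ∀ s t : ℂ, (s ≠ 0 ∨ t ≠ 0) →
      (s • (Pi.single p (1 : ℂ)) + t • (Pi.single q (1 : ℂ)) : Fin (n + 1) → ℂ) ≠ 0 := by
    intro s t hst h
    have h1 := congrFun h p
    have h2 := congrFun h q
    simp only [Pi.add_apply, Pi.smul_apply, Pi.single_eq_same, smul_eq_mul, mul_one,
      Pi.single_eq_of_ne hpq', Pi.single_eq_of_ne hpq'.symm, mul_zero, add_zero, zero_add,
      Pi.zero_apply] at h1 h2
    rcases hst with h3 | h3
    · exact h3 h1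
    · exact h3 h2
  have huw : ∀ s t : ℂ, ∀ i, (s • (Pi.single p (1 : ℂ)) + t • (Pi.single q (1 : ℂ)) :
      Fin (n + 1) → ℂ) i ≠ 0 → w i = w p := by
    intro s t i hi
    by_cases h1 : i = p
    · rw [h1]
    · by_cases h2 : i = q
      · rw [h2, hpq]
      · exfalso
        apply hi
        simp only [Pi.add_apply, Pi.smul_apply, Pi.single_eq_of_ne h1, Pi.single_eq_of_ne h2,
          smul_zero, add_zero]
  have hval : ∀ s t : ℂ, (s ≠ 0 ∨ t ≠ 0) →
      eval ((s • (Pi.single p (1 : ℂ)) + t • (Pi.single q (1 : ℂ))) + Pi.single k 1 +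
        Pi.single l 1) P ≠ 0 := by
    intro s t hst
    have := (K _ (hu s t hst) (huw s t) 1).2 one_ne_zero
    rwa [one_smul] at this
  have hval0 : eval ((Pi.single k (1 : ℂ) : Fin (n + 1) → ℂ) + Pi.single l 1) P = 0 := by
    by_contra hcon
    have := (K _ (hu 1 0 (Or.inl one_ne_zero)) (huw 1 0) 0).1 (by
      rw [zero_smul, zero_add]; exact hcon)
    exact this rfl
  -- independence of `s` for `t ≠ 0`
  have hconst : ∀ t : ℂ, t ≠ 0 →
      (line P ((Pi.single p (1 : ℂ)) + Pi.single k 1 + Pi.single l 1) (Pi.single q 1)).eval t =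
      (line P ((Pi.single k (1 : ℂ)) + Pi.single l 1) (Pi.single q 1)).eval t := by
    intro t ht
    rw [eval_line, eval_line]
    have h1 := line_const P ((Pi.single k (1 : ℂ)) + Pi.single l 1 + t • Pi.single q 1)
      (Pi.single p 1) (by
        intro s
        have h2 := hval s t (Or.inr ht)
        have e : (s • (Pi.single p (1 : ℂ)) + t • (Pi.single q (1 : ℂ))) + Pi.single k 1 +
            Pi.single l 1 = ((Pi.single k (1 : ℂ)) + Pi.single l 1 + t • Pi.single q 1) +
            s • (Pi.single p 1 : Fin (n + 1) → ℂ) := by abel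
        rwa [e] at h2) 1
    rw [← h1]
    congr 2
    rw [one_smul]
    abel
  have heq : line P ((Pi.single p (1 : ℂ)) + Pi.single k 1 + Pi.single l 1) (Pi.single q 1) =
      line P ((Pi.single k (1 : ℂ)) + Pi.single l 1) (Pi.single q 1) := by
    apply Polynomial.eq_of_infinite_eval_eq
    refine Set.Infinite.mono (s := {t : ℂ | t ≠ 0}) (fun t ht => hconst t ht) ?_
    have : ({t : ℂ | t ≠ 0} : Set ℂ) = ({0} : Set ℂ)ᶜ := by ext t; simp
    rw [this]
    exact Set.Finite.infinite_compl (Set.finite_singleton 0)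
  have h0 := congrArg (Polynomial.eval 0) heq
  rw [eval_line, eval_line, zero_smul, add_zero, add_zero, hval0] at h0
  have h1 := hval 1 0 (Or.inl one_ne_zero)
  rw [one_smul, zero_smul, add_zero] at h1
  exact h1 h0

end

end H938TB
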