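import Pool.Agent.H938R2.TB.T2
import Pool.Agent.H938R2.TB.T6a
import Pool.Agent.H938R2.TB.T7

set_option autoImplicit false

open MvPolynomial H960VB

namespace H938TB

namespace T6baux

theorem par_zero {x y z : ℤ × ℤ} (h1 : cr x y = 0) (h2 : cr x z = 0) (h3 : cr y z ≠ 0) :
    x = 0 := by
  obtain ⟨a, b⟩ := x
  obtain ⟨c, d⟩ := y
  obtain ⟨e, f⟩ := z
  simp only [cr] at h1 h2 h3
  have ha : a * (c * f - d * e) = 0 := by linear_combination c * h2 - e * h1
  have hb : b * (c * f - d * e) = 0 := by linear_combination d * h2 - f * h1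
  have ha' : a = 0 := by
    rcases mul_eq_zero.1 ha with h | h
    · exact h
    · exact absurd h h3
  have hb' : b = 0 := by
    rcases mul_eq_zero.1 hb with h | h
    · exact h
    · exact absurd h h3
  rw [ha', hb']
  rfl

theorem pr_neg (w : ℤ × ℤ) (τ τ' : M) : pr w (τ' - τ) = -pr w (τ - τ') := by
  obtain ⟨a, b, c⟩ := τ
  obtain ⟨a', b', c'⟩ := τ'
  obtain ⟨x, y⟩ := w
  simp only [pr, Prod.mk_sub_mk, Prod.smul_mk, smul_eq_mul,
    Prod.neg_mk, Prod.mk.injEq]
  constructor <;> ring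

theorem cr_neg (x y : ℤ × ℤ) : cr (-x) y = -cr x y := by
  simp only [cr, Prod.fst_neg, Prod.snd_neg]
  ring

theorem exists_pair {n : ℕ} {w : Fin (n + 1) → ℤ × ℤ}
    (hw : ∃ i j k, cr (w j - w i) (w k - w i) ≠ 0) (v : Fin (n + 1)) :
    ∃ a b, cr (w a - w v) (w b - w v) ≠ 0 := by
  obtain ⟨i, j, k, h⟩ := hw
  by_contra hne
  push Not at hne
  apply h
  have h1 := hne j k
  have h2 := hne j i
  have h3 := hne i k
  simp only [cr, Prod.fst_sub, Prod.snd_sub] at h1 h2 h3 ⊢
  linear_combination h1 - h2 - h3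

theorem sign_pair {l x y : ℤ × ℤ} {mx my : ℕ} (hmx : 1 ≤ mx) (hmy : 1 ≤ my)
    (hxy : cr x y ≠ 0)
    (h : l = (my : ℤ) • y - (mx : ℤ) • x ∨ l = (mx : ℤ) • x - (my : ℤ) • y) :
    0 < cr l x * cr l y := by
  have e : cr l x * cr l y = (mx : ℤ) * my * (cr x y) ^ 2 := by
    rcases h with h | h
    · rw [h]
      simp only [cr, Prod.fst_sub, Prod.snd_sub, Prod.smul_fst, Prod.smul_snd, smul_eq_mul]
      ring
    · rw [h]
      simp only [cr, Prod.fst_sub, Prod.snd_sub, Prod.smul_fst, Prod.smul_snd, smul_eq_mul]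
      ring
  rw [e]
  have h1 : (0 : ℤ) < mx := by exact_mod_cast hmx
  have h2 : (0 : ℤ) < my := by exact_mod_cast hmy
  have h3 : 0 < (cr x y) ^ 2 := by positivity
  positivity

end T6baux

section
variable {n : ℕ} {E : Bundle2 n} {w : Fin (n + 1) → ℤ × ℤ}

theorem extremal (hn : 2 ≤ n) (D : EqB E w) (hE : ¬ E.Splits)
    (hw : ∃ i j k, cr (w j - w i) (w k - w i) ≠ 0) (v : Fin (n + 1)) :
    ∃ (τ τ' : M) (G G' : Vec E.a n), HSec D τ G ∧ HSec D τ' G' ∧
      LinearIndependent ℂ ![evv G (Pi.single v 1), evv G' (Pi.single v 1)] ∧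
      ∀ j, j ≠ v → 0 < cr (pr (w v) (τ - τ')) (w j - w v) := by
  have hx : (Pi.single v 1 : Fin (n + 1) → ℂ) ≠ 0 := by
    intro h
    have := congrFun h v
    simp at this
  obtain ⟨τ, τ', G, G', hG, hG', hli⟩ := exists_sec D (Pi.single v 1) hx
  have hinj := distinct hn D hE hw
  obtain ⟨a, b, hab⟩ := T6baux.exists_pair hw v
  set l := pr (w v) (τ - τ') with hl
  have key : ∀ j k, cr (w j - w v) (w k - w v) ≠ 0 →
      0 < cr l (w j - w v) * cr l (w k - w v) := by
    intro j k hjk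
    obtain ⟨mj, mk, hmj, hmk, h⟩ := vertex hn D hE v j k hjk τ τ' G G' hG hG' hli
    exact T6baux.sign_pair hmj hmk hjk h
  have hpab := key a b hab
  have ha0 : cr l (w a - w v) ≠ 0 := by
    intro h
    rw [h, zero_mul] at hpab
    exact lt_irrefl _ hpab
  have hsame : ∀ j, j ≠ v → 0 < cr l (w a - w v) * cr l (w j - w v) := by
    intro j hj
    by_cases h1 : cr (w a - w v) (w j - w v) = 0
    · have h2 : cr (w j - w v) (w b - w v) ≠ 0 := by
        intro h2
        apply hj
        apply hinj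
        have h3 : cr (w j - w v) (w a - w v) = 0 := by
          simp only [cr] at h1 ⊢
          linear_combination -h1
        have h4 := T6baux.par_zero h3 h2 hab
        exact sub_eq_zero.1 h4
      have h5 := key j b h2
      by_contra h6
      have h7 : cr l (w a - w v) * cr l (w j - w v) ≤ 0 := not_lt.1 h6
      nlinarith [mul_pos hpab h5, sq_nonneg (cr l (w b - w v)),
        mul_nonneg (sub_nonneg.2 h7) (sq_nonneg (cr l (w b - w v)))]
    · exact key a j h1
  rcases lt_or_gt_of_ne ha0 with h | h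
  · refine ⟨τ', τ, G', G, hG', hG, LinearIndependent.pair_symm_iff.1 hli, fun j hj => ?_⟩
    rw [T6baux.pr_neg, T6baux.cr_neg]
    have h1 := hsame j hj
    have h2 : cr l (w j - w v) < 0 := by
      by_contra h3
      have h4 : 0 ≤ cr l (w j - w v) := not_lt.1 h3
      nlinarith [mul_nonneg (neg_nonneg.2 h.le) h4]
    linarith
  · refine ⟨τ, τ', G, G', hG, hG', hli, fun j hj => ?_⟩
    have h1 := hsame j hj
    by_contra h3
    have h4 : cr l (w j - w v) ≤ 0 := not_lt.1 h3
    nlinarith [mul_nonneg (le_of_lt h) (neg_nonneg.2 h4)]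

end

end H938TB
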