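import Pool.Agent.H938R2.TB.T4
import Pool.Agent.H938R2.TB.T6b

/-! Task T8: the cycle of five sections on `P^4`. -/

set_option autoImplicit false

open MvPolynomial H960VB

namespace H938TB


namespace T8aux

/-! ### the degree group -/

theorem cr_self (a : ℤ × ℤ) : cr a a = 0 := by unfold cr; ring

theorem cr_anti (a b : ℤ × ℤ) : cr a b = - cr b a := by unfold cr; ring

theorem cr_add_left (a b c : ℤ × ℤ) : cr (a + b) c = cr a c + cr b c := by
  unfold cr; simp only [Prod.fst_add, Prod.snd_add]; ring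

theorem cr_sub_left (a b c : ℤ × ℤ) : cr (a - b) c = cr a c - cr b c := by
  unfold cr; simp only [Prod.fst_sub, Prod.snd_sub]; ring

theorem cr_add_right (a b c : ℤ × ℤ) : cr a (b + c) = cr a b + cr a c := by
  unfold cr; simp only [Prod.fst_add, Prod.snd_add]; ring

theorem cr_smul_left (k : ℤ) (a b : ℤ × ℤ) : cr (k • a) b = k * cr a b := by
  unfold cr; simp only [Prod.smul_fst, Prod.smul_snd, smul_eq_mul]; ring

theorem cr_smul_right (k : ℤ) (a b : ℤ × ℤ) : cr a (k • b) = k * cr a b := by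
  unfold cr; simp only [Prod.smul_fst, Prod.smul_snd, smul_eq_mul]; ring

theorem pr_add (z : ℤ × ℤ) (a b : M) : pr z (a + b) = pr z a + pr z b := by
  unfold pr
  ext
  · simp only [Prod.fst_add, Prod.snd_add, Prod.fst_sub, Prod.smul_fst, smul_eq_mul]; ring
  · simp only [Prod.fst_add, Prod.snd_add, Prod.snd_sub, Prod.smul_snd, smul_eq_mul]; ring

theorem pr_sub (z : ℤ × ℤ) (a b : M) : pr z (a - b) = pr z a - pr z b := by
  unfold pr
  ext
  · simp only [Prod.fst_sub, Prod.snd_sub, Prod.smul_fst, smul_eq_mul]; ring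
  · simp only [Prod.fst_sub, Prod.snd_sub, Prod.smul_snd, smul_eq_mul]; ring

theorem pr_smul (z : ℤ × ℤ) (k : ℤ) (a : M) : pr z (k • a) = k • pr z a := by
  unfold pr
  ext
  · simp only [Prod.smul_fst, Prod.smul_snd, Prod.fst_sub, smul_eq_mul]; ring
  · simp only [Prod.smul_fst, Prod.smul_snd, Prod.snd_sub, smul_eq_mul]; ring

/-- `pr` as a homomorphism -/
def prH (z : ℤ × ℤ) : M →+ ℤ × ℤ := AddMonoidHom.mk' (pr z) (pr_add z)

/-- `cr` as a homomorphism -/
def crH (l : ℤ × ℤ) : ℤ × ℤ →+ ℤ := AddMonoidHom.mk' (cr l) (cr_add_right l)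

variable {n : ℕ} {w : Fin (n + 1) → ℤ × ℤ}

theorem pr_tw (z : ℤ × ℤ) (j : Fin (n + 1)) : pr z (tw w j) = w j - z := by
  unfold pr tw
  rw [one_smul]

theorem weight_eq (u : Fin (n + 1) →₀ ℕ) :
    Finsupp.weight (tw w) u = ∑ j, u j • tw w j := by
  rw [Finsupp.weight_apply, Finsupp.sum_fintype _ _ (by intro i; simp)]

theorem cr_pr_weight (l z : ℤ × ℤ) (u : Fin (n + 1) →₀ ℕ) :
    cr l (pr z (Finsupp.weight (tw w) u)) = ∑ j, (u j : ℤ) * cr l (w j - z) := by
  rw [weight_eq]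
  have h1 : cr l (pr z (∑ j, u j • tw w j)) = (crH l) ((prH z) (∑ j, u j • tw w j)) := rfl
  rw [h1, map_sum, map_sum]
  refine Finset.sum_congr rfl fun j _ => ?_
  rw [map_nsmul, map_nsmul]
  have h2 : (crH l) ((prH z) (tw w j)) = cr l (pr z (tw w j)) := rfl
  rw [h2, pr_tw, nsmul_eq_mul]

theorem weight_fst (u : Fin (n + 1) →₀ ℕ) :
    (Finsupp.weight (tw w) u).1 = ∑ j, (u j : ℤ) := by
  rw [weight_eq, Prod.fst_sum]
  refine Finset.sum_congr rfl fun j _ => ?_
  simp [tw]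

theorem weight_single (v : Fin (n + 1)) (k : ℕ) :
    Finsupp.weight (tw w) (Finsupp.single v k) = (k : ℤ) • tw w v := by
  rw [Finsupp.weight_apply, Finsupp.sum_single_index (by simp)]
  simp

/-! ### homogeneous polynomials -/

theorem homZ_of (p : MvPolynomial (Fin (n + 1)) ℂ) (τ : M)
    (hp : IsWeightedHomogeneous (tw w) p τ) : HomZ p τ.1 := by
  by_cases h0 : p = 0
  · exact Or.inl h0
  · right
    obtain ⟨u, hu⟩ := MvPolynomial.ne_zero_iff.1 h0
    have h1 : Finsupp.weight (tw w) u = τ := hp hu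
    refine ⟨∑ j, u j, ?_, ?_⟩
    · rw [← h1, weight_fst]
      push_cast
      rfl
    · intro u' hu'
      have h2 : Finsupp.weight (tw w) u' = τ := hp hu'
      have h3 : ∑ j, (u' j : ℤ) = ∑ j, (u j : ℤ) := by
        rw [← weight_fst (w := w), ← weight_fst (w := w), h1, h2]
      have h4 : Finsupp.weight (1 : Fin (n + 1) → ℕ) u' = ∑ j, u' j := by
        rw [Finsupp.weight_apply, Finsupp.sum_fintype _ _ (by intro i; simp)]
        simp
      rw [h4]
      exact_mod_cast h3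

theorem wh_of_X_mul (v : Fin (n + 1)) (g : MvPolynomial (Fin (n + 1)) ℂ) (δ : M)
    (h : IsWeightedHomogeneous (tw w) (X v * g) δ) :
    IsWeightedHomogeneous (tw w) g (δ - tw w v) := by
  intro u hu
  have h1 : coeff (Finsupp.single v 1 + u) (X v * g) ≠ 0 := by
    rw [coeff_X_mul]; exact hu
  have h2 := h h1
  rw [map_add, weight_single, Nat.cast_one, one_smul] at h2
  rw [← h2]
  abel

theorem deg_of_mono (v : Fin (n + 1)) (m : ℕ) (c : ℂ) (hc : c ≠ 0) (δ : M)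
    (h : IsWeightedHomogeneous (tw w) (C c * X v ^ m : MvPolynomial (Fin (n + 1)) ℂ) δ) :
    δ = (m : ℤ) • tw w v := by
  have h1 : coeff (Finsupp.single v m) (C c * X v ^ m : MvPolynomial (Fin (n + 1)) ℂ) ≠ 0 := by
    rw [C_mul_X_pow_eq_monomial, coeff_monomial, if_pos rfl]
    exact hc
  rw [← h h1, weight_single]

theorem mono_of (v : Fin (n + 1)) (p : MvPolynomial (Fin (n + 1)) ℂ) (δ : M) (l : ℤ × ℤ)
    (hl : ∀ j, j ≠ v → 0 < cr l (w j - w v))
    (hp : IsWeightedHomogeneous (tw w) p δ) (he : eval (Pi.single v 1) p ≠ 0) :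
    ∃ (m : ℕ) (c : ℂ), c ≠ 0 ∧ p = C c * X v ^ m := by
  classical
  rw [eval_eq'] at he
  obtain ⟨u, hu, hne⟩ := Finset.exists_ne_zero_of_sum_ne_zero he
  have hu0 : ∀ j, j ≠ v → u j = 0 := by
    intro j hj
    by_contra h
    apply hne
    rw [Finset.prod_eq_zero (Finset.mem_univ j), mul_zero]
    rw [Pi.single_eq_of_ne hj, zero_pow h]
  have hus : u = Finsupp.single v (u v) := by
    ext j
    by_cases hj : j = v
    · rw [hj, Finsupp.single_eq_same]
    · rw [hu0 j hj, Finsupp.single_eq_of_ne hj]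
  have hδ : Finsupp.weight (tw w) u = δ := hp (mem_support_iff.1 hu)
  have hδ1 : cr l (pr (w v) δ) = 0 := by
    rw [← hδ, cr_pr_weight]
    refine Finset.sum_eq_zero fun j _ => ?_
    by_cases hj : j = v
    · rw [hj, sub_self]
      unfold cr
      simp
    · rw [hu0 j hj]; simp
  have hsupp : ∀ u' ∈ p.support, u' = u := by
    intro u' hu'
    have h1 : Finsupp.weight (tw w) u' = δ := hp (mem_support_iff.1 hu')
    have h2 : ∑ j, (u' j : ℤ) * cr l (w j - w v) = 0 := by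
      rw [← cr_pr_weight, h1, hδ1]
    have hnn : ∀ j ∈ Finset.univ, 0 ≤ (u' j : ℤ) * cr l (w j - w v) := by
      intro j _
      by_cases hj : j = v
      · rw [hj, sub_self]
        unfold cr
        simp
      · exact mul_nonneg (Int.natCast_nonneg _) (hl j hj).le
    have h3 := (Finset.sum_eq_zero_iff_of_nonneg hnn).1 h2
    have h4 : ∀ j, j ≠ v → u' j = 0 := by
      intro j hj
      have h5 := h3 j (Finset.mem_univ j)
      rcases mul_eq_zero.1 h5 with h | h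
      · exact_mod_cast h
      · exact absurd h (hl j hj).ne'
    have h6 : ∑ j, (u' j : ℤ) = ∑ j, (u j : ℤ) := by
      rw [← weight_fst (w := w), ← weight_fst (w := w), h1, hδ]
    rw [Finset.sum_eq_single v (fun j _ hj => by rw [h4 j hj]; rfl)
      (fun h => absurd (Finset.mem_univ _) h),
      Finset.sum_eq_single v (fun j _ hj => by rw [hu0 j hj]; rfl)
      (fun h => absurd (Finset.mem_univ _) h)] at h6
    ext j
    by_cases hj : j = v
    · rw [hj]; exact_mod_cast h6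
    · rw [h4 j hj, hu0 j hj]
  have hs : p.support = {u} := by
    ext u'
    rw [Finset.mem_singleton]
    exact ⟨hsupp u', fun h => h ▸ hu⟩
  refine ⟨u v, coeff u p, mem_support_iff.1 hu, ?_⟩
  rw [C_mul_X_pow_eq_monomial, ← hus]
  conv_lhs => rw [p.as_sum, hs, Finset.sum_singleton]

/-! ### sections -/

variable {E : Bundle2 n}

theorem ker_of_X_mul (v : Fin (n + 1)) {G G₁ : Vec E.a n} (hG : Ker E G)
    (h : ∀ i, G i = X v * G₁ i) : Ker E G₁ := by
  intro k
  have h1 := hG k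
  have h2 : (X v : MvPolynomial (Fin (n + 1)) ℂ) * ∑ i, E.B k i * G₁ i = 0 := by
    rw [← h1, Finset.mul_sum]
    refine Finset.sum_congr rfl fun i _ => ?_
    rw [h i]; ring
  rcases mul_eq_zero.1 h2 with h3 | h3
  · exact absurd h3 (X_ne_zero v)
  · exact h3

theorem hsec_of_X_mul {D : EqB E w} (v : Fin (n + 1)) {τ : M} {G G₁ : Vec E.a n}
    (hG : HSec D τ G) (h : ∀ i, G i = X v * G₁ i) : HSec D (τ - tw w v) G₁ where
  hom := by
    intro i
    have h1 := hG.hom i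
    rw [h i] at h1
    have h2 := wh_of_X_mul v _ _ h1
    rwa [add_sub_assoc] at h2
  ker := ker_of_X_mul v hG.ker h

theorem isSection_of {D : EqB E w} {τ : M} {G : Vec E.a n} (hG : HSec D τ G) :
    E.IsSection (-(-τ.1)) G := by
  rw [neg_neg]
  refine ⟨fun i => ?_, fun x _ => ?_⟩
  · have h1 := homZ_of _ _ (hG.hom i)
    exact h1
  · unfold Bundle2.fib
    rw [LinearMap.mem_ker, Matrix.mulVecLin_apply]
    ext k
    have h1 := congrArg (eval x) (hG.ker k)
    rw [map_sum, map_zero] at h1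
    rw [Pi.zero_apply]
    refine Eq.trans ?_ h1
    unfold Matrix.mulVec dotProduct
    refine Finset.sum_congr rfl fun i _ => ?_
    rw [map_mul]
    rfl

theorem splits_of_const {D : EqB E w} (W : Wedge D) {τ τ' : M} {G G' : Vec E.a n}
    (hG : HSec D τ G) (hG' : HSec D τ' G') (c : ℂ) (hc : c ≠ 0) (h : W.wd G G' = C c) :
    E.Splits := by
  refine ⟨-τ.1, -τ'.1, G, G', isSection_of hG, isSection_of hG', fun x hx => ?_⟩
  rw [← W.ind x hx G G' hG.ker hG'.ker, h, eval_C]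
  exact hc

/-- the data at a vertex -/
structure VD {E : Bundle2 n} {w : Fin (n + 1) → ℤ × ℤ} (D : EqB E w) (W : Wedge D)
    (v : Fin (n + 1)) where
  m : ℕ
  c : ℂ
  tp : M
  tm : M
  sp : Vec E.a n
  sm : Vec E.a n
  hp : HSec D tp sp
  hm : HSec D tm sm
  hc : c ≠ 0
  hwd : W.wd sp sm = C c * X v ^ m
  hcr : ∀ j, j ≠ v → 0 < cr (pr (w v) (tp - tm)) (w j - w v)
  np : ¬ ∀ i, X v ∣ sp i
  nm : ¬ ∀ i, X v ∣ sm i
  m1 : 1 ≤ m

/-- the preliminary data at a vertex -/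
def Pre {E : Bundle2 n} {w : Fin (n + 1) → ℤ × ℤ} (D : EqB E w) (W : Wedge D)
    (v : Fin (n + 1)) (m : ℕ) : Prop :=
  ∃ (τ τ' : M) (G G' : Vec E.a n) (c : ℂ), HSec D τ G ∧ HSec D τ' G' ∧ c ≠ 0 ∧
    W.wd G G' = C c * X v ^ m ∧ ∀ j, j ≠ v → 0 < cr (pr (w v) (τ - τ')) (w j - w v)

/-- division of the first section -/
theorem div_left {D : EqB E w} (W : Wedge D) (v : Fin (n + 1)) {τ : M} {G G' G₁ : Vec E.a n}
    (hG : HSec D τ G) (hG' : Ker E G') (h : ∀ i, G i = X v * G₁ i) (c : ℂ) (hc : c ≠ 0) (m : ℕ)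
    (hwd : W.wd G G' = C c * X v ^ m) : ∃ m', m' < m ∧ W.wd G₁ G' = C c * X v ^ m' := by
  have h1 := (hsec_of_X_mul v hG h).ker
  have h2 : G = fun i => X v * G₁ i := funext h
  rw [h2, W.smul _ _ _ h1 hG'] at hwd
  rcases m with _ | m
  · exfalso
    have h3 : (X v : MvPolynomial (Fin (n + 1)) ℂ) ∣ C c := by
      rw [pow_zero, mul_one] at hwd
      exact ⟨_, hwd.symm⟩
    have h4 : IsUnit (C c : MvPolynomial (Fin (n + 1)) ℂ) := (isUnit_iff_ne_zero.2 hc).map C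
    exact (X_prime (i := v)).not_isUnit (isUnit_of_dvd_unit h3 h4)
  · refine ⟨m, Nat.lt_succ_self m, ?_⟩
    have h3 : (X v : MvPolynomial (Fin (n + 1)) ℂ) * W.wd G₁ G' = X v * (C c * X v ^ m) := by
      rw [hwd, pow_succ]; ring
    exact mul_left_cancel₀ (X_ne_zero v) h3

theorem exists_VD (D : EqB E w) (W : Wedge D) (hn : 2 ≤ n) (hE : ¬ E.Splits)
    (hw : ∃ i j k, cr (w j - w i) (w k - w i) ≠ 0) (v : Fin (n + 1)) : Nonempty (VD D W v) := by
  classical
  have hex : ∃ m, Pre D W v m := by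
    obtain ⟨τ, τ', G, G', hG, hG', hli, hcr⟩ := extremal hn D hE hw v
    have hne : (Pi.single v 1 : Fin (n + 1) → ℂ) ≠ 0 := by
      intro h
      have := congrFun h v
      simp at this
    have h1 := (W.ind _ hne G G' hG.ker hG'.ker).2 hli
    obtain ⟨m, c, hc, hm⟩ := mono_of v _ _ _ hcr (W.hom _ _ _ _ hG hG') h1
    exact ⟨m, τ, τ', G, G', c, hG, hG', hc, hm, hcr⟩
  obtain ⟨τ, τ', G, G', c, hG, hG', hc, hwd, hcr⟩ := Nat.find_spec hex
  have hmin : ∀ m' < Nat.find hex, ¬ Pre D W v m' := fun m' h => Nat.find_min hex h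
  refine ⟨⟨Nat.find hex, c, τ, τ', G, G', hG, hG', hc, hwd, hcr, ?_, ?_, ?_⟩⟩
  · intro h
    choose G₁ hG₁ using h
    obtain ⟨m', hm', h1⟩ := div_left W v hG hG'.ker hG₁ c hc _ hwd
    refine hmin m' hm' ⟨τ - tw w v, τ', G₁, G', c, hsec_of_X_mul v hG hG₁, hG', hc, h1, ?_⟩
    have h2 : pr (w v) (τ - tw w v - τ') = pr (w v) (τ - τ') := by
      rw [pr_sub, pr_sub, pr_sub, pr_tw, sub_self, sub_zero]
    rw [h2]; exact hcr
  · intro h
    choose G₁ hG₁ using h
    have hk1 := (hsec_of_X_mul v hG' hG₁).ker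
    have hwd' : W.wd G' G = C (-c) * X v ^ Nat.find hex := by
      rw [W.anti _ _ hG'.ker hG.ker, hwd, C_neg]; ring
    obtain ⟨m', hm', h1⟩ := div_left W v hG' hG.ker hG₁ (-c) (neg_ne_zero.2 hc) _ hwd'
    have h3 : W.wd G G₁ = C c * X v ^ m' := by
      rw [W.anti _ _ hG.ker hk1, h1, C_neg]; ring
    refine hmin m' hm' ⟨τ, τ' - tw w v, G, G₁, c, hG, hsec_of_X_mul v hG' hG₁, hc, h3, ?_⟩
    have h2 : pr (w v) (τ - (τ' - tw w v)) = pr (w v) (τ - τ') := by
      rw [pr_sub, pr_sub, pr_sub, pr_tw, sub_self, sub_zero]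
    rw [h2]; exact hcr
  · by_contra h
    have h0 : Nat.find hex = 0 := by omega
    rw [h0, pow_zero, mul_one] at hwd
    exact hE (splits_of_const W hG hG' c hc hwd)

/-- proportionality -/
theorem VD.prop {D : EqB E w} {W : Wedge D} {u v : Fin (n + 1)} (A : VD D W v) (B : VD D W u)
    (h0 : W.wd B.sm A.sp = 0) : ∃ c : ℂ, c ≠ 0 ∧ B.sm = fun i => C c * A.sp i := by
  have h1 : ∀ i, C A.c * X v ^ A.m * B.sm i = W.wd B.sm A.sm * A.sp i := by
    intro i
    have := W.three B.sm A.sp A.sm B.hm.ker A.hp.ker A.hm.ker i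
    rw [h0, A.hwd] at this
    linear_combination this
  have h2 : ∀ i, C B.c * X u ^ B.m * A.sp i = (- W.wd A.sp B.sp) * B.sm i := by
    intro i
    have := W.three A.sp B.sp B.sm A.hp.ker B.hp.ker B.hm.ker i
    rw [W.anti A.sp B.sm A.hp.ker B.hm.ker, h0, B.hwd] at this
    linear_combination this
  obtain ⟨i0, hi0⟩ : ∃ i, ¬ X v ∣ A.sp i := by
    by_contra h
    push Not at h
    exact A.np h
  obtain ⟨i1, hi1⟩ : ∃ i, ¬ X u ∣ B.sm i := by
    by_contra h
    push Not at h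
    exact B.nm h
  obtain ⟨p', hp'⟩ : X v ^ A.m ∣ W.wd B.sm A.sm := by
    refine (X_prime (i := v)).pow_dvd_of_dvd_mul_right _ hi0 ?_
    rw [← h1 i0]
    exact ⟨C A.c * B.sm i0, by ring⟩
  obtain ⟨q', hq'⟩ : X u ^ B.m ∣ - W.wd A.sp B.sp := by
    refine (X_prime (i := u)).pow_dvd_of_dvd_mul_right _ hi1 ?_
    rw [← h2 i1]
    exact ⟨C B.c * A.sp i1, by ring⟩
  have h3 : ∀ i, C A.c * B.sm i = p' * A.sp i := by
    intro i
    have hX : (X v : MvPolynomial (Fin (n + 1)) ℂ) ^ A.m ≠ 0 := pow_ne_zero _ (X_ne_zero v)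
    apply mul_left_cancel₀ hX
    have := h1 i
    rw [hp'] at this
    linear_combination this
  have h4 : ∀ i, C B.c * A.sp i = q' * B.sm i := by
    intro i
    have hX : (X u : MvPolynomial (Fin (n + 1)) ℂ) ^ B.m ≠ 0 := pow_ne_zero _ (X_ne_zero u)
    apply mul_left_cancel₀ hX
    have := h2 i
    rw [hq'] at this
    linear_combination this
  have hne : A.sp i0 ≠ 0 := by
    intro h
    apply hi0
    rw [h]
    exact dvd_zero _
  have h5 : p' * q' = C (A.c * B.c) := by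
    apply mul_right_cancel₀ hne
    have e1 := h3 i0
    have e2 := h4 i0
    rw [C_mul]
    linear_combination (-q') * e1 - C A.c * e2
  have h6 : IsUnit (C (A.c * B.c) : MvPolynomial (Fin (n + 1)) ℂ) :=
    (isUnit_iff_ne_zero.2 (mul_ne_zero A.hc B.hc)).map C
  have h7 : IsUnit p' := isUnit_of_dvd_unit ⟨q', h5.symm⟩ h6
  obtain ⟨e, he, hpe⟩ := isUnit_iff_eq_C_of_isReduced.1 h7
  refine ⟨A.c⁻¹ * e, mul_ne_zero (inv_ne_zero A.hc) he.ne_zero, ?_⟩
  funext i
  have h8 := h3 i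
  rw [hpe] at h8
  have h9 : (C A.c⁻¹ * C A.c : MvPolynomial (Fin (n + 1)) ℂ) = 1 := by
    rw [← C_mul, inv_mul_cancel₀ A.hc, C_1]
  calc B.sm i = (C A.c⁻¹ * C A.c) * B.sm i := by rw [h9, one_mul]
    _ = C A.c⁻¹ * (C A.c * B.sm i) := by ring
    _ = C (A.c⁻¹ * e) * A.sp i := by rw [h8, C_mul]; ring

/-! ### the cyclic order -/

section five

variable {w : Fin 5 → ℤ × ℤ}

theorem cyc3 (hcc : ∀ i j k : Fin 5, i < j → j < k → 0 < cr (w j - w i) (w k - w i))
    (i j k : Fin 5) (h : (i < j ∧ j < k) ∨ (j < k ∧ k < i) ∨ (k < i ∧ i < j)) :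
    0 < cr (w j - w i) (w k - w i) := by
  rcases h with ⟨h1, h2⟩ | ⟨h1, h2⟩ | ⟨h1, h2⟩
  · exact hcc i j k h1 h2
  · have h3 := hcc j k i h1 h2
    have h4 : cr (w j - w i) (w k - w i) = cr (w k - w j) (w i - w j) := by
      unfold cr; simp only [Prod.fst_sub, Prod.snd_sub]; ring
    rw [h4]; exact h3
  · have h3 := hcc k i j h1 h2
    have h4 : cr (w j - w i) (w k - w i) = cr (w i - w k) (w j - w k) := by
      unfold cr; simp only [Prod.fst_sub, Prod.snd_sub]; ring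
    rw [h4]; exact h3

theorem ord1 : ∀ v j : Fin 5, j ≠ v → j ≠ v + 1 →
    (v < v + 1 ∧ v + 1 < j) ∨ (v + 1 < j ∧ j < v) ∨ (j < v ∧ v < v + 1) := by decide

theorem ord2 : ∀ v : Fin 5,
    (v + 1 < v + 2 ∧ v + 2 < v) ∨ (v + 2 < v ∧ v < v + 1) ∨ (v < v + 1 ∧ v + 1 < v + 2) := by
  decide

theorem ne01 : ∀ v : Fin 5, v ≠ v + 1 := by decide
theorem ne02 : ∀ v : Fin 5, v ≠ v + 2 := by decide
theorem ne12 : ∀ v : Fin 5, v + 1 ≠ v + 2 := by decide

theorem inj3 (v : Fin 5) : Function.Injective (![v, v + 1, v + 2] : Fin 3 → Fin 5) := by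
  revert v
  decide

theorem single_ne (v : Fin (n + 1)) : (Pi.single v 1 : Fin (n + 1) → ℂ) ≠ 0 := by
  intro h
  have := congrFun h v
  simp at this

theorem VD.li {E : Bundle2 n} {w : Fin (n + 1) → ℤ × ℤ} {D : EqB E w} {W : Wedge D}
    {v : Fin (n + 1)} (A : VD D W v) :
    LinearIndependent ℂ ![evv A.sp (Pi.single v 1), evv A.sm (Pi.single v 1)] := by
  rw [← W.ind _ (single_ne v) _ _ A.hp.ker A.hm.ker, A.hwd]
  simp [A.hc]

/-- the comparison of consecutive vertices -/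
theorem compare {E : Bundle2 4} {D : EqB E w} {W : Wedge D} (hE : ¬ E.Splits)
    (hcc : ∀ i j k, i < j → j < k → 0 < cr (w j - w i) (w k - w i)) (v : Fin 5)
    (A : VD D W v) (B : VD D W (v + 1)) :
    ∃ r r' : ℕ, B.tm - (r' : ℤ) • tw w (v + 1) = A.tp - (r : ℤ) • tw w v := by
  set f : Fin 3 → Fin 5 := ![v, v + 1, v + 2] with hf
  have hfi : Function.Injective f := inj3 v
  have f0 : f 0 = v := rfl
  have f1 : f 1 = v + 1 := rfl
  have f2 : f 2 = v + 2 := rfl
  set D' := D.pull (cInc f) (cInc_injective f hfi) (w ∘ f) (cInc_weight f w) with hD'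
  have hE' : ¬ (E.pull (cInc f) (cInc_injective f hfi)).Splits := fun h =>
    hE (Bundle2.splits_of_pull 2 2 4 le_rfl rfl E _ _ h)
  have c1 : 0 < cr (w (v + 1) - w v) (w (v + 2) - w v) :=
    cyc3 hcc v (v + 1) (v + 2) (ord1 v (v + 2) (ne02 v).symm (ne12 v).symm)
  have c2 : 0 < cr (w (v + 2) - w (v + 1)) (w v - w (v + 1)) :=
    cyc3 hcc (v + 1) (v + 2) v (ord2 v)
  have hw' : cr ((w ∘ f) 1 - (w ∘ f) 0) ((w ∘ f) 2 - (w ∘ f) 0) ≠ 0 := c1.ne'
  obtain ⟨L, t, m, hm1, hL, ht, -, hpl⟩ := plane D' hw' hE'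
  have hA := A.hp.pull (cInc f) (cInc_injective f hfi) (w ∘ f) (cInc_weight f w)
  have hA' := A.hm.pull (cInc f) (cInc_injective f hfi) (w ∘ f) (cInc_weight f w)
  have hB := B.hp.pull (cInc f) (cInc_injective f hfi) (w ∘ f) (cInc_weight f w)
  have hB' := B.hm.pull (cInc f) (cInc_injective f hfi) (w ∘ f) (cInc_weight f w)
  have liA : LinearIndependent ℂ ![evv (fun i => lsub (cInc f) (A.sp i)) (Pi.single 0 1),
      evv (fun i => lsub (cInc f) (A.sm i)) (Pi.single 0 1)] := by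
    rw [evv_lsub, evv_lsub, cInc_single, f0]
    exact A.li
  have liB : LinearIndependent ℂ ![evv (fun i => lsub (cInc f) (B.sp i)) (Pi.single 1 1),
      evv (fun i => lsub (cInc f) (B.sm i)) (Pi.single 1 1)] := by
    rw [evv_lsub, evv_lsub, cInc_single, f1]
    exact B.li
  have tw0 : tw (w ∘ f) 0 = tw w v := rfl
  have tw1 : tw (w ∘ f) 1 = tw w (v + 1) := rfl
  have tw2 : tw (w ∘ f) 2 = tw w (v + 2) := rfl
  have hm2 : (0 : ℤ) < m 2 := by exact_mod_cast hm1 2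
  -- the vertex `v`
  have key1 : ∃ r : ℕ, A.tp = t 2 + (r : ℤ) • tw w v := by
    obtain ⟨r, r', c, c', -, -, h⟩ := hpl 0 1 2 (by decide) (by decide) (by decide) _ _ _ _ hA hA' liA
    rcases h with ⟨e1, e2, -, -⟩ | ⟨e1, -, -, -⟩
    · exfalso
      rw [tw0] at e1 e2
      have h1 := ht 1 2
      rw [tw1, tw2] at h1
      have h2 := A.hcr (v + 1) (ne01 v).symm
      have h3 : A.tp - A.tm = ((m 2 : ℤ) • tw w (v + 2) - (m 1 : ℤ) • tw w (v + 1)) +
          ((r : ℤ) • tw w v - (r' : ℤ) • tw w v) := by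
        rw [e1, e2]
        have h4 : t 1 = t 2 + (m 2 : ℤ) • tw w (v + 2) - (m 1 : ℤ) • tw w (v + 1) :=
          eq_sub_of_add_eq h1
        rw [h4]
        abel
      rw [h3, pr_add, pr_sub, pr_sub, pr_smul, pr_smul, pr_smul, pr_smul, pr_tw, pr_tw, pr_tw,
        sub_self, smul_zero, smul_zero, sub_zero, add_zero, cr_sub_left, cr_smul_left, cr_smul_left,
        cr_self, mul_zero, sub_zero, cr_anti (w (v + 2) - w v)] at h2
      nlinarith
    · rw [tw0] at e1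
      exact ⟨r, e1⟩
  -- the vertex `v + 1`
  have key2 : ∃ r : ℕ, B.tm = t 2 + (r : ℤ) • tw w (v + 1) := by
    obtain ⟨r, r', c, c', -, -, h⟩ := hpl 1 0 2 (by decide) (by decide) (by decide) _ _ _ _ hB hB' liB
    rcases h with ⟨-, e2, -, -⟩ | ⟨e1, e2, -, -⟩
    · rw [tw1] at e2
      exact ⟨r', e2⟩
    · exfalso
      rw [tw1] at e1 e2
      have h1 := ht 2 0
      rw [tw0, tw2] at h1
      have h2 := B.hcr v (ne01 v)
      have h3 : B.tp - B.tm = ((m 0 : ℤ) • tw w v - (m 2 : ℤ) • tw w (v + 2)) +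
          ((r : ℤ) • tw w (v + 1) - (r' : ℤ) • tw w (v + 1)) := by
        rw [e1, e2]
        have h4 : t 2 = t 0 + (m 0 : ℤ) • tw w v - (m 2 : ℤ) • tw w (v + 2) :=
          eq_sub_of_add_eq h1
        rw [h4]
        abel
      rw [h3, pr_add, pr_sub, pr_sub, pr_smul, pr_smul, pr_smul, pr_smul, pr_tw, pr_tw, pr_tw,
        sub_self, smul_zero, smul_zero, sub_zero, add_zero, cr_sub_left, cr_smul_left, cr_smul_left,
        cr_self, mul_zero, zero_sub] at h2
      nlinarith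
  obtain ⟨r, hr⟩ := key1
  obtain ⟨r', hr'⟩ := key2
  refine ⟨r, r', ?_⟩
  rw [hr, hr']
  abel

theorem wd_zero {E : Bundle2 4} {D : EqB E w} {W : Wedge D} (hE : ¬ E.Splits)
    (hcc : ∀ i j k, i < j → j < k → 0 < cr (w j - w i) (w k - w i)) (v : Fin 5)
    (A : VD D W v) (B : VD D W (v + 1)) : W.wd B.sm A.sp = 0 := by
  obtain ⟨r, r', hrr⟩ := compare hE hcc v A B
  by_contra hne
  obtain ⟨u, hu⟩ := MvPolynomial.ne_zero_iff.1 hne
  have h1 := W.hom _ _ _ _ B.hm A.hp hu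
  have h2 : A.tp + A.tm + W.κ = (A.m : ℤ) • tw w v := by
    have h3 := W.hom _ _ _ _ A.hp A.hm
    rw [A.hwd] at h3
    exact deg_of_mono v _ _ A.hc _ h3
  have h3 : Finsupp.weight (tw w) u = (A.tp - A.tm) + (r' : ℤ) • tw w (v + 1) +
      ((A.m : ℤ) • tw w v - (r : ℤ) • tw w v) := by
    rw [h1, ← h2]
    have h4 : B.tm = A.tp - (r : ℤ) • tw w v + (r' : ℤ) • tw w (v + 1) := by
      rw [← hrr]; abel
    rw [h4]
    abel
  have h5 := cr_pr_weight (w := w) (w (v + 1) - w v) (w v) u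
  rw [h3, pr_add, pr_add, pr_sub (w v) ((A.m : ℤ) • tw w v), pr_smul, pr_smul, pr_smul, pr_tw,
    pr_tw, sub_self, smul_zero, smul_zero, sub_zero, add_zero, cr_add_right, cr_smul_right,
    cr_self, mul_zero, add_zero, cr_anti] at h5
  have h6 := A.hcr (v + 1) (ne01 v).symm
  have h7 : 0 ≤ ∑ j, (u j : ℤ) * cr (w (v + 1) - w v) (w j - w v) := by
    refine Finset.sum_nonneg fun j _ => ?_
    by_cases hj : j = v
    · rw [hj, sub_self]
      unfold cr
      simp
    · by_cases hj1 : j = v + 1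
      · rw [hj1, cr_self, mul_zero]
      · exact mul_nonneg (Int.natCast_nonneg _) (cyc3 hcc v (v + 1) j (ord1 v j hj hj1)).le
  linarith

end five

end T8aux

open T8aux in
/-- the cycle of five sections. -/
theorem cycle {E : Bundle2 4} {w : Fin 5 → ℤ × ℤ} (D : EqB E w) (W : Wedge D)
    (hE : ¬ E.Splits)
    (hcc : ∀ i j k, i < j → j < k → 0 < cr (w j - w i) (w k - w i)) :
    ∃ (s : Fin 5 → Vec E.a 4) (τ : Fin 5 → M) (α : Fin 5 → ℕ) (c : Fin 5 → ℂ),
      (∀ i, HSec D (τ i) (s i)) ∧ (∀ i, 1 ≤ α i) ∧ (∀ i, c i ≠ 0) ∧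
      ∀ i, W.wd (s (i - 1)) (s i) = C (c i) * X i ^ α i := by
  have hw : ∃ i j k, cr (w j - w i) (w k - w i) ≠ 0 :=
    ⟨0, 1, 2, (hcc 0 1 2 (by decide) (by decide)).ne'⟩
  have V : ∀ v, VD D W v := fun v => Classical.choice (exists_VD D W (by norm_num) hE hw v)
  have hstep : ∀ v, ∃ c : ℂ, c ≠ 0 ∧ (V (v + 1)).sm = fun i => C c * (V v).sp i := fun v =>
    VD.prop (V v) (V (v + 1)) (wd_zero hE hcc v (V v) (V (v + 1)))
  have hstep' : ∀ v, ∃ c : ℂ, c ≠ 0 ∧ (V v).sm = fun i => C c * (V (v - 1)).sp i := by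
    intro v
    have h := hstep (v - 1)
    rwa [sub_add_cancel] at h
  choose e he hes using hstep'
  refine ⟨fun v => (V v).sp, fun v => (V v).tp, fun v => (V v).m,
    fun v => -((e v)⁻¹ * (V v).c), fun v => (V v).hp, fun v => (V v).m1,
    fun v => neg_ne_zero.2 (mul_ne_zero (inv_ne_zero (he v)) (V v).hc), fun v => ?_⟩
  have h1 : (V (v - 1)).sp = fun i => C (e v)⁻¹ * (V v).sm i := by
    funext i
    rw [hes v]
    have h9 : (C (e v)⁻¹ * C (e v) : MvPolynomial (Fin 5) ℂ) = 1 := by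
      rw [← C_mul, inv_mul_cancel₀ (he v), C_1]
    calc (V (v - 1)).sp i = (C (e v)⁻¹ * C (e v)) * (V (v - 1)).sp i := by rw [h9, one_mul]
      _ = _ := by ring
  simp only
  rw [h1, W.smul _ _ _ (V v).hm.ker (V v).hp.ker, W.anti _ _ (V v).hm.ker (V v).hp.ker, (V v).hwd,
    C_neg, C_mul]
  ring

end H938TB
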