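import Pool.Agent.H938R2.TB.Defs

set_option autoImplicit false

open MvPolynomial H960VB

namespace H938TB

namespace T9aux

/-- no three of the points are collinear. -/
theorem ncol {ι : Type*} (w l : ι → ℤ × ℤ) (h : ∀ v j, j ≠ v → 0 < cr (l v) (w j - w v))
    {i j k : ι} (hij : i ≠ j) (hik : i ≠ k) (hjk : j ≠ k) :
    cr (w j - w i) (w k - w i) ≠ 0 := by
  intro h0
  have h1 := h i j hij.symm
  have h2 := h i k hik.symm
  have h3 := h j i hij
  have h4 := h j k hjk.symm
  have h5 := h k i hik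
  have h6 := h k j hjk
  have key : ∀ l' : ℤ × ℤ, cr (l i) (w k - w i) * cr l' (w j - w i) =
      cr (l i) (w j - w i) * cr l' (w k - w i) := by
    intro l'
    simp only [cr, Prod.fst_sub, Prod.snd_sub] at h0 ⊢
    linear_combination (-((l i).1 * l'.2 - (l i).2 * l'.1)) * h0
  have e1 : cr (l j) (w i - w j) = - cr (l j) (w j - w i) := by
    simp only [cr, Prod.fst_sub, Prod.snd_sub]; ring
  have e2 : cr (l j) (w k - w j) = cr (l j) (w k - w i) - cr (l j) (w j - w i) := by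
    simp only [cr, Prod.fst_sub, Prod.snd_sub]; ring
  have e3 : cr (l k) (w i - w k) = - cr (l k) (w k - w i) := by
    simp only [cr, Prod.fst_sub, Prod.snd_sub]; ring
  have e4 : cr (l k) (w j - w k) = cr (l k) (w j - w i) - cr (l k) (w k - w i) := by
    simp only [cr, Prod.fst_sub, Prod.snd_sub]; ring
  have k1 := key (l j)
  have k2 := key (l k)
  rw [e1] at h3
  rw [e2] at h4
  rw [e3] at h5
  rw [e4] at h6
  set α := cr (l i) (w k - w i)
  set β := cr (l i) (w j - w i)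
  set A := cr (l j) (w j - w i)
  set B := cr (l j) (w k - w i)
  set A' := cr (l k) (w j - w i)
  set B' := cr (l k) (w k - w i)
  -- k1 : α * A = β * B, A < 0, B > A;  k2 : α * A' = β * B', B' < 0, A' > B'
  have l1 : α < β := by
    by_contra hc
    push Not at hc
    have : β * B ≤ β * A := by nlinarith
    nlinarith
  have l2 : β < α := by
    by_contra hc
    push Not at hc
    have : α * B' ≥ β * B' := by nlinarith
    nlinarith
  exact absurd l1 (not_lt.2 l2.le)

/-- the sorting around the first point. -/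
theorem sort0 (w l : Fin 5 → ℤ × ℤ) (h : ∀ v j, j ≠ v → 0 < cr (l v) (w j - w v)) :
    ∃ σ : Equiv.Perm (Fin 5), σ 0 = 0 ∧ ∀ i j : Fin 4, i < j →
      0 < cr (w (σ i.succ) - w 0) (w (σ j.succ) - w 0) := by
  have hd : ∀ v : ℤ × ℤ, 0 < cr (l 0) v → (0:ℚ) < ((cr (l 0) v : ℤ) : ℚ) := fun v hv => by
    exact_mod_cast hv
  set dt : ℤ × ℤ → ℤ := fun v => (l 0).1 * v.1 + (l 0).2 * v.2 with hdt
  set f : Fin 4 → ℚ := fun j => - (dt (w j.succ - w 0) : ℚ) / (cr (l 0) (w j.succ - w 0) : ℚ)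
    with hf
  set τ := Tuple.sort f with hτ
  have hmon : Monotone (f ∘ τ) := Tuple.monotone_sort f
  refine ⟨Equiv.Perm.decomposeFin.symm (0, τ), by simp, ?_⟩
  intro i j hij
  have e : ∀ i : Fin 4, Equiv.Perm.decomposeFin.symm (0, τ) i.succ = (τ i).succ := by
    intro i
    simp
  rw [e, e]
  have hm := hmon hij.le
  have hne : τ i ≠ τ j := fun h' => hij.ne (τ.injective h')
  have hi := h 0 (τ i).succ (Fin.succ_ne_zero _)
  have hj := h 0 (τ j).succ (Fin.succ_ne_zero _)
  have hnc := ncol w l h (i := 0) (j := (τ i).succ) (k := (τ j).succ)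
    (Fin.succ_ne_zero _).symm (Fin.succ_ne_zero _).symm (fun h' => hne (Fin.succ_injective _ h'))
  simp only [Function.comp, hf] at hm
  set a := w (τ i).succ - w 0
  set b := w (τ j).succ - w 0
  rw [div_le_div_iff₀ (hd _ hi) (hd _ hj)] at hm
  have hm' : -dt a * cr (l 0) b ≤ -dt b * cr (l 0) a := by exact_mod_cast hm
  have hid : cr a b * ((l 0).1 ^ 2 + (l 0).2 ^ 2) = dt a * cr (l 0) b - dt b * cr (l 0) a := by
    simp only [cr, hdt]; ring
  have hl : 0 < (l 0).1 ^ 2 + (l 0).2 ^ 2 := by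
    by_contra hc
    push Not at hc
    have h1 : (l 0).1 = 0 := by nlinarith [sq_nonneg (l 0).1, sq_nonneg (l 0).2]
    have h2 : (l 0).2 = 0 := by nlinarith [sq_nonneg (l 0).1, sq_nonneg (l 0).2]
    simp only [cr, h1, h2] at hi
    simp at hi
  have h0 : 0 ≤ cr a b * ((l 0).1 ^ 2 + (l 0).2 ^ 2) := by rw [hid]; linarith
  have h1 : 0 ≤ cr a b := by
    by_contra hc
    push Not at hc
    nlinarith
  exact lt_of_le_of_ne h1 (Ne.symm hnc)

end T9aux

open T9aux in
/-- five points in convex position can be ordered cyclically. -/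
theorem sorting (w : Fin 5 → ℤ × ℤ) (l : Fin 5 → ℤ × ℤ)
    (h : ∀ v j, j ≠ v → 0 < cr (l v) (w j - w v)) :
    ∃ σ : Equiv.Perm (Fin 5), ∀ i j k, i < j → j < k →
      0 < cr (w (σ j) - w (σ i)) (w (σ k) - w (σ i)) := by
  obtain ⟨σ, hσ0, hσ⟩ := sort0 w l h
  refine ⟨σ, ?_⟩
  intro i j k hij hjk
  obtain ⟨j', rfl⟩ : ∃ j' : Fin 4, j = j'.succ :=
    ⟨j.pred (Fin.ne_of_gt (lt_of_le_of_lt (Fin.zero_le _) hij)), by simp⟩
  obtain ⟨k', rfl⟩ : ∃ k' : Fin 4, k = k'.succ :=
    ⟨k.pred (Fin.ne_of_gt (lt_of_le_of_lt (Fin.zero_le _) hjk)), by simp⟩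
  have hjk' : j' < k' := Fin.succ_lt_succ_iff.1 hjk
  rcases Fin.eq_zero_or_eq_succ i with rfl | ⟨i', rfl⟩
  · rw [hσ0]
    exact hσ j' k' hjk'
  · have hij' : i' < j' := Fin.succ_lt_succ_iff.1 hij
    have c1 := hσ i' j' hij'
    have c2 := hσ j' k' hjk'
    have hn := ncol w l h (i := σ i'.succ) (j := σ j'.succ) (k := σ k'.succ)
      (fun h' => hij.ne (σ.injective h')) (fun h' => (hij.trans hjk).ne (σ.injective h'))
      (fun h' => hjk.ne (σ.injective h'))
    have d0 := h (σ j'.succ) 0 (by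
      intro h'
      rw [← hσ0] at h'
      exact absurd (σ.injective h') (Fin.succ_ne_zero _).symm)
    have d1 := h (σ j'.succ) (σ i'.succ) (fun h' => hij.ne (σ.injective h'))
    have d2 := h (σ j'.succ) (σ k'.succ) (fun h' => hjk.ne (σ.injective h').symm)
    by_contra hc
    push Not at hc
    have hneg : cr (w (σ j'.succ) - w (σ i'.succ)) (w (σ k'.succ) - w (σ i'.succ)) < 0 :=
      lt_of_le_of_ne hc hn
    have hid : - cr (w (σ j'.succ) - w (σ i'.succ)) (w (σ k'.succ) - w (σ i'.succ)) *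
          cr (l (σ j'.succ)) (w 0 - w (σ j'.succ)) +
        cr (w (σ j'.succ) - w 0) (w (σ k'.succ) - w 0) *
          cr (l (σ j'.succ)) (w (σ i'.succ) - w (σ j'.succ)) +
        cr (w (σ i'.succ) - w 0) (w (σ j'.succ) - w 0) *
          cr (l (σ j'.succ)) (w (σ k'.succ) - w (σ j'.succ)) = 0 := by
      simp only [cr, Prod.fst_sub, Prod.snd_sub]
      ring
    have t1 := mul_pos (neg_pos.2 hneg) d0
    have t2 := mul_pos c2 d1
    have t3 := mul_pos c1 d2
    linarith

end H938TB
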