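import Pool.Agent.H938R2.TB.CoreMain
import Pool.Agent.H938R2.TB.T1
import Pool.Agent.H938R2.TB.T2
import Pool.Agent.H938R2.TB.T3
import Pool.Agent.H938R2.TB.T4
import Pool.Agent.H938R2.TB.T6a
import Pool.Agent.H938R2.TB.T6b
import Pool.Agent.H938R2.TB.T7
import Pool.Agent.H938R2.TB.T8
import Pool.Agent.H938R2.TB.T9
import Pool.Agent.H938R2.TB.T10
import Pool.Agent.H938R2.TB.CoreMain

set_option autoImplicit false

open MvPolynomial H960VB

namespace H938TB


/-- five points in convex position: the case of `P^4` with cyclically ordered weights. -/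
theorem four_cyc {E : Bundle2 4} {w : Fin 5 → ℤ × ℤ} (D : EqB E w)
    (hcc : ∀ i j k, i < j → j < k → 0 < cr (w j - w i) (w k - w i)) : E.Splits := by
  by_contra hE
  obtain ⟨W⟩ := exists_wedge (by norm_num) D
  obtain ⟨s, τ, α, c, hs, hα, hc, h⟩ := cycle D W hE hcc
  obtain ⟨K⟩ := toCore D W hcc s τ α c hs hα hc h
  exact core K

theorem splits_of_cInc {m n : ℕ} (hm : 2 ≤ m) (hmn : m ≤ n) (E : Bundle2 n)
    (f : Fin (m + 1) → Fin (n + 1)) (hf : Function.Injective f)
    (h : (E.pull (cInc f) (cInc_injective f hf)).Splits) : E.Splits :=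
  Bundle2.splits_of_pull (n - m) m n hm (by omega) E _ _ h

/-- the case of `P^4`. -/
theorem four {E : Bundle2 4} {w : Fin 5 → ℤ × ℤ} (D : EqB E w)
    (hw : ∃ i j k, cr (w j - w i) (w k - w i) ≠ 0) : E.Splits := by
  by_contra hE
  choose τ τ' G G' h1 h2 h3 h4 using extremal (by norm_num) D hE hw
  obtain ⟨σ, hσ⟩ := sorting w (fun v => pr (w v) (τ v - τ' v)) h4
  apply hE
  refine splits_of_cInc (by norm_num) le_rfl E σ σ.injective ?_
  exact four_cyc (D.pull (cInc σ) (cInc_injective _ σ.injective) (w ∘ σ)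
    (cInc_weight σ w)) hσ

/-- three given indices are among five. -/
theorem exists_five {n : ℕ} (hn : 4 ≤ n) (i j k : Fin (n + 1)) :
    ∃ f : Fin 5 → Fin (n + 1), Function.Injective f ∧ i ∈ Set.range f ∧ j ∈ Set.range f ∧
      k ∈ Set.range f := by
  classical
  obtain ⟨s, hs, hs5⟩ : ∃ s : Finset (Fin (n + 1)), {i, j, k} ⊆ s ∧ s.card = 5 := by
    have h1 : ({i, j, k} : Finset (Fin (n + 1))).card ≤ 5 :=
      Finset.card_le_three.trans (by norm_num)
    obtain ⟨s, hs, -, hs5⟩ := Finset.exists_subsuperset_card_eq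
      (Finset.subset_univ ({i, j, k} : Finset (Fin (n + 1)))) h1
      (by rw [Finset.card_univ, Fintype.card_fin]; omega)
    exact ⟨s, hs, hs5⟩
  refine ⟨fun t => s.orderEmbOfFin hs5 t, (s.orderEmbOfFin hs5).injective, ?_, ?_, ?_⟩ <;>
  · have : Set.range (s.orderEmbOfFin hs5) = s := Finset.range_orderEmbOfFin s hs5
    rw [show (Set.range fun t => s.orderEmbOfFin hs5 t) = Set.range (s.orderEmbOfFin hs5) from rfl,
      this]
    exact hs (by simp)

/-- **Main theorem.** -/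
theorem main {n : ℕ} (hn : 4 ≤ n) {E : Bundle2 n} {w : Fin (n + 1) → ℤ × ℤ} (D : EqB E w)
    (hw : ∃ i j k, cr (w j - w i) (w k - w i) ≠ 0) : E.Splits := by
  obtain ⟨i, j, k, hijk⟩ := hw
  obtain ⟨f, hf, ⟨i', rfl⟩, ⟨j', rfl⟩, ⟨k', rfl⟩⟩ := exists_five hn i j k
  refine splits_of_cInc (by norm_num) hn E f hf ?_
  exact four (D.pull (cInc f) (cInc_injective _ hf) (w ∘ f) (cInc_weight f w))
    ⟨i', j', k', hijk⟩

end H938TB
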